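import Pool.Agent.QS2.LamBound2

/-!
# QS2, measure: the bound for the Hankel determinant with perturbed right nodes

The right nodes may carry masses of size `exp (-20 A)`: they stay in the remainder.
-/

set_option autoImplicit false

namespace Pool.Agent.QS2

open Finset Filter Topology Polynomial
open _root_.QS2 (Nd nodeZ IsFormal)
open Pool.QS2E (Gk lamE nu pole_weight node_weight tail_sum er)

/-- the reference points stay in the units `≤ 7 n + e` -/
theorem un_le {N n e : ℕ} (un : Fin N → ℕ)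
    (hF : ∀ F : ℕ → ℝ, ∑ i, F (un i) = ∑ l ∈ Ioc 0 (7 * n + e), (nu n e l : ℝ) * F l)
    (i : Fin N) : un i ≤ 7 * n + e := by
  by_contra hc
  have h1 := hF (fun l => if l ≤ 7 * n + e then 0 else 1)
  have h2 : ∑ l ∈ Ioc 0 (7 * n + e), (nu n e l : ℝ) *
      (if l ≤ 7 * n + e then (0 : ℝ) else 1) = 0 := by
    refine sum_eq_zero (fun l hl => ?_)
    rw [if_pos (mem_Ioc.mp hl).2, mul_zero]
  rw [h2] at h1
  have h3 := (sum_eq_zero_iff_of_nonneg (fun i _ => by split_ifs <;> norm_num)).mp h1 i (mem_univ i)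
  rw [if_neg hc] at h3
  norm_num at h3

/-- the polynomials `phi` at a right node -/
theorem phi_right_le {A N n e : ℕ} (hA : 12 ≤ A) (hnA : 10 * n + 2 ≤ A) (he : e ≤ 16)
    (z : Fin N → ℝ) (un : Fin N → ℕ)
    (hz : ∀ i, 1 ≤ un i ∧ |z i + un i| ≤ 1 / 4 ∧ 1 / 8 ≤ |z i + un i|)
    (hF : ∀ F : ℕ → ℝ, ∑ i, F (un i) = ∑ l ∈ Ioc 0 (7 * n + e), (nu n e l : ℝ) * F l)
    (l : Fin A) (i : Fin N) :
    ‖(phi (fun i => (z i : ℂ)) i).eval (nd A (Sum.inl l))‖ ≤ (4 * (A : ℝ)) ^ N := by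
  have hA' : (12 : ℝ) ≤ A := by exact_mod_cast hA
  have hn' : (10 * n + 2 : ℝ) ≤ A := by exact_mod_cast hnA
  have he' : (e : ℝ) ≤ 16 := by exact_mod_cast he
  rw [phi_eval, norm_prod]
  have h1 : ∀ m ∈ univ.erase i, ‖nd A (Sum.inl l) - (z m : ℂ)‖ ≤ 4 * (A : ℝ) := by
    intro m _
    have h2 := un_le un hF m
    have h2' : (un m : ℝ) ≤ 7 * n + e := by exact_mod_cast h2
    have h3 := abs_le.mp (hz m).2.1
    have h4 : (l : ℕ) + 1 ≤ A := l.2
    have h4' : ((l : ℕ) : ℝ) + 1 ≤ A := by exact_mod_cast h4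
    have h5 : (0 : ℝ) ≤ ((l : ℕ) : ℝ) := Nat.cast_nonneg _
    have h6 : nd A (Sum.inl l) - (z m : ℂ) = ((((l : ℕ) : ℝ) + 1 - z m : ℝ) : ℂ) := by
      rw [nd_inl]
      push_cast
      ring
    rw [h6, Complex.norm_real, Real.norm_eq_abs, abs_le]
    have h7 : (0 : ℝ) ≤ (un m : ℝ) := Nat.cast_nonneg _
    constructor <;> linarith
  have h2 : ∏ m ∈ univ.erase i, ‖nd A (Sum.inl l) - (z m : ℂ)‖ ≤
      ∏ _m ∈ univ.erase i, (4 * (A : ℝ)) :=
    prod_le_prod (fun _ _ => norm_nonneg _) h1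
  refine h2.trans ?_
  rw [prod_const, card_erase_of_mem (mem_univ i), card_univ, Fintype.card_fin]
  exact pow_le_pow_right₀ (by linarith) (by omega)

/-- lower bound for `dPi` at a right node -/
theorem dPi_right_ge {A : ℕ} (g : Fin (2 * A) ≃ Nd A) (l : Fin A) :
    ((A.factorial : ℕ) : ℝ) ^ 2 ≤
      4 ^ A * ‖dPi (fun s => nd A (g s)) (g.symm (Sum.inl l))‖ := by
  classical
  have hA : 0 < A := lt_of_le_of_lt (Nat.zero_le _) l.2
  set F : Nd A → ℝ := fun a => if a = Sum.inl l then 1 else ‖nd A a - nd A (Sum.inl l)‖ with hF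
  have h1 : ‖dPi (fun s => nd A (g s)) (g.symm (Sum.inl l))‖ = ∏ s, F (g s) := by
    unfold dPi
    rw [norm_prod, ← prod_erase (s := univ) (f := fun s => F (g s)) (a := g.symm (Sum.inl l))
      (by simp [hF])]
    refine prod_congr rfl (fun t ht => ?_)
    have hne : g t ≠ Sum.inl l := by
      intro h
      exact (mem_erase.mp ht).1 (by rw [← h, Equiv.symm_apply_apply])
    simp only [hF, if_neg hne]
    rw [Equiv.apply_symm_apply, norm_sub_rev]
  rw [h1, g.prod_comp F, Fintype.prod_sum_type]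
  -- left nodes
  have h2 : ((A.factorial : ℕ) : ℝ) ≤ ∏ i : Fin A, F (Sum.inr i) := by
    have e1 : ((A.factorial : ℕ) : ℝ) = ∏ i : Fin A, (((i : ℕ) : ℝ) + 1) := by
      rw [Fin.prod_univ_eq_prod_range (fun i => ((i : ℝ) + 1)) A, ← prod_range_add_one_eq_factorial]
      push_cast
      rfl
    rw [e1]
    refine prod_le_prod (fun i _ => by positivity) (fun i _ => ?_)
    have e2 : F (Sum.inr i) = ‖nd A (Sum.inr i) - nd A (Sum.inl l)‖ := by
      simp [hF]
    rw [e2, nd_inr, nd_inl]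
    have e3 : (-(((i : ℕ) + 3 : ℕ) : ℂ)) - ((((l : ℕ) + 1 : ℕ) : ℕ) : ℂ) =
        ((-(((i : ℕ) : ℝ) + 3 + (((l : ℕ) : ℝ) + 1)) : ℝ) : ℂ) := by
      push_cast
      ring
    rw [e3, Complex.norm_real, Real.norm_eq_abs, abs_neg, abs_of_nonneg (by positivity)]
    have : (0 : ℝ) ≤ ((l : ℕ) : ℝ) := Nat.cast_nonneg _
    linarith
  -- right nodes
  have h3 : ((((l : ℕ).factorial * (A - 1 - l).factorial : ℕ)) : ℝ) ≤ ∏ i : Fin A, F (Sum.inl i) := by
    have e0 : ∏ i : Fin A, F (Sum.inl i) =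
        ∏ i ∈ range A, (if i = (l : ℕ) then (1 : ℝ) else |((i : ℝ) - (l : ℕ))|) := by
      rw [← Fin.prod_univ_eq_prod_range
        (fun i => (if i = (l : ℕ) then (1 : ℝ) else |((i : ℝ) - (l : ℕ))|)) A]
      refine prod_congr rfl (fun i _ => ?_)
      by_cases hi : i = l
      · subst hi
        simp [hF]
      · have hi' : ((i : ℕ)) ≠ (l : ℕ) := fun h => hi (Fin.ext h)
        have hi'' : (Sum.inl i : Nd A) ≠ Sum.inl l := fun h => hi (Sum.inl.inj h)
        simp only [hF, if_neg hi', if_neg hi'']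
        rw [nd_inl, nd_inl]
        have e3 : ((((i : ℕ) + 1 : ℕ) : ℕ) : ℂ) - ((((l : ℕ) + 1 : ℕ) : ℕ) : ℂ) =
            (((((i : ℕ) : ℝ) - ((l : ℕ) : ℝ)) : ℝ) : ℂ) := by
          push_cast
          ring
        rw [e3, Complex.norm_real, Real.norm_eq_abs]
    rw [e0]
    have hl : (l : ℕ) + 1 ≤ A := l.2
    obtain ⟨r, hr⟩ : ∃ r, A = (l : ℕ) + 1 + r := ⟨A - (l + 1), by omega⟩
    have hr' : A - 1 - (l : ℕ) = r := by omega
    have hrange : range A = range ((l : ℕ) + 1 + r) := by rw [← hr]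
    rw [hr', hrange, prod_range_add, prod_range_succ, if_pos rfl, mul_one, ← prod_range_reflect]
    push_cast
    have e1 : (((l : ℕ).factorial : ℕ) : ℝ) = ∏ j ∈ range (l : ℕ),
        (if (l : ℕ) - 1 - j = (l : ℕ) then (1 : ℝ) else |(((((l : ℕ) - 1 - j : ℕ)) : ℝ) - (l : ℕ))|) := by
      rw [← prod_range_add_one_eq_factorial]
      push_cast
      refine prod_congr rfl (fun j hj => ?_)
      have hj' := mem_range.mp hj
      rw [if_neg (by omega)]
      have e2 : ((((l : ℕ) - 1 - j : ℕ)) : ℝ) = (l : ℕ) - 1 - j := by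
        rw [Nat.sub_sub, Nat.cast_sub (by omega)]
        push_cast
        ring
      rw [e2, show ((l : ℕ) : ℝ) - 1 - j - (l : ℕ) = -((j : ℝ) + 1) by ring, abs_neg,
        abs_of_nonneg (by positivity)]
    have e4 : ((r.factorial : ℕ) : ℝ) = ∏ j ∈ range r,
        (if (l : ℕ) + 1 + j = (l : ℕ) then (1 : ℝ) else |((l : ℕ) + 1 + (j : ℝ)) - (l : ℕ)|) := by
      rw [← prod_range_add_one_eq_factorial]
      push_cast
      refine prod_congr rfl (fun j hj => ?_)
      rw [if_neg (by omega), show ((l : ℕ) : ℝ) + 1 + j - (l : ℕ) = (j : ℝ) + 1 by ring,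
        abs_of_nonneg (by positivity)]
    rw [e1, e4]
  -- combine
  have h4 : ((A.factorial : ℕ) : ℝ) ≤ 4 ^ A * (((l : ℕ).factorial * (A - 1 - l).factorial : ℕ) : ℝ) := by
    have hl : (l : ℕ) ≤ A - 1 := by have := l.2; omega
    have h5 := Nat.choose_mul_factorial_mul_factorial hl
    have h6 : (A - 1).choose (l : ℕ) ≤ 2 ^ (A - 1) := Nat.choose_le_two_pow _ _
    have h7 : A.factorial = A * (A - 1).factorial := (Nat.mul_factorial_pred hA.ne').symm
    have h8 : A ≤ 2 ^ A := Nat.lt_two_pow_self.le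
    have h9 : A.factorial ≤ 4 ^ A * ((l : ℕ).factorial * (A - 1 - l).factorial) := by
      rw [h7, ← h5]
      calc A * ((A - 1).choose (l : ℕ) * (l : ℕ).factorial * (A - 1 - (l : ℕ)).factorial)
          ≤ 2 ^ A * (2 ^ (A - 1) * (l : ℕ).factorial * (A - 1 - (l : ℕ)).factorial) := by
            gcongr
        _ ≤ 2 ^ A * (2 ^ A * (l : ℕ).factorial * (A - 1 - (l : ℕ)).factorial) := by
            gcongr
            · norm_num
            · omega
        _ = 4 ^ A * ((l : ℕ).factorial * (A - 1 - l).factorial) := by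
            rw [show (4 : ℕ) = 2 * 2 by norm_num, mul_pow]
            ring
    exact_mod_cast h9
  have hpos : (0 : ℝ) ≤ ∏ i : Fin A, F (Sum.inl i) := le_trans (by positivity) h3
  calc ((A.factorial : ℕ) : ℝ) ^ 2 = ((A.factorial : ℕ) : ℝ) * ((A.factorial : ℕ) : ℝ) := by ring
    _ ≤ (4 ^ A * ∏ i : Fin A, F (Sum.inl i)) * ∏ i : Fin A, F (Sum.inr i) := by
        refine mul_le_mul ?_ h2 (by positivity) (by positivity)
        exact h4.trans (mul_le_mul_of_nonneg_left h3 (by positivity))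
    _ = _ := by ring

theorem fact_ge (A : ℕ) : (A : ℝ) ^ A ≤ ((A.factorial : ℕ) : ℝ) * Real.exp A := by
  have h := Real.pow_div_factorial_le_exp (A : ℝ) (Nat.cast_nonneg A) A
  rw [div_le_iff₀ (by exact_mod_cast Nat.factorial_pos A)] at h
  linarith

/-- **Weight of a right node.** -/
theorem right_weight {A N n e : ℕ} (hA : 12 ≤ A) (hn1 : 1 ≤ n) (hnA : 10 * n + 2 ≤ A) (he : e ≤ 16)
    (hAn : A ≤ 10 * n + 12) (hN : 2 * N ≤ 3 * A) (z : Fin N → ℝ) (un : Fin N → ℕ)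
    (hz : ∀ i, 1 ≤ un i ∧ |z i + un i| ≤ 1 / 4 ∧ 1 / 8 ≤ |z i + un i|)
    (hF : ∀ F : ℕ → ℝ, ∑ i, F (un i) = ∑ l ∈ Ioc 0 (7 * n + e), (nu n e l : ℝ) * F l)
    (g : Fin (2 * A) ≃ Nd A) (l : Fin A) (i j : Fin N) :
    Real.exp (-20 * A) * ‖(phi (fun i => (z i : ℂ)) i * phi (fun i => (z i : ℂ)) j).eval
        (nd A (Sum.inl l))‖ * A ≤
      Real.exp (lamE A n) * ‖dPi (fun s => nd A (g s)) (g.symm (Sum.inl l))‖ := by
  have hA' : (12 : ℝ) ≤ A := by exact_mod_cast hA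
  have hA0 : (0 : ℝ) < A := by linarith
  have hn' : (10 * n + 2 : ℝ) ≤ A := by exact_mod_cast hnA
  have hAn' : (A : ℝ) ≤ 10 * n + 12 := by exact_mod_cast hAn
  set W := ‖dPi (fun s => nd A (g s)) (g.symm (Sum.inl l))‖ with hW
  have h1 : ‖(phi (fun i => (z i : ℂ)) i * phi (fun i => (z i : ℂ)) j).eval (nd A (Sum.inl l))‖ ≤
      (4 * (A : ℝ)) ^ (3 * A) := by
    rw [eval_mul, norm_mul]
    have a := phi_right_le hA hnA he z un hz hF l i
    have b := phi_right_le hA hnA he z un hz hF l j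
    calc _ ≤ (4 * (A : ℝ)) ^ N * (4 * (A : ℝ)) ^ N :=
          mul_le_mul a b (norm_nonneg _) (by positivity)
      _ = (4 * (A : ℝ)) ^ (2 * N) := by rw [← pow_add]; congr 1; ring
      _ ≤ _ := pow_le_pow_right₀ (by linarith) hN
  have h2 := dPi_right_ge g l
  rw [← hW] at h2
  have h3 := fact_ge A
  have h4 : ((A : ℝ) ^ A) ^ 2 ≤ 4 ^ A * W * Real.exp A ^ 2 := by
    calc ((A : ℝ) ^ A) ^ 2 ≤ (((A.factorial : ℕ) : ℝ) * Real.exp A) ^ 2 :=
          pow_le_pow_left₀ (by positivity) h3 2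
      _ = ((A.factorial : ℕ) : ℝ) ^ 2 * Real.exp A ^ 2 := by ring
      _ ≤ _ := mul_le_mul_of_nonneg_right h2 (by positivity)
  -- the numerical inequality
  have key : Real.exp (-20 * A) * (4 * (A : ℝ)) ^ (3 * A) * A * 4 ^ A * Real.exp A ^ 2 ≤
      Real.exp (lamE A n) * ((A : ℝ) ^ A) ^ 2 := by
    have hlogA : 0 ≤ Real.log A := Real.log_nonneg (by linarith)
    have hx0 : (0 : ℝ) < 10 * n := by
      have : (1 : ℝ) ≤ n := by exact_mod_cast hn1
      linarith
    have hlog4 : Real.log 4 ≤ 1.4 := by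
      rw [show (4 : ℝ) = 2 ^ 2 by norm_num, Real.log_pow]
      have := Real.log_two_lt_d9
      push_cast
      linarith
    have hlog40 : 0 ≤ Real.log 4 := Real.log_nonneg (by norm_num)
    -- A log A
    have h6 : (A : ℝ) * Real.log A ≤ 10 * n * Real.log (10 * n) + 12 * (1 + Real.log A) := by
      have h7 := Real.log_le_sub_one_of_pos (div_pos hA0 hx0)
      rw [Real.log_div hA0.ne' hx0.ne'] at h7
      have h8 : 10 * (n : ℝ) * (Real.log A - Real.log (10 * n)) ≤ A - 10 * n := by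
        calc 10 * (n : ℝ) * (Real.log A - Real.log (10 * n)) ≤ 10 * n * (A / (10 * n) - 1) :=
              mul_le_mul_of_nonneg_left h7 hx0.le
          _ = 10 * n * (A / (10 * n)) - 10 * n := by ring
          _ = A - 10 * n := by rw [mul_div_cancel₀ _ hx0.ne']
      have h9 : ((A : ℝ) - 10 * n) * Real.log A ≤ 12 * Real.log A :=
        mul_le_mul_of_nonneg_right (by linarith) hlogA
      nlinarith
    have her : Real.log A ≤ er (5 * (A : ℝ)) ∧ 4 ≤ er (5 * (A : ℝ)) := by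
      unfold er
      have h10 : Real.log A ≤ Real.log (|5 * (A : ℝ)| + 3) := by
        refine Real.log_le_log hA0 ?_
        rw [abs_of_nonneg (by positivity)]
        linarith
      have h11 : 0 ≤ Real.log (|5 * (A : ℝ)| + 3) := hlogA.trans h10
      constructor <;> linarith
    have e1 : (4 * (A : ℝ)) ^ (3 * A) = Real.exp ((3 * A : ℕ) * (Real.log 4 + Real.log A)) := by
      rw [← Real.log_mul (by norm_num) hA0.ne', ← Real.log_pow, Real.exp_log (by positivity)]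
    have e2 : (4 : ℝ) ^ A = Real.exp (A * Real.log 4) := by
      rw [← Real.log_pow, Real.exp_log (by positivity)]
    have e3 : Real.exp (A : ℝ) ^ 2 = Real.exp (2 * A) := by
      rw [← Real.exp_nat_mul]; push_cast; ring_nf
    have e4 : ((A : ℝ) ^ A) ^ 2 = Real.exp (2 * (A * Real.log A)) := by
      rw [← Real.log_pow, show (2 : ℝ) * Real.log ((A : ℝ) ^ A) =
        ((2 : ℕ) : ℝ) * Real.log ((A : ℝ) ^ A) by norm_num, ← Real.log_pow,
        Real.exp_log (by positivity)]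
    have e5 : (A : ℝ) = Real.exp (Real.log A) := (Real.exp_log hA0).symm
    calc Real.exp (-20 * A) * (4 * (A : ℝ)) ^ (3 * A) * A * 4 ^ A * Real.exp A ^ 2
        = Real.exp (-20 * A + (3 * A : ℕ) * (Real.log 4 + Real.log A) + Real.log A +
            A * Real.log 4 + 2 * A) := by
          rw [e1, e2, e3, Real.exp_add, Real.exp_add, Real.exp_add, Real.exp_add,
            Real.exp_log hA0]
      _ ≤ Real.exp (lamE A n + 2 * (A * Real.log A)) := by
          apply Real.exp_le_exp.mpr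
          unfold lamE
          push_cast
          have h12 : (A : ℝ) * Real.log 4 ≤ A * 1.4 := mul_le_mul_of_nonneg_left hlog4 hA0.le
          nlinarith [her.1, her.2]
      _ = _ := by rw [Real.exp_add, e4]
  have hpos : (0 : ℝ) < 4 ^ A * Real.exp A ^ 2 := by positivity
  have h5 : Real.exp (-20 * A) * (4 * (A : ℝ)) ^ (3 * A) * A * (4 ^ A * Real.exp A ^ 2) ≤
      Real.exp (lamE A n) * W * (4 ^ A * Real.exp A ^ 2) := by
    calc _ = Real.exp (-20 * A) * (4 * (A : ℝ)) ^ (3 * A) * A * 4 ^ A * Real.exp A ^ 2 := by ring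
      _ ≤ Real.exp (lamE A n) * ((A : ℝ) ^ A) ^ 2 := key
      _ ≤ Real.exp (lamE A n) * (4 ^ A * W * Real.exp A ^ 2) :=
          mul_le_mul_of_nonneg_left h4 (Real.exp_pos _).le
      _ = _ := by ring
  have h6 := le_of_mul_le_mul_right h5 hpos
  refine le_trans ?_ h6
  refine mul_le_mul_of_nonneg_right ?_ hA0.le
  exact mul_le_mul_of_nonneg_left h1 (Real.exp_pos _).le

/-- **The right nodes stay in the remainder.** -/
theorem right_sum {A N n e : ℕ} (hA : 12 ≤ A) (hn1 : 1 ≤ n) (hnA : 10 * n + 2 ≤ A) (he : e ≤ 16)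
    (hAn : A ≤ 10 * n + 12) (hN : 2 * N ≤ 3 * A) (z : Fin N → ℝ) (un : Fin N → ℕ)
    (hz : ∀ i, 1 ≤ un i ∧ |z i + un i| ≤ 1 / 4 ∧ 1 / 8 ≤ |z i + un i|)
    (hF : ∀ F : ℕ → ℝ, ∑ i, F (un i) = ∑ l ∈ Ioc 0 (7 * n + e), (nu n e l : ℝ) * F l)
    (g : Fin (2 * A) ≃ Nd A) (ρ : Nd A → ℂ) (M : ℕ)
    (hm : ∀ l : Fin A, ‖ρ (Sum.inl l) - rM M (nd A (Sum.inl l))‖ ≤ Real.exp (-20 * A))
    (i j : Fin N) :
    ‖∑ l : Fin A, nodeMass g ρ M (Sum.inl l) *
        (phi (fun i => (z i : ℂ)) i * phi (fun i => (z i : ℂ)) j).eval (nd A (Sum.inl l))‖ ≤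
      Real.exp (lamE A n) := by
  have hA0 : (0 : ℝ) < A := by
    have : 0 < A := by omega
    exact_mod_cast this
  have h1 : ∀ l ∈ (univ : Finset (Fin A)), ‖nodeMass g ρ M (Sum.inl l) *
      (phi (fun i => (z i : ℂ)) i * phi (fun i => (z i : ℂ)) j).eval (nd A (Sum.inl l))‖ ≤
      Real.exp (lamE A n) / A := by
    intro l _
    have h2 := right_weight hA hn1 hnA he hAn hN z un hz hF g l i j
    have h3 : 0 < ‖dPi (fun s => nd A (g s)) (g.symm (Sum.inl l))‖ :=
      norm_pos_iff.mpr (dPi_ne _ (fun a b h => g.injective (nd_injective A h)) _)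
    unfold nodeMass
    rw [norm_mul, norm_div, div_mul_eq_mul_div, div_le_div_iff₀ h3 hA0]
    refine le_trans ?_ h2
    refine mul_le_mul_of_nonneg_right ?_ hA0.le
    exact mul_le_mul_of_nonneg_right (hm l) (norm_nonneg _)
  refine (norm_sum_le _ _).trans ((sum_le_sum h1).trans (le_of_eq ?_))
  rw [sum_const, card_univ, Fintype.card_fin, nsmul_eq_mul]
  field_simp

end Pool.Agent.QS2
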