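import Pool.Agent.QS2.Defs
import Pool.Agent.QS2.RicInst

/-!
# Growth of the real formal solution

`v_growth` : `|v m| ≤ 100 ^ m * (m!) ^ 2` for the formal solution with `|v 0| ≤ 1`.
-/

set_option autoImplicit false

namespace QS2

open Finset Pool.QS2

/-- the majorant -/
noncomputable def gb (m : ℕ) : ℝ := 100 ^ m * ((m.factorial : ℕ) : ℝ) ^ 2

theorem gb_pos (m : ℕ) : 0 < gb m := by unfold gb; positivity

theorem gb_zero : gb 0 = 1 := by simp [gb]

theorem gb_succ (m : ℕ) : gb (m + 1) = 100 * ((m : ℝ) + 1) ^ 2 * gb m := by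
  unfold gb
  rw [Nat.factorial_succ]
  push_cast
  ring

theorem gb_succ_ge (m : ℕ) : 100 * ((m : ℝ) + 1) * gb m ≤ gb (m + 1) := by
  rw [gb_succ]
  have h1 : (1 : ℝ) ≤ (m : ℝ) + 1 := by
    have : (0 : ℝ) ≤ m := Nat.cast_nonneg m
    linarith
  have h2 := gb_pos m
  nlinarith [mul_nonneg (sub_nonneg.2 h1) h2.le]

theorem gb_mono {a b : ℕ} (h : a ≤ b) : gb a ≤ gb b := by
  induction b, h using Nat.le_induction with
  | base => exact le_refl _
  | succ b _ ih =>
    refine ih.trans ?_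
    have h1 := gb_succ_ge b
    have h2 := gb_pos b
    have h3 : (0 : ℝ) ≤ b := Nat.cast_nonneg b
    nlinarith

/-- `(t+1) gb t ≤ gb j / 100` for `t < j` -/
theorem gb_lt {t j : ℕ} (h : t < j) : 100 * ((t : ℝ) + 1) * gb t ≤ gb j :=
  (gb_succ_ge t).trans (gb_mono h)

theorem gb_lt' {t j : ℕ} (h : t < j) : 100 * gb t ≤ gb j := by
  have h1 := gb_lt h
  have h2 := gb_pos t
  have h3 : (0 : ℝ) ≤ t := Nat.cast_nonneg t
  nlinarith

theorem gb_mul {i t : ℕ} (h : i ≤ t) : gb i * gb (t - i) ≤ gb t := by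
  unfold gb
  have h1 : ((i.factorial : ℕ) : ℝ) * (((t - i).factorial : ℕ) : ℝ) ≤ ((t.factorial : ℕ) : ℝ) := by
    exact_mod_cast Nat.le_of_dvd t.factorial_pos (Nat.factorial_mul_factorial_dvd_factorial h)
  have h2 : (100 : ℝ) ^ i * 100 ^ (t - i) = 100 ^ t := by rw [← pow_add]; congr 1; omega
  calc 100 ^ i * ((i.factorial : ℕ) : ℝ) ^ 2 * (100 ^ (t - i) * (((t - i).factorial : ℕ) : ℝ) ^ 2)
      = (100 ^ i * 100 ^ (t - i)) * (((i.factorial : ℕ) : ℝ) * (((t - i).factorial : ℕ) : ℝ)) ^ 2 := by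
        ring
    _ ≤ 100 ^ t * ((t.factorial : ℕ) : ℝ) ^ 2 := by
        rw [h2]
        apply mul_le_mul_of_nonneg_left _ (by positivity)
        exact pow_le_pow_left₀ (by positivity) h1 2

/-- middle products -/
theorem fac_mid' (a b : ℕ) : (a + 1).factorial * (b + 1).factorial ≤ (a + b + 1).factorial := by
  induction b with
  | zero => simp
  | succ b ih =>
    rw [Nat.factorial_succ (b + 1)]
    have e : a + (b + 1) + 1 = (a + b + 1) + 1 := by ring
    rw [e, Nat.factorial_succ (a + b + 1)]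
    calc (a + 1).factorial * ((b + 1 + 1) * (b + 1).factorial)
        = (b + 1 + 1) * ((a + 1).factorial * (b + 1).factorial) := by ring
      _ ≤ (a + b + 1 + 1) * (a + b + 1).factorial := Nat.mul_le_mul (by omega) ih

theorem fac_mid {i j : ℕ} (h1 : 1 ≤ i) (h2 : i < j) :
    i.factorial * (j - i).factorial ≤ (j - 1).factorial := by
  obtain ⟨a, rfl⟩ : ∃ a, i = a + 1 := ⟨i - 1, by omega⟩
  obtain ⟨b, rfl⟩ : ∃ b, j = a + 1 + (b + 1) := ⟨j - (a + 1) - 1, by omega⟩
  have h := fac_mid' a b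
  have e1 : a + 1 + (b + 1) - (a + 1) = b + 1 := by omega
  have e2 : a + 1 + (b + 1) - 1 = a + b + 1 := by omega
  rw [e1, e2]
  exact h

theorem gb_mid {i j : ℕ} (h1 : 1 ≤ i) (h2 : i < j) :
    (j : ℝ) ^ 2 * (gb i * gb (j - i)) ≤ gb j := by
  unfold gb
  have h3 : ((i.factorial : ℕ) : ℝ) * (((j - i).factorial : ℕ) : ℝ) ≤
      (((j - 1).factorial : ℕ) : ℝ) := by
    exact_mod_cast fac_mid h1 h2
  have h4 : (100 : ℝ) ^ i * 100 ^ (j - i) = 100 ^ j := by rw [← pow_add]; congr 1; omega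
  have h5 : ((j.factorial : ℕ) : ℝ) = (j : ℝ) * (((j - 1).factorial : ℕ) : ℝ) := by
    have := Nat.mul_factorial_pred (by omega : j ≠ 0)
    rw [← this]; push_cast; ring
  calc (j : ℝ) ^ 2 * (100 ^ i * ((i.factorial : ℕ) : ℝ) ^ 2 *
        (100 ^ (j - i) * (((j - i).factorial : ℕ) : ℝ) ^ 2))
      = (100 ^ i * 100 ^ (j - i)) * ((j : ℝ) *
          (((i.factorial : ℕ) : ℝ) * (((j - i).factorial : ℕ) : ℝ))) ^ 2 := by ring
    _ ≤ 100 ^ j * ((j : ℝ) * (((j - 1).factorial : ℕ) : ℝ)) ^ 2 := by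
        rw [h4]
        apply mul_le_mul_of_nonneg_left _ (by positivity)
        exact pow_le_pow_left₀ (by positivity) (mul_le_mul_of_nonneg_left h3 (Nat.cast_nonneg j)) 2
    _ = 100 ^ j * ((j.factorial : ℕ) : ℝ) ^ 2 := by rw [h5]

/-- the binomial times the majorant: `C(t-1, t-i) gb i ≤ gb t / (100 t)` -/
theorem gb_choose {i t : ℕ} (h1 : 1 ≤ i) (h2 : i < t) :
    100 * (t : ℝ) * (((t - 1).choose (t - i) : ℕ) * gb i) ≤ gb t := by
  obtain ⟨a, rfl⟩ : ∃ a, i = a + 1 := ⟨i - 1, by omega⟩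
  obtain ⟨b, rfl⟩ : ∃ b, t = a + 1 + (b + 1) := ⟨t - (a + 1) - 1, by omega⟩
  have e1 : a + 1 + (b + 1) - 1 = a + (b + 1) := by omega
  have e2 : a + 1 + (b + 1) - (a + 1) = b + 1 := by omega
  rw [e1, e2]
  -- C(a+b+1, b+1) * a! * (b+1)! = (a+b+1)!
  have h3 := Nat.add_choose_mul_factorial_mul_factorial a (b + 1)
  have h4 : (a + (b + 1)).choose (b + 1) = (a + (b + 1)).choose a := by
    rw [Nat.choose_symm_add]
  rw [h4]
  -- C * (a+1)! ≤ (t)! , (a+1)! * t ≤ t!
  have h5 : (a + (b + 1)).choose a * (a + 1).factorial ≤ (a + 1 + (b + 1)).factorial := by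
    have e3 : a + 1 + (b + 1) = (a + (b + 1)) + 1 := by ring
    rw [e3, Nat.factorial_succ (a + (b + 1)), Nat.factorial_succ a]
    calc (a + (b + 1)).choose a * ((a + 1) * a.factorial)
        = (a + 1) * ((a + (b + 1)).choose a * a.factorial * 1) := by ring
      _ ≤ (a + (b + 1) + 1) * ((a + (b + 1)).choose a * a.factorial * (b + 1).factorial) :=
          Nat.mul_le_mul (by omega) (Nat.mul_le_mul_left _ (Nat.factorial_pos _))
      _ = (a + (b + 1) + 1) * (a + (b + 1)).factorial := by rw [← h4, h3]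
  have h6 : (a + 1 + (b + 1)) * (a + 1).factorial ≤ (a + 1 + (b + 1)).factorial := by
    have e3 : a + 1 + (b + 1) = (a + (b + 1)) + 1 := by ring
    rw [e3, Nat.factorial_succ (a + (b + 1))]
    exact Nat.mul_le_mul_left _ (Nat.factorial_le (by omega))
  have h7 : ((a + 1 + (b + 1) : ℕ) : ℝ) * ((((a + (b + 1)).choose a : ℕ) : ℝ) *
      ((((a + 1).factorial : ℕ) : ℝ)) ^ 2) ≤ ((((a + 1 + (b + 1)).factorial : ℕ) : ℝ)) ^ 2 := by
    have h8 := Nat.mul_le_mul h5 h6
    have h9 : (((a + (b + 1)).choose a * (a + 1).factorial *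
        ((a + 1 + (b + 1)) * (a + 1).factorial) : ℕ) : ℝ) ≤
        (((a + 1 + (b + 1)).factorial * (a + 1 + (b + 1)).factorial : ℕ) : ℝ) := by
      exact_mod_cast h8
    push_cast at h9 ⊢
    nlinarith
  unfold gb
  have h10 : (100 : ℝ) * 100 ^ (a + 1) ≤ 100 ^ (a + 1 + (b + 1)) := by
    rw [← pow_succ']
    exact pow_le_pow_right₀ (by norm_num) (by omega)
  have h11 : (0 : ℝ) ≤ ((((a + 1 + (b + 1)).factorial : ℕ) : ℝ)) ^ 2 := by positivity
  calc 100 * ((a + 1 + (b + 1) : ℕ) : ℝ) * ((((a + (b + 1)).choose a : ℕ) : ℝ) *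
        (100 ^ (a + 1) * ((((a + 1).factorial : ℕ) : ℝ)) ^ 2))
      = (100 * 100 ^ (a + 1)) * (((a + 1 + (b + 1) : ℕ) : ℝ) * ((((a + (b + 1)).choose a : ℕ) : ℝ) *
        ((((a + 1).factorial : ℕ) : ℝ)) ^ 2)) := by ring
    _ ≤ 100 ^ (a + 1 + (b + 1)) * ((((a + 1 + (b + 1)).factorial : ℕ) : ℝ)) ^ 2 :=
        mul_le_mul h10 h7 (by positivity) (by positivity)

/-- **growth of the formal solution** -/
theorem v_growth (v : ℕ → ℝ) (hv : IsFormal v) (hv0 : |v 0| ≤ 1) (m : ℕ) : |v m| ≤ gb m := by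
  induction m using Nat.strong_induction_on with
  | _ j ih =>
  rcases Nat.eq_zero_or_pos j with h0 | hj
  · subst h0; rw [gb_zero]; exact hv0
  have hj1 : 1 ≤ j := hj
  have hjr : (1 : ℝ) ≤ j := by exact_mod_cast hj1
  -- the rest of shiftc
  have hR : ∀ t, 1 ≤ t → t ≤ j →
      |∑ i ∈ Ico 1 t, ((t - 1).choose (t - i) : ℝ) * v i| ≤ gb t / 100 := by
    intro t ht1 htj
    have htr : (1 : ℝ) ≤ t := by exact_mod_cast ht1
    have h1 : ∀ i ∈ Ico 1 t, |((t - 1).choose (t - i) : ℝ) * v i| ≤ gb t / (100 * t) := by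
      intro i hi
      rw [mem_Ico] at hi
      rw [abs_mul, abs_of_nonneg (by positivity : (0 : ℝ) ≤ ((t - 1).choose (t - i) : ℝ))]
      rw [le_div_iff₀ (by positivity)]
      have h2 := gb_choose hi.1 hi.2
      have h3 := ih i (by omega)
      have h4 : ((t - 1).choose (t - i) : ℝ) * |v i| ≤ ((t - 1).choose (t - i) : ℝ) * gb i :=
        mul_le_mul_of_nonneg_left h3 (by positivity)
      nlinarith
    refine (abs_sum_le_sum_abs _ _).trans ((sum_le_sum h1).trans ?_)
    rw [sum_const, Nat.card_Ico, nsmul_eq_mul]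
    have h5 : (((t - 1 : ℕ)) : ℝ) ≤ t := by exact_mod_cast Nat.sub_le t 1
    have h6 : 0 ≤ gb t / (100 * t) := by have := gb_pos t; positivity
    calc (((t - 1 : ℕ)) : ℝ) * (gb t / (100 * t)) ≤ t * (gb t / (100 * t)) :=
          mul_le_mul_of_nonneg_right h5 h6
      _ = gb t / 100 := by field_simp
  -- shiftc below j
  have hS : ∀ t, t < j → |shiftc v t| ≤ 2 * gb t := by
    intro t ht
    rcases Nat.eq_zero_or_pos t with h1 | h1
    · subst h1; rw [shiftc_zero, gb_zero]; linarith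
    · rw [shiftc_pos v h1]
      have h2 := hR t h1 ht.le
      have h3 := ih t ht
      have h4 := gb_pos t
      refine (abs_add_le _ _).trans ?_
      linarith
  -- prodc below j
  have hP : ∀ t, t < j → |prodc v t| ≤ gb j / 50 := by
    intro t ht
    have h1 : ∀ i ∈ range (t + 1), |v i * shiftc v (t - i)| ≤ 2 * gb t := by
      intro i hi
      have hi' := mem_range.1 hi
      rw [abs_mul]
      have h2 := ih i (by omega)
      have h3 := hS (t - i) (by omega)
      have h4 := gb_mul (by omega : i ≤ t)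
      have h5 : |v i| * |shiftc v (t - i)| ≤ gb i * (2 * gb (t - i)) :=
        mul_le_mul h2 h3 (abs_nonneg _) (gb_pos i).le
      linarith
    unfold prodc
    refine (abs_sum_le_sum_abs _ _).trans ((sum_le_sum h1).trans ?_)
    rw [sum_const, card_range, nsmul_eq_mul]
    have h6 := gb_lt ht
    push_cast
    linarith
  -- middle
  have hM : |∑ i ∈ Ico 1 j, v i * shiftc v (j - i)| ≤ 2 * gb j := by
    have h1 : ∀ i ∈ Ico 1 j, |v i * shiftc v (j - i)| ≤ 2 * gb j / j := by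
      intro i hi
      rw [mem_Ico] at hi
      rw [abs_mul]
      have h2 := ih i hi.2
      have h3 := hS (j - i) (by omega)
      have h4 := gb_mid hi.1 hi.2
      have h5 : |v i| * |shiftc v (j - i)| ≤ gb i * (2 * gb (j - i)) :=
        mul_le_mul h2 h3 (abs_nonneg _) (gb_pos i).le
      rw [le_div_iff₀ (by linarith)]
      have h6 : 0 ≤ gb i * gb (j - i) := (mul_pos (gb_pos _) (gb_pos _)).le
      have h7 : (j : ℝ) * (gb i * gb (j - i)) ≤ (j : ℝ) ^ 2 * (gb i * gb (j - i)) := by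
        apply mul_le_mul_of_nonneg_right _ h6
        nlinarith
      nlinarith
    refine (abs_sum_le_sum_abs _ _).trans ((sum_le_sum h1).trans ?_)
    rw [sum_const, Nat.card_Ico, nsmul_eq_mul]
    have h5 : (((j - 1 : ℕ)) : ℝ) ≤ j := by exact_mod_cast Nat.sub_le j 1
    have h6 : 0 ≤ 2 * gb j / j := by have := gb_pos j; positivity
    calc (((j - 1 : ℕ)) : ℝ) * (2 * gb j / j) ≤ j * (2 * gb j / j) :=
          mul_le_mul_of_nonneg_right h5 h6
      _ = 2 * gb j := by field_simp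
  -- the equation
  have heq := ricc_of_isFormal hv j hj1
  unfold ricc at heq
  rw [prodc_pos v hj1, shiftc_pos v hj1] at heq
  set R := ∑ i ∈ Ico 1 j, ((j - 1).choose (j - i) : ℝ) * v i with hRdef
  set Mi := ∑ i ∈ Ico 1 j, v i * shiftc v (j - i) with hMdef
  have hRj := hR j hj1 le_rfl
  rw [← hRdef] at hRj
  have g := gb_pos j
  -- bounds of the remaining terms
  have q1 : |(if 1 ≤ j then 3 * prodc v (j - 1) else 0)| ≤ 3 * gb j / 50 := by
    rw [if_pos hj1, abs_mul, abs_of_pos (by norm_num : (0 : ℝ) < 3)]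
    have := hP (j - 1) (by omega)
    linarith
  have q2 : |(if 2 ≤ j then 3 * prodc v (j - 2) else 0)| ≤ 3 * gb j / 50 := by
    split_ifs with h
    · rw [abs_mul, abs_of_pos (by norm_num : (0 : ℝ) < 3)]
      have := hP (j - 2) (by omega)
      linarith
    · rw [abs_zero]; positivity
  have q3 : |(if 3 ≤ j then prodc v (j - 3) else 0)| ≤ gb j / 50 := by
    split_ifs with h
    · exact hP (j - 3) (by omega)
    · rw [abs_zero]; positivity
  have s1 : |(if 1 ≤ j then 51 * shiftc v (j - 1) else 0)| ≤ 102 * gb j / 100 := by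
    rw [if_pos hj1, abs_mul, abs_of_pos (by norm_num : (0 : ℝ) < 51)]
    have h1 := hS (j - 1) (by omega)
    have h2 := gb_lt' (by omega : j - 1 < j)
    linarith
  have s2 : |(if 2 ≤ j then 27 * shiftc v (j - 2) else 0)| ≤ 54 * gb j / 100 := by
    split_ifs with h
    · rw [abs_mul, abs_of_pos (by norm_num : (0 : ℝ) < 27)]
      have h1 := hS (j - 2) (by omega)
      have h2 := gb_lt' (by omega : j - 2 < j)
      linarith
    · rw [abs_zero]; positivity
  have s3 : |(if 3 ≤ j then 5 * shiftc v (j - 3) else 0)| ≤ 10 * gb j / 100 := by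
    split_ifs with h
    · rw [abs_mul, abs_of_pos (by norm_num : (0 : ℝ) < 5)]
      have h1 := hS (j - 3) (by omega)
      have h2 := gb_lt' (by omega : j - 3 < j)
      linarith
    · rw [abs_zero]; positivity
  have hv0R : |v 0 * R| ≤ gb j / 100 := by
    rw [abs_mul]
    have h1 : |v 0| * |R| ≤ 1 * (gb j / 100) := mul_le_mul hv0 hRj (abs_nonneg _) (by norm_num)
    linarith
  -- solve for v j
  have hsol : v j * (34 - 2 * v 0) = v 0 * R + Mi +
      (if 1 ≤ j then 3 * prodc v (j - 1) else 0) + (if 2 ≤ j then 3 * prodc v (j - 2) else 0) +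
      (if 3 ≤ j then prodc v (j - 3) else 0) - 34 * R -
      (if 1 ≤ j then 51 * shiftc v (j - 1) else 0) -
      (if 2 ≤ j then 27 * shiftc v (j - 2) else 0) -
      (if 3 ≤ j then 5 * shiftc v (j - 3) else 0) := by
    linarith
  have habs : |v j * (34 - 2 * v 0)| ≤ 5 * gb j := by
    rw [hsol, abs_le]
    have a1 := abs_le.1 hv0R
    have a2 := abs_le.1 hM
    have a3 := abs_le.1 q1
    have a4 := abs_le.1 q2
    have a5 := abs_le.1 q3
    have a6 := abs_le.1 hRj
    have a7 := abs_le.1 s1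
    have a8 := abs_le.1 s2
    have a9 := abs_le.1 s3
    constructor <;> linarith [a1.1, a1.2, a2.1, a2.2, a3.1, a3.2, a4.1, a4.2, a5.1, a5.2, a6.1,
      a6.2, a7.1, a7.2, a8.1, a8.2, a9.1, a9.2]
  rw [abs_mul] at habs
  have h32 : (32 : ℝ) ≤ |34 - 2 * v 0| := by
    have h1 := abs_le.1 hv0
    rw [abs_of_nonneg (by linarith [h1.2])]
    linarith [h1.2]
  have h5 : |v j| * 32 ≤ |v j| * |34 - 2 * v 0| := mul_le_mul_of_nonneg_left h32 (abs_nonneg _)
  linarith

end QS2
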