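import Pool.Agent.QS2.Defs
import Pool.Agent.QS2.Link
import Pool.Agent.QS2.AperyLim
import Pool.Agent.QS2.M.VGrowth

/-!
# Crude bounds: dependence of the determinant on `x`

`crude_diff` : `|DeltaR y x' v A rho - DeltaR w x' v A rho| ≤ |y - w| exp(C A^2 log(A+1)) (1+|x'|)^A`
for `|y|, |w| ≤ 3`.
-/

set_option autoImplicit false

namespace QS2

open Finset Polynomial Matrix

/-! ### products and determinants -/

theorem prod_diff {ι : Type*} (s : Finset ι) (f g b : ι → ℝ) (δ : ℝ) (hδ : 0 ≤ δ)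
    (hf : ∀ i ∈ s, |f i| ≤ b i) (hg : ∀ i ∈ s, |g i| ≤ b i)
    (hd : ∀ i ∈ s, |f i - g i| ≤ δ * b i) :
    |∏ i ∈ s, f i - ∏ i ∈ s, g i| ≤ s.card * δ * ∏ i ∈ s, b i := by
  classical
  induction s using Finset.induction_on with
  | empty => simp
  | insert a s ha ih =>
    rw [prod_insert ha, prod_insert ha, prod_insert ha, card_insert_of_notMem ha]
    have h1 := ih (fun i hi => hf i (mem_insert_of_mem hi)) (fun i hi => hg i (mem_insert_of_mem hi))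
      (fun i hi => hd i (mem_insert_of_mem hi))
    have hb : ∀ i ∈ insert a s, 0 ≤ b i := fun i hi => (abs_nonneg _).trans (hf i hi)
    have h2 : |∏ i ∈ s, f i| ≤ ∏ i ∈ s, b i := by
      rw [abs_prod]
      exact prod_le_prod (fun i _ => abs_nonneg _) (fun i hi => hf i (mem_insert_of_mem hi))
    have h3 : f a * ∏ i ∈ s, f i - g a * ∏ i ∈ s, g i =
        (f a - g a) * ∏ i ∈ s, f i + g a * (∏ i ∈ s, f i - ∏ i ∈ s, g i) := by ring
    rw [h3]
    refine (abs_add_le _ _).trans ?_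
    rw [abs_mul, abs_mul]
    have hba := hb a (mem_insert_self a s)
    have h4 : |f a - g a| * |∏ i ∈ s, f i| ≤ (δ * b a) * ∏ i ∈ s, b i :=
      mul_le_mul (hd a (mem_insert_self a s)) h2 (abs_nonneg _) (mul_nonneg hδ hba)
    have h5 : |g a| * |∏ i ∈ s, f i - ∏ i ∈ s, g i| ≤ b a * (s.card * δ * ∏ i ∈ s, b i) :=
      mul_le_mul (hg a (mem_insert_self a s)) h1 (abs_nonneg _) hba
    push_cast
    nlinarith

theorem det_diff {ι : Type*} [Fintype ι] [DecidableEq ι] (M N : Matrix ι ι ℝ) (b : ι → ℝ) (δ : ℝ)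
    (hδ : 0 ≤ δ) (hM : ∀ i j, |M i j| ≤ b i) (hN : ∀ i j, |N i j| ≤ b i)
    (hd : ∀ i j, |M i j - N i j| ≤ δ * b i) :
    |M.det - N.det| ≤ (Fintype.card ι).factorial * (Fintype.card ι * δ * ∏ i, b i) := by
  rw [det_apply, det_apply, ← sum_sub_distrib]
  have h1 : ∀ σ ∈ (univ : Finset (Equiv.Perm ι)),
      |Equiv.Perm.sign σ • ∏ i, M (σ i) i - Equiv.Perm.sign σ • ∏ i, N (σ i) i| ≤
        Fintype.card ι * δ * ∏ i, b i := by
    intro σ _
    rw [← smul_sub]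
    have h2 := prod_diff univ (fun i => M (σ i) i) (fun i => N (σ i) i) (fun i => b (σ i)) δ hδ
      (fun i _ => hM _ _) (fun i _ => hN _ _) (fun i _ => hd _ _)
    rw [Equiv.prod_comp σ b, card_univ] at h2
    rcases Int.units_eq_one_or (Equiv.Perm.sign σ) with h | h
    · rw [h, one_smul]; exact h2
    · rw [h, Units.neg_smul, one_smul, abs_neg]; exact h2
  refine (abs_sum_le_sum_abs _ _).trans ((sum_le_sum h1).trans ?_)
  rw [sum_const, card_univ, Fintype.card_perm, nsmul_eq_mul]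

theorem det_crude {ι : Type*} [Fintype ι] [DecidableEq ι] (M : Matrix ι ι ℝ) (b : ι → ℝ)
    (hM : ∀ i j, |M i j| ≤ b i) :
    |M.det| ≤ (Fintype.card ι).factorial * ∏ i, b i := by
  rw [det_apply]
  have h1 : ∀ σ ∈ (univ : Finset (Equiv.Perm ι)),
      |Equiv.Perm.sign σ • ∏ i, M (σ i) i| ≤ ∏ i, b i := by
    intro σ _
    have h2 : |∏ i, M (σ i) i| ≤ ∏ i, b i := by
      rw [abs_prod, ← Equiv.prod_comp σ b]
      exact prod_le_prod (fun i _ => abs_nonneg _) (fun i _ => hM _ _)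
    rcases Int.units_eq_one_or (Equiv.Perm.sign σ) with h | h
    · rw [h, one_smul]; exact h2
    · rw [h, Units.neg_smul, one_smul, abs_neg]; exact h2
  refine (abs_sum_le_sum_abs _ _).trans ((sum_le_sum h1).trans ?_)
  rw [sum_const, card_univ, Fintype.card_perm, nsmul_eq_mul]

/-! ### binomial polynomials -/

theorem desc_eval_le (j : ℕ) (z : ℝ) : |(descPochhammer ℝ j).eval z| ≤ (|z| + j) ^ j := by
  induction j with
  | zero => simp
  | succ j ih =>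
    rw [descPochhammer_succ_right, eval_mul, abs_mul]
    have h1 : |(X - (j : ℝ[X])).eval z| ≤ |z| + (j + 1 : ℕ) := by
      rw [eval_sub, eval_X, eval_natCast]
      refine (abs_sub _ _).trans ?_
      rw [abs_of_nonneg (Nat.cast_nonneg (α := ℝ) j)]
      push_cast; linarith
    have h2 : (|z| + j) ^ j ≤ (|z| + (j + 1 : ℕ)) ^ j :=
      pow_le_pow_left₀ (by positivity) (by push_cast; linarith) j
    calc |(descPochhammer ℝ j).eval z| * |(X - (j : ℝ[X])).eval z|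
        ≤ (|z| + (j + 1 : ℕ)) ^ j * (|z| + (j + 1 : ℕ)) :=
          mul_le_mul (ih.trans h2) h1 (abs_nonneg _) (by positivity)
      _ = (|z| + (j + 1 : ℕ)) ^ (j + 1) := by rw [pow_succ]

theorem binP_eval_le (j : ℕ) (z : ℝ) : |(binP ℝ j).eval z| ≤ (|z| + j) ^ j := by
  unfold binP
  rw [eval_mul, eval_C, abs_mul, abs_inv]
  have h1 : (1 : ℝ) ≤ |((j.factorial : ℕ) : ℝ)| := by
    rw [abs_of_nonneg (Nat.cast_nonneg _)]
    exact_mod_cast j.factorial_pos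
  have h2 : |((j.factorial : ℕ) : ℝ)|⁻¹ ≤ 1 := inv_le_one_of_one_le₀ h1
  calc |((j.factorial : ℕ) : ℝ)|⁻¹ * |(descPochhammer ℝ j).eval z|
      ≤ 1 * (|z| + j) ^ j := mul_le_mul h2 (desc_eval_le j z) (abs_nonneg _) (by norm_num)
    _ = _ := one_mul _

theorem desc_coeff_le (j d : ℕ) : |(descPochhammer ℝ j).coeff d| ≤ ((j.factorial : ℕ) : ℝ) := by
  induction j generalizing d with
  | zero =>
    rw [descPochhammer_zero, coeff_one]
    split_ifs <;> simp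
  | succ j ih =>
    rw [descPochhammer_succ_right, mul_sub, coeff_sub]
    have e : (descPochhammer ℝ j * (j : ℝ[X])).coeff d = (descPochhammer ℝ j).coeff d * j := by
      rw [← C_eq_natCast, coeff_mul_C]
    rw [e]
    have h1 : |(descPochhammer ℝ j * X).coeff d| ≤ ((j.factorial : ℕ) : ℝ) := by
      cases d with
      | zero => rw [coeff_mul_X_zero, abs_zero]; positivity
      | succ d => rw [coeff_mul_X]; exact ih d
    have h2 : |(descPochhammer ℝ j).coeff d * (j : ℝ)| ≤ ((j.factorial : ℕ) : ℝ) * j := by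
      rw [abs_mul, abs_of_nonneg (Nat.cast_nonneg (α := ℝ) j)]
      exact mul_le_mul_of_nonneg_right (ih d) (Nat.cast_nonneg _)
    refine (abs_sub _ _).trans ?_
    rw [Nat.factorial_succ]
    push_cast
    linarith

theorem binP_coeff_le (j d : ℕ) : |(binP ℝ j).coeff d| ≤ 1 := by
  unfold binP
  rw [coeff_C_mul, abs_mul, abs_inv, abs_of_nonneg (Nat.cast_nonneg (α := ℝ) _)]
  have h1 : (0 : ℝ) < ((j.factorial : ℕ) : ℝ) := by exact_mod_cast j.factorial_pos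
  rw [inv_mul_le_iff₀ h1, mul_one]
  exact desc_coeff_le j d

/-! ### Apéry numbers -/

theorem aperyA_le (n : ℕ) : (aperyA n : ℝ) ≤ ((n : ℝ) + 1) * 64 ^ n := by
  have h : aperyA n ≤ ((n : ℚ) + 1) * 64 ^ n := by
    unfold aperyA
    have h1 : ∀ k ∈ range (n + 1), ((n.choose k : ℚ) ^ 2 * ((n + k).choose k : ℚ) ^ 2) ≤ 64 ^ n := by
      intro k hk
      have hk' := mem_range.1 hk
      have h2 : (n.choose k : ℚ) ≤ 2 ^ n := by exact_mod_cast Nat.choose_le_two_pow n k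
      have h3 : ((n + k).choose k : ℚ) ≤ 4 ^ n := by
        have h4 : (n + k).choose k ≤ 2 ^ (n + k) := Nat.choose_le_two_pow _ _
        have h5 : 2 ^ (n + k) ≤ 2 ^ (2 * n) := Nat.pow_le_pow_right (by norm_num) (by omega)
        have h6 : 2 ^ (2 * n) = 4 ^ n := by rw [pow_mul]; norm_num
        exact_mod_cast (h4.trans h5).trans h6.le
      have h7 : (n.choose k : ℚ) ^ 2 ≤ (2 ^ n) ^ 2 := pow_le_pow_left₀ (by positivity) h2 2
      have h8 : ((n + k).choose k : ℚ) ^ 2 ≤ (4 ^ n) ^ 2 := pow_le_pow_left₀ (by positivity) h3 2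
      calc _ ≤ ((2 : ℚ) ^ n) ^ 2 * (4 ^ n) ^ 2 := mul_le_mul h7 h8 (by positivity) (by positivity)
        _ = 64 ^ n := by
          rw [← pow_mul, ← pow_mul, mul_comm n 2, pow_mul, pow_mul, ← mul_pow]; norm_num
    refine (sum_le_sum h1).trans ?_
    rw [sum_const, card_range, nsmul_eq_mul]
    push_cast
    exact le_refl _
  have h2 : ((aperyA n : ℚ) : ℝ) ≤ ((((n : ℚ) + 1) * 64 ^ n : ℚ) : ℝ) := by exact_mod_cast h
  push_cast at h2
  exact h2

theorem aperyB_le (n : ℕ) : |(aperyB n : ℝ)| ≤ 3 * (aperyA n : ℝ) := by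
  have h1 := aperyB_sub n
  have h2 := H3_le_two n
  have h3 := aperyA_pos n
  have h4 : (0 : ℚ) ≤ H3 n := by
    unfold H3
    exact sum_nonneg (fun m _ => by positivity)
  have h5 : aperyA n / ((n : ℚ) + 1) ≤ aperyA n := by
    rw [div_le_iff₀ (by positivity)]
    have : (0 : ℚ) ≤ n := Nat.cast_nonneg n
    nlinarith
  have h6 : |aperyB n| ≤ 3 * aperyA n := by
    have h7 := abs_le.1 h1
    rw [abs_le]
    have h8 : aperyA n * H3 n ≤ aperyA n * 2 := mul_le_mul_of_nonneg_left h2 h3.le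
    have h9 : 0 ≤ aperyA n * H3 n := mul_nonneg h3.le h4
    constructor <;> linarith [h7.1, h7.2]
  have h7 : ((|aperyB n| : ℚ) : ℝ) ≤ ((3 * aperyA n : ℚ) : ℝ) := by exact_mod_cast h6
  push_cast at h7
  exact h7

theorem lin_le (n : ℕ) (x : ℝ) : |(aperyA n : ℝ) * x - aperyB n| ≤ (aperyA n : ℝ) * (|x| + 3) := by
  have h1 := aperyB_le n
  have h2 : (0 : ℝ) < (aperyA n : ℝ) := by exact_mod_cast aperyA_pos n
  refine (abs_sub _ _).trans ?_
  rw [abs_mul, abs_of_pos h2]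
  linarith

/-! ### entries of the matrix -/

section entries

variable {A : ℕ}

theorem T_ge (hA : 2 ≤ A) : (3 : ℝ) ≤ (A : ℝ) + 1 := by
  have : (2 : ℝ) ≤ A := by exact_mod_cast hA
  linarith

theorem T_pow_mono (hA : 2 ≤ A) {m n : ℕ} (h : m ≤ n) :
    ((A : ℝ) + 1) ^ m ≤ ((A : ℝ) + 1) ^ n :=
  pow_le_pow_right₀ (by have := T_ge hA; linarith) h

theorem le_T2 (hA : 2 ≤ A) {x : ℝ} (h : x ≤ 3 * A + 2) : x ≤ ((A : ℝ) + 1) ^ 2 := by
  have : (2 : ℝ) ≤ A := by exact_mod_cast hA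
  nlinarith

theorem binP_le (hA : 2 ≤ A) {i : ℕ} (hi : i ≤ 2 * A) {z : ℝ} (hz : |z| ≤ A + 2) :
    |(binP ℝ i).eval z| ≤ ((A : ℝ) + 1) ^ (4 * A) := by
  have hi' : (i : ℝ) ≤ 2 * A := by exact_mod_cast hi
  refine (binP_eval_le i z).trans ?_
  have h1 : |z| + i ≤ ((A : ℝ) + 1) ^ 2 := le_T2 hA (by linarith)
  calc (|z| + i) ^ i ≤ (((A : ℝ) + 1) ^ 2) ^ i := pow_le_pow_left₀ (by positivity) h1 i
    _ = ((A : ℝ) + 1) ^ (2 * i) := by rw [← pow_mul]
    _ ≤ ((A : ℝ) + 1) ^ (4 * A) := T_pow_mono hA (by omega)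

theorem aperyA_le' (hA : 2 ≤ A) {n : ℕ} (hn : n ≤ A + 1) :
    (aperyA n : ℝ) ≤ ((A : ℝ) + 1) ^ (10 * A) := by
  have h3 := T_ge hA
  have hn' : (n : ℝ) ≤ A + 1 := by exact_mod_cast hn
  refine (aperyA_le n).trans ?_
  have h1 : (n : ℝ) + 1 ≤ ((A : ℝ) + 1) ^ 2 := le_T2 hA (by linarith)
  have h2 : (64 : ℝ) ≤ ((A : ℝ) + 1) ^ 4 := by
    calc (64 : ℝ) ≤ 3 ^ 4 := by norm_num
      _ ≤ ((A : ℝ) + 1) ^ 4 := pow_le_pow_left₀ (by norm_num) h3 4
  calc ((n : ℝ) + 1) * 64 ^ n ≤ ((A : ℝ) + 1) ^ 2 * (((A : ℝ) + 1) ^ 4) ^ n :=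
        mul_le_mul h1 (pow_le_pow_left₀ (by norm_num) h2 n) (by positivity) (by positivity)
    _ = ((A : ℝ) + 1) ^ (2 + 4 * n) := by rw [← pow_mul, ← pow_add]
    _ ≤ ((A : ℝ) + 1) ^ (10 * A) := T_pow_mono hA (by omega)

theorem lin_le_right (hA : 2 ≤ A) {n : ℕ} (hn : n ≤ A + 1) {x : ℝ} (hx : |x| ≤ 3) :
    |(aperyA n : ℝ) * x - aperyB n| ≤ ((A : ℝ) + 1) ^ (11 * A) := by
  have h3 := T_ge hA
  refine (lin_le n x).trans ?_
  calc (aperyA n : ℝ) * (|x| + 3) ≤ ((A : ℝ) + 1) ^ (10 * A) * ((A : ℝ) + 1) ^ 2 :=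
        mul_le_mul (aperyA_le' hA hn) (by nlinarith) (by positivity) (by positivity)
    _ = ((A : ℝ) + 1) ^ (10 * A + 2) := by rw [← pow_add]
    _ ≤ ((A : ℝ) + 1) ^ (11 * A) := T_pow_mono hA (by omega)

theorem lin_le_left (hA : 2 ≤ A) {n : ℕ} (hn : n ≤ A + 1) (x : ℝ) :
    |(aperyA n : ℝ) * x - aperyB n| ≤ ((A : ℝ) + 1) ^ (11 * A) * (1 + |x|) := by
  have h3 := T_ge hA
  refine (lin_le n x).trans ?_
  have h4 : |x| + 3 ≤ ((A : ℝ) + 1) ^ 1 * (1 + |x|) := by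
    have := abs_nonneg x
    nlinarith
  calc (aperyA n : ℝ) * (|x| + 3) ≤
        ((A : ℝ) + 1) ^ (10 * A) * (((A : ℝ) + 1) ^ 1 * (1 + |x|)) :=
        mul_le_mul (aperyA_le' hA hn) h4 (by positivity) (by positivity)
    _ = ((A : ℝ) + 1) ^ (10 * A + 1) * (1 + |x|) := by rw [pow_add]; ring
    _ ≤ ((A : ℝ) + 1) ^ (11 * A) * (1 + |x|) :=
        mul_le_mul_of_nonneg_right (T_pow_mono hA (by omega)) (by positivity)

theorem fac_le (hA : 2 ≤ A) {d : ℕ} (hd : d ≤ 2 * A) :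
    ((d.factorial : ℕ) : ℝ) ≤ ((A : ℝ) + 1) ^ (4 * A) := by
  have h1 : d.factorial ≤ (2 * A) ^ (2 * A) :=
    (Nat.factorial_le hd).trans (Nat.factorial_le_pow _)
  have h2 : (((2 * A) ^ (2 * A) : ℕ) : ℝ) ≤ (((A : ℝ) + 1) ^ 2) ^ (2 * A) := by
    push_cast
    have hA' : (2 : ℝ) ≤ A := by exact_mod_cast hA
    exact pow_le_pow_left₀ (by positivity) (le_T2 hA (by linarith)) _
  calc ((d.factorial : ℕ) : ℝ) ≤ (((2 * A) ^ (2 * A) : ℕ) : ℝ) := by exact_mod_cast h1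
    _ ≤ (((A : ℝ) + 1) ^ 2) ^ (2 * A) := h2
    _ = ((A : ℝ) + 1) ^ (4 * A) := by rw [← pow_mul]; congr 1; ring

theorem gb_le (hA : 2 ≤ A) {m : ℕ} (hm : m ≤ 2 * A) : gb m ≤ ((A : ℝ) + 1) ^ (18 * A) := by
  have h3 := T_ge hA
  unfold gb
  have h1 := fac_le hA hm
  have h2 : (100 : ℝ) ≤ ((A : ℝ) + 1) ^ 5 := by
    calc (100 : ℝ) ≤ 3 ^ 5 := by norm_num
      _ ≤ ((A : ℝ) + 1) ^ 5 := pow_le_pow_left₀ (by norm_num) h3 5
  calc (100 : ℝ) ^ m * ((m.factorial : ℕ) : ℝ) ^ 2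
      ≤ (((A : ℝ) + 1) ^ 5) ^ m * (((A : ℝ) + 1) ^ (4 * A)) ^ 2 :=
        mul_le_mul (pow_le_pow_left₀ (by norm_num) h2 m) (pow_le_pow_left₀ (by positivity) h1 2)
          (by positivity) (by positivity)
    _ = ((A : ℝ) + 1) ^ (5 * m + 4 * A * 2) := by rw [← pow_mul, ← pow_mul, ← pow_add]
    _ ≤ ((A : ℝ) + 1) ^ (18 * A) := T_pow_mono hA (by omega)

theorem pp_coeff_le (hA : 2 ≤ A) (v : ℕ → ℝ) (hv : IsFormal v) (hv0 : |v 0| ≤ 1) {i d : ℕ}
    (hi : i ≤ 2 * A) : |(pp v (binP ℝ i)).coeff d| ≤ ((A : ℝ) + 1) ^ (19 * A) := by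
  rw [pp_coeff]
  have hdeg := binP_natDegree (R := ℝ) i
  have h1 : ∀ l ∈ range ((binP ℝ i).natDegree + 1),
      |(binP ℝ i).coeff l * (if d ≤ l then v (l - d) else 0)| ≤ ((A : ℝ) + 1) ^ (18 * A) := by
    intro l hl
    have hl' := mem_range.1 hl
    rw [abs_mul]
    have h2 : |(if d ≤ l then v (l - d) else 0)| ≤ ((A : ℝ) + 1) ^ (18 * A) := by
      split_ifs with h
      · exact (v_growth v hv hv0 _).trans (gb_le hA (by omega))
      · rw [abs_zero]; positivity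
    calc |(binP ℝ i).coeff l| * |(if d ≤ l then v (l - d) else 0)|
        ≤ 1 * ((A : ℝ) + 1) ^ (18 * A) :=
          mul_le_mul (binP_coeff_le i l) h2 (abs_nonneg _) (by norm_num)
      _ = _ := one_mul _
  refine (abs_sum_le_sum_abs _ _).trans ((sum_le_sum h1).trans ?_)
  rw [sum_const, card_range, nsmul_eq_mul]
  have h3 : (((binP ℝ i).natDegree + 1 : ℕ) : ℝ) ≤ ((A : ℝ) + 1) ^ 2 := by
    apply le_T2 hA
    have : (((binP ℝ i).natDegree + 1 : ℕ) : ℝ) ≤ ((2 * A + 1 : ℕ) : ℝ) := by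
      exact_mod_cast (by omega : (binP ℝ i).natDegree + 1 ≤ 2 * A + 1)
    push_cast at this ⊢
    have h0 : (0 : ℝ) ≤ A := Nat.cast_nonneg A
    linarith
  calc (((binP ℝ i).natDegree + 1 : ℕ) : ℝ) * ((A : ℝ) + 1) ^ (18 * A)
      ≤ ((A : ℝ) + 1) ^ 2 * ((A : ℝ) + 1) ^ (18 * A) :=
        mul_le_mul_of_nonneg_right h3 (by positivity)
    _ = ((A : ℝ) + 1) ^ (2 + 18 * A) := by rw [← pow_add]
    _ ≤ ((A : ℝ) + 1) ^ (19 * A) := T_pow_mono hA (by omega)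

theorem node_le (A : ℕ) (f : Nd A) : |((nodeZ A f : ℤ) : ℝ)| ≤ (A : ℝ) + 2 := by
  rcases f with i | i
  · simp only [nodeZ]
    push_cast
    have h1 : ((i : ℕ) : ℝ) + 1 ≤ A := by exact_mod_cast i.2
    have h2 : (0 : ℝ) ≤ ((i : ℕ) : ℝ) := Nat.cast_nonneg _
    rw [abs_of_nonneg (by linarith)]
    linarith
  · simp only [nodeZ]
    push_cast
    have h1 : ((i : ℕ) : ℝ) + 1 ≤ A := by exact_mod_cast i.2
    have h2 : (0 : ℝ) ≤ ((i : ℕ) : ℝ) := Nat.cast_nonneg _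
    rw [abs_of_nonpos (by linarith)]
    linarith

/-- bound of the rows -/
noncomputable def rb (A rho : ℕ) (x' : ℝ) : Nd A ⊕ Fin (2 * rho) → ℝ
  | Sum.inl (Sum.inl _) => ((A : ℝ) + 1) ^ (23 * A)
  | Sum.inl (Sum.inr _) => ((A : ℝ) + 1) ^ (23 * A) * (1 + |x'|)
  | Sum.inr _ => ((A : ℝ) + 1) ^ (23 * A)

theorem mul_T (hA : 2 ≤ A) {a b : ℝ} {m n : ℕ} (ha0 : 0 ≤ b) (ha : a ≤ ((A : ℝ) + 1) ^ m)
    (hb : b ≤ ((A : ℝ) + 1) ^ n) (h : m + n ≤ 23 * A) : a * b ≤ ((A : ℝ) + 1) ^ (23 * A) := by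
  have h3 := T_ge hA
  calc a * b ≤ ((A : ℝ) + 1) ^ m * ((A : ℝ) + 1) ^ n :=
        mul_le_mul ha hb ha0 (by positivity)
    _ = ((A : ℝ) + 1) ^ (m + n) := by rw [← pow_add]
    _ ≤ _ := T_pow_mono hA h

theorem entry_le (hA : 2 ≤ A) {rho : ℕ} (hρ : 2 * rho ≤ A) (v : ℕ → ℝ) (hv : IsFormal v)
    (hv0 : |v 0| ≤ 1) {x x' : ℝ} (hx : |x| ≤ 3) (a : Nd A ⊕ Fin (2 * rho))
    (b : Fin (A + rho) ⊕ Fin (A + rho)) :
    |bigM x x' v A rho a b| ≤ rb A rho x' a := by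
  have hnode := node_le A
  unfold bigM
  rcases a with (i | i) | d <;> rcases b with j | j
  · have h1 := lin_le_right hA (n := (i : ℕ) + 1) (by omega) hx
    have h2 := binP_le hA (i := (j : ℕ)) (by omega) (hnode (Sum.inl i))
    simp only [fullM, uval, rb]
    rw [abs_mul]
    exact mul_T hA (abs_nonneg _) h2 h1 (by omega)
  · have h1 := lin_le_right hA (n := (i : ℕ) + 2) (by omega) hx
    have h2 := binP_le hA (i := (j : ℕ)) (by omega) (hnode (Sum.inl i))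
    simp only [fullM, uval1, rb]
    rw [abs_mul]
    exact mul_T hA (abs_nonneg _) h2 h1 (by omega)
  · have h1 := lin_le_left hA (n := (i : ℕ) + 2) (by omega) x'
    have h2 := binP_le hA (i := (j : ℕ)) (by omega) (hnode (Sum.inr i))
    simp only [fullM, uval, rb]
    rw [abs_mul]
    refine (mul_le_mul h2 h1 (abs_nonneg _) (by positivity)).trans ?_
    rw [← mul_assoc, ← pow_add]
    exact mul_le_mul_of_nonneg_right (T_pow_mono hA (by omega)) (by positivity)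
  · have h1 := lin_le_left hA (n := (i : ℕ) + 1) (by omega) x'
    have h2 := binP_le hA (i := (j : ℕ)) (by omega) (hnode (Sum.inr i))
    simp only [fullM, uval1, rb]
    rw [abs_mul]
    refine (mul_le_mul h2 h1 (abs_nonneg _) (by positivity)).trans ?_
    rw [← mul_assoc, ← pow_add]
    exact mul_le_mul_of_nonneg_right (T_pow_mono hA (by omega)) (by positivity)
  · simp only [fullM, rb]
    rw [abs_mul, abs_of_nonneg (Nat.cast_nonneg (α := ℝ) _)]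
    have h1 := fac_le hA (d := A + rho - 2 * rho + d) (by omega)
    have h2 := binP_coeff_le (j : ℕ) (A + rho - 2 * rho + d)
    have h3 : |(binP ℝ (j : ℕ)).coeff (A + rho - 2 * rho + d)| ≤ ((A : ℝ) + 1) ^ 0 := by
      rw [pow_zero]; exact h2
    exact mul_T hA (abs_nonneg _) h1 h3 (by omega)
  · simp only [fullM, rb]
    rw [abs_mul, abs_of_nonneg (Nat.cast_nonneg (α := ℝ) _)]
    have h1 := fac_le hA (d := A + rho - 2 * rho + d) (by omega)
    have h2 := pp_coeff_le hA v hv hv0 (i := (j : ℕ)) (d := A + rho - 2 * rho + d) (by omega)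
    exact mul_T hA (abs_nonneg _) h1 h2 (by omega)

theorem rb_nonneg (rho : ℕ) (x' : ℝ) (a : Nd A ⊕ Fin (2 * rho)) : 0 ≤ rb A rho x' a := by
  rcases a with (i | i) | d <;> simp only [rb] <;> positivity

theorem entry_diff (hA : 2 ≤ A) {rho : ℕ} (hρ : 2 * rho ≤ A) (v : ℕ → ℝ) {y w x' : ℝ}
    (a : Nd A ⊕ Fin (2 * rho)) (b : Fin (A + rho) ⊕ Fin (A + rho)) :
    |bigM y x' v A rho a b - bigM w x' v A rho a b| ≤ |y - w| * rb A rho x' a := by
  have hnode := node_le A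
  have h0 := mul_nonneg (abs_nonneg (y - w)) (rb_nonneg (A := A) rho x' a)
  unfold bigM
  rcases a with (i | i) | d <;> rcases b with j | j
  · have h1 := aperyA_le' hA (n := (i : ℕ) + 1) (by omega)
    have h2 := binP_le hA (i := (j : ℕ)) (by omega) (hnode (Sum.inl i))
    simp only [fullM, uval, rb]
    have e : eval (((nodeZ A (Sum.inl i) : ℤ)) : ℝ) (binP ℝ ↑j) *
        ((aperyA ((i : ℕ) + 1) : ℝ) * y - (aperyB ((i : ℕ) + 1) : ℝ)) -
        eval (((nodeZ A (Sum.inl i) : ℤ)) : ℝ) (binP ℝ ↑j) *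
        ((aperyA ((i : ℕ) + 1) : ℝ) * w - (aperyB ((i : ℕ) + 1) : ℝ)) =
        (y - w) * (eval (((nodeZ A (Sum.inl i) : ℤ)) : ℝ) (binP ℝ ↑j) *
          (aperyA ((i : ℕ) + 1) : ℝ)) := by ring
    rw [e, abs_mul]
    refine mul_le_mul_of_nonneg_left ?_ (abs_nonneg _)
    have h3 : (0 : ℝ) < (aperyA ((i : ℕ) + 1) : ℝ) := by exact_mod_cast aperyA_pos _
    rw [abs_mul, abs_of_pos h3]
    exact mul_T hA h3.le h2 h1 (by omega)
  · have h1 := aperyA_le' hA (n := (i : ℕ) + 2) (by omega)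
    have h2 := binP_le hA (i := (j : ℕ)) (by omega) (hnode (Sum.inl i))
    simp only [fullM, uval1, rb]
    have e : eval (((nodeZ A (Sum.inl i) : ℤ)) : ℝ) (binP ℝ ↑j) *
        ((aperyA ((i : ℕ) + 2) : ℝ) * y - (aperyB ((i : ℕ) + 2) : ℝ)) -
        eval (((nodeZ A (Sum.inl i) : ℤ)) : ℝ) (binP ℝ ↑j) *
        ((aperyA ((i : ℕ) + 2) : ℝ) * w - (aperyB ((i : ℕ) + 2) : ℝ)) =
        (y - w) * (eval (((nodeZ A (Sum.inl i) : ℤ)) : ℝ) (binP ℝ ↑j) *
          (aperyA ((i : ℕ) + 2) : ℝ)) := by ring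
    rw [e, abs_mul]
    refine mul_le_mul_of_nonneg_left ?_ (abs_nonneg _)
    have h3 : (0 : ℝ) < (aperyA ((i : ℕ) + 2) : ℝ) := by exact_mod_cast aperyA_pos _
    rw [abs_mul, abs_of_pos h3]
    exact mul_T hA h3.le h2 h1 (by omega)
  all_goals
    simp only [fullM, uval, uval1, sub_self, abs_zero]
    exact h0

end entries

/-! ### the determinants -/

theorem prod_rb (A rho : ℕ) (x' : ℝ) :
    ∏ a, rb A rho x' a = ((A : ℝ) + 1) ^ (23 * A * (2 * (A + rho))) * (1 + |x'|) ^ A := by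
  rw [Fintype.prod_sum_type, Fintype.prod_sum_type]
  simp only [rb, prod_const, card_univ, Fintype.card_fin]
  rw [mul_pow, ← pow_mul, ← pow_mul]
  have e : 23 * A * (2 * (A + rho)) = 23 * A * A + 23 * A * A + 23 * A * (2 * rho) := by ring
  rw [e, pow_add, pow_add]
  ring

theorem card_col (A rho : ℕ) : Fintype.card (Fin (A + rho) ⊕ Fin (A + rho)) = 2 * (A + rho) := by
  simp; ring

theorem exp_form (A k : ℕ) : ((A : ℝ) + 1) ^ k = Real.exp (k * Real.log ((A : ℝ) + 1)) := by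
  rw [Real.exp_nat_mul, Real.exp_log (by positivity)]

theorem fac3_le {A rho : ℕ} (hA : 2 ≤ A) (hρ : 2 * rho ≤ A) :
    (((2 * (A + rho)).factorial : ℕ) : ℝ) ≤ ((A : ℝ) + 1) ^ (6 * A) := by
  have h1 : (2 * (A + rho)).factorial ≤ (3 * A) ^ (3 * A) :=
    (Nat.factorial_le (by omega)).trans (Nat.factorial_le_pow _)
  have h2 : (((3 * A) ^ (3 * A) : ℕ) : ℝ) ≤ (((A : ℝ) + 1) ^ 2) ^ (3 * A) := by
    push_cast
    have hA' : (2 : ℝ) ≤ A := by exact_mod_cast hA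
    exact pow_le_pow_left₀ (by positivity) (le_T2 hA (by linarith)) _
  calc (((2 * (A + rho)).factorial : ℕ) : ℝ) ≤ (((3 * A) ^ (3 * A) : ℕ) : ℝ) := by exact_mod_cast h1
    _ ≤ (((A : ℝ) + 1) ^ 2) ^ (3 * A) := h2
    _ = ((A : ℝ) + 1) ^ (6 * A) := by rw [← pow_mul]; congr 1; ring

/-- **crude difference** -/
theorem crude_diff (v : ℕ → ℝ) (hv : IsFormal v) (hv0 : |v 0| ≤ 1) {A rho : ℕ} (hA : 2 ≤ A)
    (hρ : 2 * rho ≤ A) {y w x' : ℝ} (hy : |y| ≤ 3) (hw : |w| ≤ 3) :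
    |DeltaR y x' v A rho - DeltaR w x' v A rho| ≤
      |y - w| * Real.exp (73 * (A : ℝ) ^ 2 * Real.log ((A : ℝ) + 1)) * (1 + |x'|) ^ A := by
  have h := det_diff ((bigM y x' v A rho).submatrix (idx A rho) id)
    ((bigM w x' v A rho).submatrix (idx A rho) id) (fun i => rb A rho x' (idx A rho i)) |y - w|
    (abs_nonneg _) (fun i j => entry_le hA hρ v hv hv0 hy _ _)
    (fun i j => entry_le hA hρ v hv hv0 hw _ _) (fun i j => entry_diff hA hρ v _ _)
  rw [Equiv.prod_comp (idx A rho) (rb A rho x'), prod_rb, card_col] at h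
  refine h.trans ?_
  have h3 := T_ge hA
  have hA' : (2 : ℝ) ≤ A := by exact_mod_cast hA
  have hc : ((2 * (A + rho) : ℕ) : ℝ) ≤ ((A : ℝ) + 1) ^ 2 := by
    apply le_T2 hA
    have : ((2 * (A + rho) : ℕ) : ℝ) ≤ ((3 * A : ℕ) : ℝ) := by exact_mod_cast (by omega)
    push_cast at this ⊢
    linarith
  have hf := fac3_le hA hρ
  have hexp : ((A : ℝ) + 1) ^ (6 * A) * (((A : ℝ) + 1) ^ 2 *
      ((A : ℝ) + 1) ^ (23 * A * (2 * (A + rho)))) ≤
      Real.exp (73 * (A : ℝ) ^ 2 * Real.log ((A : ℝ) + 1)) := by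
    rw [← pow_add, ← pow_add]
    have e : 6 * A + (2 + 23 * A * (2 * (A + rho))) ≤ 73 * A ^ 2 := by nlinarith
    refine (T_pow_mono hA e).trans ?_
    rw [exp_form]
    push_cast
    exact le_refl _
  calc (((2 * (A + rho)).factorial : ℕ) : ℝ) * (((2 * (A + rho) : ℕ) : ℝ) * |y - w| *
        (((A : ℝ) + 1) ^ (23 * A * (2 * (A + rho))) * (1 + |x'|) ^ A))
      ≤ ((A : ℝ) + 1) ^ (6 * A) * (((A : ℝ) + 1) ^ 2 * |y - w| *
        (((A : ℝ) + 1) ^ (23 * A * (2 * (A + rho))) * (1 + |x'|) ^ A)) := by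
        apply mul_le_mul hf _ (by positivity) (by positivity)
        apply mul_le_mul_of_nonneg_right _ (by positivity)
        exact mul_le_mul_of_nonneg_right hc (abs_nonneg _)
    _ = |y - w| * (((A : ℝ) + 1) ^ (6 * A) * (((A : ℝ) + 1) ^ 2 *
        ((A : ℝ) + 1) ^ (23 * A * (2 * (A + rho))))) * (1 + |x'|) ^ A := by ring
    _ ≤ _ := by
        apply mul_le_mul_of_nonneg_right _ (by positivity)
        exact mul_le_mul_of_nonneg_left hexp (abs_nonneg _)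

/-- crude bound of the determinant -/
theorem crude_bound (v : ℕ → ℝ) (hv : IsFormal v) (hv0 : |v 0| ≤ 1) {A rho : ℕ} (hA : 2 ≤ A)
    (hρ : 2 * rho ≤ A) {y x' : ℝ} (hy : |y| ≤ 3) :
    |DeltaR y x' v A rho| ≤
      Real.exp (73 * (A : ℝ) ^ 2 * Real.log ((A : ℝ) + 1)) * (1 + |x'|) ^ A := by
  have h := det_crude ((bigM y x' v A rho).submatrix (idx A rho) id)
    (fun i => rb A rho x' (idx A rho i)) (fun i j => entry_le hA hρ v hv hv0 hy _ _)
  rw [Equiv.prod_comp (idx A rho) (rb A rho x'), prod_rb, card_col] at h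
  refine h.trans ?_
  have h3 := T_ge hA
  have hf := fac3_le hA hρ
  have hexp : ((A : ℝ) + 1) ^ (6 * A) * ((A : ℝ) + 1) ^ (23 * A * (2 * (A + rho))) ≤
      Real.exp (73 * (A : ℝ) ^ 2 * Real.log ((A : ℝ) + 1)) := by
    rw [← pow_add]
    have e : 6 * A + 23 * A * (2 * (A + rho)) ≤ 73 * A ^ 2 := by nlinarith
    refine (T_pow_mono hA e).trans ?_
    rw [exp_form]
    push_cast
    exact le_refl _
  calc (((2 * (A + rho)).factorial : ℕ) : ℝ) *
        (((A : ℝ) + 1) ^ (23 * A * (2 * (A + rho))) * (1 + |x'|) ^ A)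
      ≤ ((A : ℝ) + 1) ^ (6 * A) *
        (((A : ℝ) + 1) ^ (23 * A * (2 * (A + rho))) * (1 + |x'|) ^ A) :=
        mul_le_mul_of_nonneg_right hf (by positivity)
    _ = (((A : ℝ) + 1) ^ (6 * A) * ((A : ℝ) + 1) ^ (23 * A * (2 * (A + rho)))) *
        (1 + |x'|) ^ A := by ring
    _ ≤ _ := mul_le_mul_of_nonneg_right hexp (by positivity)

theorem zeta3_le : |zeta3| ≤ 2 := by
  have h1 : zeta3 ≤ 2 := by
    refine le_of_tendsto tendsto_H3 (Filter.Eventually.of_forall (fun n => ?_))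
    exact_mod_cast H3_le_two n
  have h2 : 0 ≤ zeta3 := by
    unfold zeta3
    exact tsum_nonneg (fun n => by positivity)
  rw [abs_of_nonneg h2]
  exact h1

/-- (M3): the difference to `ζ(3)` -/
theorem crude_diff_zeta (v : ℕ → ℝ) (hv : IsFormal v) (hv0 : |v 0| ≤ 1) {A rho : ℕ} (hA : 2 ≤ A)
    (hρ : 2 * rho ≤ A) {y x' : ℝ} (hy : |y - zeta3| ≤ 1) :
    |DeltaR y x' v A rho - DeltaR zeta3 x' v A rho| ≤
      |y - zeta3| * Real.exp (73 * (A : ℝ) ^ 2 * Real.log ((A : ℝ) + 1)) * (1 + |x'|) ^ A := by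
  have h0 := zeta3_le
  refine crude_diff v hv hv0 hA hρ ?_ (by linarith)
  have h1 : |y| ≤ |y - zeta3| + |zeta3| := by
    have := abs_add_le (y - zeta3) zeta3
    simpa using this
  linarith

end QS2
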