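import Pool.Agent.QS2.B.Facts
import Pool.Agent.QS2.M.CrudeDiff

/-!
# QS2, measure: the left nodes for `10 ≤ x' ≤ 11`, uniformly in `x'`
-/

set_option autoImplicit false

namespace Pool.Agent.QS2

open Finset
open _root_.QS2 (aperyA aperyB zeta3 aperyFacts one_le_real caso_real a_lower)

/-- `a_n x' - b_n ≥ 7 a_n` for `x' ≥ 10` -/
theorem lin_lower10 {x' : ℝ} (hx : 10 ≤ x') (n : ℕ) :
    7 * (aperyA n : ℝ) ≤ (aperyA n : ℝ) * x' - aperyB n := by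
  have h1 := (abs_le.1 (_root_.QS2.aperyB_le n)).2
  have h2 := one_le_real aperyFacts n
  have h3 : (aperyA n : ℝ) * 10 ≤ (aperyA n : ℝ) * x' :=
    mul_le_mul_of_nonneg_left hx (by linarith)
  linarith

theorem ne10 {x' : ℝ} (hx : 10 ≤ x') (n : ℕ) : (aperyA n : ℝ) * x' - aperyB n ≠ 0 := by
  have h1 := lin_lower10 hx n
  have h2 := one_le_real aperyFacts n
  intro h
  linarith

/-- **masses of the left nodes, uniform for `x' ≥ 10`** -/
theorem left_mass10 : ∃ K1 : ℝ, 0 < K1 ∧ ∀ x' : ℝ, 10 ≤ x' → x' ≤ 11 → ∀ i : ℕ,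
    |((aperyA (i + 1) / aperyA (i + 2) : ℚ) : ℝ) -
      ((aperyA (i + 1) : ℝ) * x' - aperyB (i + 1)) / ((aperyA (i + 2) : ℝ) * x' - aperyB (i + 2))|
      ≤ K1 * Real.exp (-7 * ((i : ℝ) + 3)) := by
  obtain ⟨d, hd, hdn⟩ := a_lower aperyFacts
  refine ⟨6 * Real.exp 7 / (7 * d ^ 2), by positivity, ?_⟩
  intro x' hx _ i
  have p2 := one_le_real aperyFacts (i + 2)
  have hu := ne10 hx (i + 2)
  have hlow := lin_lower10 hx (i + 2)
  have hcaso := caso_real aperyFacts (i + 1)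
  rw [show i + 1 + 1 = i + 2 from rfl] at hcaso
  push_cast at hcaso
  have e : ((aperyA (i + 1) / aperyA (i + 2) : ℚ) : ℝ) -
      ((aperyA (i + 1) : ℝ) * x' - aperyB (i + 1)) / ((aperyA (i + 2) : ℝ) * x' - aperyB (i + 2))
      = -(6 / ((i : ℝ) + 1 + 1) ^ 3) /
        ((aperyA (i + 2) : ℝ) * ((aperyA (i + 2) : ℝ) * x' - aperyB (i + 2))) := by
    rw [← hcaso]
    push_cast
    have : (aperyA (i + 2) : ℝ) ≠ 0 := by linarith
    rw [div_sub_div _ _ this hu]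
    congr 1
    ring
  rw [e, abs_div, abs_neg, abs_mul, abs_of_pos (by linarith : (0 : ℝ) < (aperyA (i + 2) : ℝ))]
  have hn : (0 : ℝ) ≤ i := Nat.cast_nonneg i
  have h6 : |6 / ((i : ℝ) + 1 + 1) ^ 3| ≤ 6 := by
    rw [abs_of_nonneg (by positivity), div_le_iff₀ (by positivity)]
    have : (1 : ℝ) ≤ ((i : ℝ) + 1 + 1) ^ 3 := one_le_pow₀ (by linarith)
    linarith
  have h8 := hdn (i + 2)
  have h7 : 7 * (aperyA (i + 2) : ℝ) ≤ |(aperyA (i + 2) : ℝ) * x' - aperyB (i + 2)| :=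
    le_trans hlow (le_abs_self _)
  have hE : 0 < Real.exp (7 / 2 * ((i + 2 : ℕ) : ℝ)) := Real.exp_pos _
  have h9 : 7 * (d * Real.exp (7 / 2 * ((i + 2 : ℕ) : ℝ))) *
      (d * Real.exp (7 / 2 * ((i + 2 : ℕ) : ℝ))) ≤
      (aperyA (i + 2) : ℝ) * |(aperyA (i + 2) : ℝ) * x' - aperyB (i + 2)| := by
    calc 7 * (d * Real.exp (7 / 2 * ((i + 2 : ℕ) : ℝ))) *
      (d * Real.exp (7 / 2 * ((i + 2 : ℕ) : ℝ)))
        ≤ (7 * (aperyA (i + 2) : ℝ)) * (aperyA (i + 2) : ℝ) :=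
          mul_le_mul (mul_le_mul_of_nonneg_left h8 (by norm_num)) h8 (by positivity) (by linarith)
      _ ≤ |(aperyA (i + 2) : ℝ) * x' - aperyB (i + 2)| * (aperyA (i + 2) : ℝ) :=
          mul_le_mul_of_nonneg_right h7 (by linarith)
      _ = _ := by ring
  have h10 : 7 * (d * Real.exp (7 / 2 * ((i + 2 : ℕ) : ℝ))) *
      (d * Real.exp (7 / 2 * ((i + 2 : ℕ) : ℝ))) = 7 * d ^ 2 * Real.exp (7 * ((i : ℝ) + 2)) := by
    have : Real.exp (7 / 2 * ((i + 2 : ℕ) : ℝ)) * Real.exp (7 / 2 * ((i + 2 : ℕ) : ℝ)) =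
        Real.exp (7 * ((i : ℝ) + 2)) := by
      rw [← Real.exp_add]
      congr 1
      push_cast
      ring
    rw [← this]
    ring
  rw [h10] at h9
  have hpos : 0 < 7 * d ^ 2 * Real.exp (7 * ((i : ℝ) + 2)) := by positivity
  calc |6 / ((i : ℝ) + 1 + 1) ^ 3| /
        ((aperyA (i + 2) : ℝ) * |(aperyA (i + 2) : ℝ) * x' - aperyB (i + 2)|)
      ≤ 6 / (7 * d ^ 2 * Real.exp (7 * ((i : ℝ) + 2))) :=
        div_le_div₀ (by norm_num) h6 hpos h9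
    _ = 6 * Real.exp 7 / (7 * d ^ 2) * Real.exp (-7 * ((i : ℝ) + 3)) := by
        rw [show -7 * ((i : ℝ) + 3) = -(7 * ((i : ℝ) + 2) + 7) by ring, Real.exp_neg,
          Real.exp_add]
        field_simp

end Pool.Agent.QS2
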