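import Pool.Agent.QS2.AperyRec

/-!
# QS2, measure: the right nodes for `y` near `zeta(3)`
-/

set_option autoImplicit false

open QS2 (aperyA aperyB lrem zeta3 aperyA_rec aperyA_zero aperyA_one aperyA_pos lrem_pos'
  casoratian)

namespace Pool.Agent.QS2

theorem aR_pos (n : ℕ) : (0 : ℝ) < ((aperyA n : ℚ) : ℝ) := by exact_mod_cast aperyA_pos n

theorem aR_le (n : ℕ) : ((aperyA n : ℚ) : ℝ) ≤ 34 ^ n := by
  induction n using Nat.strong_induction_on with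
  | _ n ih =>
    rcases n with _ | _ | n
    · simp [aperyA_zero]
    · rw [show 0 + 1 = 1 from rfl, aperyA_one]
      norm_num
    · have h := congrArg (fun q : ℚ => (q : ℝ)) (aperyA_rec n)
      simp only [_root_.QS2.ap] at h
      push_cast at h
      have h1 := ih (n + 1) (by omega)
      have p0 := aR_pos n
      have p1 := aR_pos (n + 1)
      have hn : (0 : ℝ) ≤ n := Nat.cast_nonneg n
      have h2 : ((n : ℝ) + 2) ^ 3 * ((aperyA (n + 2) : ℚ) : ℝ) ≤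
          ((n : ℝ) + 2) ^ 3 * (34 * ((aperyA (n + 1) : ℚ) : ℝ)) := by
        rw [h]
        have h3 : 0 ≤ ((n : ℝ) + 1) ^ 3 * ((aperyA n : ℚ) : ℝ) := by positivity
        have h4 : (34 * ((n : ℝ) + 1) ^ 3 + 51 * ((n : ℝ) + 1) ^ 2 + 27 * ((n : ℝ) + 1) + 5) ≤
            ((n : ℝ) + 2) ^ 3 * 34 := by nlinarith
        have h5 := mul_le_mul_of_nonneg_right h4 p1.le
        linarith
      have h3 : ((aperyA (n + 2) : ℚ) : ℝ) ≤ 34 * ((aperyA (n + 1) : ℚ) : ℝ) :=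
        le_of_mul_le_mul_left h2 (by positivity)
      calc ((aperyA (n + 2) : ℚ) : ℝ) ≤ 34 * ((aperyA (n + 1) : ℚ) : ℝ) := h3
        _ ≤ 34 * 34 ^ (n + 1) := by gcongr
        _ = 34 ^ (n + 2) := by ring

/-- Casoratian of `a` and `l` -/
theorem caso_l (n : ℕ) : ((aperyA (n + 1) : ℚ) : ℝ) * lrem n - ((aperyA n : ℚ) : ℝ) * lrem (n + 1) =
    6 / ((n : ℝ) + 1) ^ 3 := by
  have h := congrArg (fun q : ℚ => (q : ℝ)) (casoratian n)
  push_cast at h
  rw [← h]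
  unfold lrem
  ring

theorem l_lower (n : ℕ) : 6 / (((n : ℝ) + 1) ^ 3 * 34 ^ (n + 1)) ≤ lrem n := by
  have h := caso_l n
  have p0 := aR_pos n
  have p1 := aR_pos (n + 1)
  have l1 := lrem_pos' (n + 1)
  have l0 := lrem_pos' n
  have h1 : 6 / ((n : ℝ) + 1) ^ 3 ≤ 34 ^ (n + 1) * lrem n := by
    have h2 : 0 ≤ ((aperyA n : ℚ) : ℝ) * lrem (n + 1) := by positivity
    have h3 := mul_le_mul_of_nonneg_right (aR_le (n + 1)) l0.le
    linarith
  rw [div_le_iff₀ (by positivity)] at h1 ⊢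
  calc (6 : ℝ) ≤ _ := h1
    _ = _ := by ring

theorem l_ge_exp {A n : ℕ} (hA : 12 ≤ A) (hn : n ≤ A + 1) : Real.exp (-8 * A) ≤ lrem n := by
  refine le_trans ?_ (l_lower n)
  rw [le_div_iff₀ (by positivity)]
  have hA' : (12 : ℝ) ≤ A := by exact_mod_cast hA
  have h1 : ((n : ℝ) + 1) ^ 3 ≤ 8 ^ n := by
    have h2 : n + 1 ≤ 2 ^ n := Nat.lt_two_pow_self
    have h2' : (n : ℝ) + 1 ≤ 2 ^ n := by exact_mod_cast h2
    calc ((n : ℝ) + 1) ^ 3 ≤ (2 ^ n) ^ 3 := pow_le_pow_left₀ (by positivity) h2' 3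
      _ = 8 ^ n := by rw [← pow_mul, mul_comm, pow_mul]; norm_num
  have he : (272 : ℝ) ≤ Real.exp 6 := by
    have h3 := Real.exp_one_gt_d9
    have h4 : Real.exp 6 = Real.exp 1 ^ 6 := by
      rw [← Real.exp_nat_mul]; norm_num
    rw [h4]
    calc (272 : ℝ) ≤ 2.7 ^ 6 := by norm_num
      _ ≤ Real.exp 1 ^ 6 := pow_le_pow_left₀ (by norm_num) (by linarith) 6
  have h2 : ((n : ℝ) + 1) ^ 3 * 34 ^ (n + 1) ≤ 34 * Real.exp (6 * (A + 1)) := by
    calc ((n : ℝ) + 1) ^ 3 * 34 ^ (n + 1) ≤ 8 ^ n * 34 ^ (n + 1) := by gcongr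
      _ = 34 * 272 ^ n := by
        rw [pow_succ, show (272 : ℝ) = 8 * 34 by norm_num, mul_pow]; ring
      _ ≤ 34 * 272 ^ (A + 1) := by
        gcongr
        norm_num
      _ ≤ 34 * (Real.exp 6) ^ (A + 1) := by gcongr
      _ = 34 * Real.exp (6 * (A + 1)) := by
        rw [← Real.exp_nat_mul]; push_cast; ring_nf
  have h3 : (34 : ℝ) ≤ 6 * Real.exp 2 := by
    have h3 := Real.exp_one_gt_d9
    have h4 : Real.exp 2 = Real.exp 1 ^ 2 := by
      rw [← Real.exp_nat_mul]; norm_num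
    rw [h4]
    nlinarith
  calc Real.exp (-8 * A) * (((n : ℝ) + 1) ^ 3 * 34 ^ (n + 1))
      ≤ Real.exp (-8 * A) * (34 * Real.exp (6 * (A + 1))) :=
        mul_le_mul_of_nonneg_left h2 (Real.exp_pos _).le
    _ ≤ Real.exp (-8 * A) * (6 * Real.exp 2 * Real.exp (6 * (A + 1))) := by gcongr
    _ = 6 * Real.exp (-8 * A + 2 + 6 * (A + 1)) := by
        rw [Real.exp_add, Real.exp_add]; ring
    _ ≤ 6 * Real.exp 0 := by
        gcongr
        linarith
    _ = 6 := by rw [Real.exp_zero, mul_one]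

/-- the value at a right node -/
theorem ly_eq (y : ℝ) (n : ℕ) : ((aperyA n : ℚ) : ℝ) * y - ((aperyB n : ℚ) : ℝ) =
    lrem n + ((aperyA n : ℚ) : ℝ) * (y - zeta3) := by
  unfold lrem
  ring

theorem ly_near {A n : ℕ} (hA : 12 ≤ A) (hn : n ≤ A + 1) {y : ℝ}
    (hy : |y - zeta3| ≤ Real.exp (-60 * A)) :
    |((aperyA n : ℚ) : ℝ) * y - ((aperyB n : ℚ) : ℝ) - lrem n| ≤ lrem n / 2 := by
  have hA' : (12 : ℝ) ≤ A := by exact_mod_cast hA
  have hn' : (n : ℝ) ≤ A + 1 := by exact_mod_cast hn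
  rw [ly_eq, add_sub_cancel_left, abs_mul, abs_of_pos (aR_pos n)]
  have he : (34 : ℝ) ≤ Real.exp 4 := by
    have h3 := Real.exp_one_gt_d9
    have h4 : Real.exp 4 = Real.exp 1 ^ 4 := by
      rw [← Real.exp_nat_mul]; norm_num
    rw [h4]
    calc (34 : ℝ) ≤ 2.7 ^ 4 := by norm_num
      _ ≤ Real.exp 1 ^ 4 := pow_le_pow_left₀ (by norm_num) (by linarith) 4
  have h1 : ((aperyA n : ℚ) : ℝ) ≤ Real.exp (4 * (A + 1)) := by
    calc ((aperyA n : ℚ) : ℝ) ≤ 34 ^ n := aR_le n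
      _ ≤ (Real.exp 4) ^ n := by gcongr
      _ = Real.exp (4 * n) := by rw [← Real.exp_nat_mul]; ring_nf
      _ ≤ _ := Real.exp_le_exp.mpr (by linarith)
  have h2 := l_ge_exp hA hn
  have h3 : Real.exp (-8 * A - 1) ≤ lrem n / 2 := by
    rw [Real.exp_sub]
    have h4 : (2 : ℝ) ≤ Real.exp 1 := by
      have := Real.exp_one_gt_d9
      linarith
    have h5 := lrem_pos' n
    rw [div_le_div_iff₀ (Real.exp_pos _) (by norm_num)]
    have h6 : Real.exp (-8 * A) * 2 ≤ lrem n * Real.exp 1 := mul_le_mul h2 h4 (by norm_num) h5.le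
    exact h6
  refine le_trans ?_ h3
  calc ((aperyA n : ℚ) : ℝ) * |y - zeta3| ≤ Real.exp (4 * (A + 1)) * Real.exp (-60 * A) :=
        mul_le_mul h1 hy (abs_nonneg _) (Real.exp_pos _).le
    _ = Real.exp (4 * (A + 1) + -60 * A) := by rw [Real.exp_add]
    _ ≤ _ := Real.exp_le_exp.mpr (by linarith)

theorem ly_bounds {A n : ℕ} (hA : 12 ≤ A) (hn : n ≤ A + 1) {y : ℝ}
    (hy : |y - zeta3| ≤ Real.exp (-60 * A)) :
    lrem n / 2 ≤ ((aperyA n : ℚ) : ℝ) * y - ((aperyB n : ℚ) : ℝ) ∧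
    ((aperyA n : ℚ) : ℝ) * y - ((aperyB n : ℚ) : ℝ) ≤ 2 * lrem n := by
  have h := abs_le.mp (ly_near hA hn hy)
  have h5 := lrem_pos' n
  constructor <;> linarith [h.1, h.2]

/-- **Mass of a right node.** -/
theorem ratio_near {A n : ℕ} (hA : 12 ≤ A) (hn : n ≤ A) {y : ℝ}
    (hy : |y - zeta3| ≤ Real.exp (-60 * A)) :
    |(((aperyA (n + 1) : ℚ) : ℝ) * y - ((aperyB (n + 1) : ℚ) : ℝ)) /
        (((aperyA n : ℚ) : ℝ) * y - ((aperyB n : ℚ) : ℝ)) - lrem (n + 1) / lrem n| ≤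
      Real.exp (-21 * A) := by
  have hA' : (12 : ℝ) ≤ A := by exact_mod_cast hA
  have l0 := lrem_pos' n
  obtain ⟨b1, b2⟩ := ly_bounds hA (by omega : n ≤ A + 1) hy
  have b3 : 0 < ((aperyA n : ℚ) : ℝ) * y - ((aperyB n : ℚ) : ℝ) := by linarith
  have hl := l_ge_exp hA (by omega : n ≤ A + 1)
  have h1 : (((aperyA (n + 1) : ℚ) : ℝ) * y - ((aperyB (n + 1) : ℚ) : ℝ)) /
        (((aperyA n : ℚ) : ℝ) * y - ((aperyB n : ℚ) : ℝ)) - lrem (n + 1) / lrem n =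
      (y - zeta3) * (6 / ((n : ℝ) + 1) ^ 3) /
        ((((aperyA n : ℚ) : ℝ) * y - ((aperyB n : ℚ) : ℝ)) * lrem n) := by
    rw [div_sub_div _ _ b3.ne' l0.ne', ← caso_l n]
    congr 1
    rw [ly_eq, ly_eq]
    ring
  rw [h1, abs_div, abs_mul, abs_of_pos (mul_pos b3 l0), abs_of_pos (by positivity :
    (0 : ℝ) < 6 / ((n : ℝ) + 1) ^ 3), div_le_iff₀ (mul_pos b3 l0)]
  have h2 : 6 / ((n : ℝ) + 1) ^ 3 ≤ 6 := by
    rw [div_le_iff₀ (by positivity)]
    have : (1 : ℝ) ≤ ((n : ℝ) + 1) ^ 3 := one_le_pow₀ (by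
      have : (0 : ℝ) ≤ n := Nat.cast_nonneg n
      linarith)
    linarith
  have h3 : Real.exp (-8 * A) * Real.exp (-8 * A) ≤
      2 * ((((aperyA n : ℚ) : ℝ) * y - ((aperyB n : ℚ) : ℝ)) * lrem n) := by
    calc Real.exp (-8 * A) * Real.exp (-8 * A) ≤ lrem n * lrem n :=
          mul_le_mul hl hl (Real.exp_pos _).le l0.le
      _ = 2 * ((lrem n / 2) * lrem n) := by ring
      _ ≤ _ := by
          have := mul_le_mul_of_nonneg_right b1 l0.le
          linarith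
  have h4 : (12 : ℝ) ≤ Real.exp A := by
    have := Real.add_one_le_exp (A : ℝ)
    linarith
  calc |y - zeta3| * (6 / ((n : ℝ) + 1) ^ 3) ≤ Real.exp (-60 * A) * 6 :=
        mul_le_mul hy h2 (by positivity) (Real.exp_pos _).le
    _ ≤ Real.exp (-38 * A) * (1 / 2) := by
        have h5 : Real.exp (-60 * A) * 12 ≤ Real.exp (-60 * A) * Real.exp A :=
          mul_le_mul_of_nonneg_left h4 (Real.exp_pos _).le
        rw [← Real.exp_add] at h5
        have h6 : Real.exp (-60 * A + A) ≤ Real.exp (-38 * A) :=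
          Real.exp_le_exp.mpr (by linarith)
        linarith
    _ ≤ Real.exp (-21 * A) * (Real.exp (-8 * A) * Real.exp (-8 * A) / 2) := by
        have h7 : Real.exp (-38 * A) ≤ Real.exp (-21 * A) * (Real.exp (-8 * A) * Real.exp (-8 * A)) := by
          rw [← Real.exp_add, ← Real.exp_add]
          exact Real.exp_le_exp.mpr (by linarith)
        linarith
    _ ≤ _ := by
        refine mul_le_mul_of_nonneg_left ?_ (Real.exp_pos _).le
        linarith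

end Pool.Agent.QS2
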