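import Pool.Agent.QS2.M.LamGen
import Pool.Agent.QS2.M.LamPert
import Pool.Agent.QS2.M.RightMass
import Pool.Agent.QS2.B.ProdU
import Pool.Agent.QS2.M.LeftMass10

/-!
# QS2, measure: the archimedean bound, uniform for `x' ∈ [10, 11]` and `y` near `zeta(3)`
-/

set_option autoImplicit false

namespace Pool.Agent.QS2

open Finset Filter Topology Polynomial
open _root_.QS2 (Nd nodeZ IsFormal aperyA aperyB lrem zeta3 uval uval1 DeltaR lrem_pos')
open Pool.QS2E (Gk lamE nu energy_main kap CE)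

theorem zeta3_mem : 1 ≤ zeta3 ∧ zeta3 ≤ 2 := by
  have h1 := lrem_pos' 1
  unfold lrem at h1
  rw [_root_.QS2.aperyA_one, _root_.QS2.aperyB_one] at h1
  push_cast at h1
  exact ⟨by linarith, _root_.QS2.zeta3_le_two⟩

/-- the product of the node values -/
theorem prod_u_near {A : ℕ} (hA : 12 ≤ A) {y x' : ℝ} (hy : |y - zeta3| ≤ Real.exp (-60 * A))
    (h1 : 10 ≤ x') (h2 : x' ≤ 11) : ∏ f, |uval y x' A f| ≤ 552 ^ A := by
  have h3 : ∏ f, |uval y x' A f| ≤ 2 ^ A * ∏ f, |uval zeta3 x' A f| := by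
    have e3 : ∀ i : Fin A, uval y x' A (Sum.inr i) = uval zeta3 x' A (Sum.inr i) := fun _ => rfl
    have h5 : ∏ i : Fin A, |uval y x' A (Sum.inl i)| ≤
        2 ^ A * ∏ i : Fin A, |uval zeta3 x' A (Sum.inl i)| := by
      have e : (2 : ℝ) ^ A = ∏ _i : Fin A, (2 : ℝ) := by simp
      rw [e, ← prod_mul_distrib]
      refine prod_le_prod (fun _ _ => abs_nonneg _) (fun i _ => ?_)
      simp only [uval]
      have hi : (i : ℕ) + 1 ≤ A + 1 := by have := i.2; omega
      obtain ⟨b1, b2⟩ := ly_bounds hA hi hy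
      have l0 := lrem_pos' ((i : ℕ) + 1)
      have e2 : ((aperyA ((i : ℕ) + 1) : ℚ) : ℝ) * zeta3 - ((aperyB ((i : ℕ) + 1) : ℚ) : ℝ) =
          lrem ((i : ℕ) + 1) := rfl
      rw [e2, abs_of_pos l0, abs_of_pos (by linarith)]
      exact b2
    rw [Fintype.prod_sum_type, Fintype.prod_sum_type, ← mul_assoc]
    simp only [e3]
    have h0 : (0 : ℝ) ≤ ∏ i : Fin A, |uval zeta3 x' A (Sum.inr i)| :=
      prod_nonneg (fun _ _ => abs_nonneg _)
    exact mul_le_mul_of_nonneg_right h5 h0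
  have h4 := _root_.QS2.prod_u_unif x' A
  obtain ⟨z1, z2⟩ := zeta3_mem
  have h5 : |x' - zeta3| ≤ 11 := by rw [abs_le]; constructor <;> linarith
  calc _ ≤ 2 ^ A * ∏ f, |uval zeta3 x' A f| := h3
    _ ≤ 2 ^ A * (12 * (|x' - zeta3| + 12)) ^ A := by gcongr
    _ ≤ 2 ^ A * (12 * (11 + 12)) ^ A := by gcongr
    _ = 552 ^ A := by rw [← mul_pow]; norm_num

/-- **The archimedean bound**, uniform for `y` near `zeta(3)`, `x' ∈ [10, 11]` -/
theorem DeltaR_bound_unif
    (hne : ∀ x' : ℝ, 10 ≤ x' → x' ≤ 11 → ∀ n, (aperyA n : ℝ) * x' - aperyB n ≠ 0)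
    (hmass : ∃ K1 : ℝ, 0 < K1 ∧ ∀ x' : ℝ, 10 ≤ x' → x' ≤ 11 → ∀ i : ℕ,
      |((aperyA (i + 1) / aperyA (i + 2) : ℚ) : ℝ) -
        ((aperyA (i + 1) : ℝ) * x' - aperyB (i + 1)) / ((aperyA (i + 2) : ℝ) * x' - aperyB (i + 2))|
        ≤ K1 * Real.exp (-7 * ((i : ℝ) + 3)))
    (v : ℕ → ℝ) (hvC : IsFormal (fun n => (v n : ℂ))) (hv0 : |v 0| ≤ 1) :
    ∃ C : ℝ, ∀ A rho : ℕ, 12 ≤ A → 2 * rho ≤ A → A ≤ 2 * rho + 2 →
      ∀ x' : ℝ, 10 ≤ x' → x' ≤ 11 → ∀ y : ℝ, |y - zeta3| ≤ Real.exp (-60 * A) →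
      |DeltaR y x' v A rho| ≤
        Real.exp (-(17 / 4) * (A : ℝ) ^ 2 + C * A * Real.log ((A : ℝ) + 1)) := by
  obtain ⟨K1, hK1, hmass⟩ := hmass
  obtain ⟨K0, hK0, hres⟩ := res_rr
  set c2 : ℝ := 300 * Real.exp 2 * K0 + 64 * K1 + 1 with hc2
  have hc2pos : 0 < c2 := by positivity
  set C2 : ℝ := 10 + 2 * |Real.log c2| with hC2
  refine ⟨Real.log 552 + C2 + CE + 350, ?_⟩
  intro A rho hA h1 h2 x' hx1 hx2 y hy
  have hA' : (12 : ℝ) ≤ A := by exact_mod_cast hA
  obtain ⟨n, e, z, un, hn, he, hnA, hNe, hz, hsep, hF, hfar, hEn⟩ := energy_main A rho hA h1 h2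
  set g : Fin (2 * A) ≃ Nd A := Fintype.equivOfCardEq (by simp; ring) with hg
  have hune : ∀ f : Nd A, uval y x' A f ≠ 0 := by
    rintro (i | i)
    · have hi : (i : ℕ) + 1 ≤ A + 1 := by have := i.2; omega
      have b := (ly_bounds hA hi hy).1
      have l0 := lrem_pos' ((i : ℕ) + 1)
      simp only [uval]
      exact (by linarith : (0 : ℝ) < ((aperyA ((i : ℕ) + 1) : ℚ) : ℝ) * y -
        ((aperyB ((i : ℕ) + 1) : ℚ) : ℝ)).ne'
    · exact hne x' hx1 hx2 ((i : ℕ) + 2)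
  set ρ : Nd A → ℝ := fun f => uval1 y x' A f / uval y x' A f with hρdef
  have hρ : ∀ f, uval1 y x' A f = ρ f * uval y x' A f := fun f =>
    (div_mul_cancel₀ _ (hune f)).symm
  rw [abs_DeltaR y x' v (by omega) ρ hρ g]
  set D : ℝ := (Matrix.of fun i j : Fin (A + rho) =>
          Lam (fun s => ((nodeZ A (g s) : ℤ) : ℝ)) (fun s => ρ (g s)) v ((i : ℕ) + j)).det with hD
  set E : ℝ := ((A + rho : ℕ) : ℝ) * lamE A n + 4 * ∑ k ∈ Ioc 0 (2 * A), max (Gk A n e k - lamE A n) 0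
          - 2 * Real.log (VN (fun i => (z i : ℂ))) with hE
  obtain ⟨hL, hfac, h7⟩ := log_facts A rho hA h1
  refine fin_real A rho hA h1 h2 (Real.log 552) C2 (Real.log_nonneg (by norm_num))
    (∏ a, uval y x' A a) D E g ?_ (hEn (2 * A)) ?_
  · rw [abs_prod]
    refine (prod_u_near hA hy hx1 hx2).trans (le_of_eq ?_)
    rw [mul_comm, ← Real.log_pow, Real.exp_log (by positivity)]
  · -- complex version
    have hDc : (D : ℂ) = (Matrix.of fun i j : Fin (A + rho) =>
        Lam (fun s => nd A (g s)) (fun s => ((ρ (g s) : ℝ) : ℂ)) (fun a => (v a : ℂ))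
          ((i : ℕ) + j)).det := by
      have h3 := RingHom.map_det Complex.ofRealHom (Matrix.of fun i j : Fin (A + rho) =>
          Lam (fun s => ((nodeZ A (g s) : ℤ) : ℝ)) (fun s => ρ (g s)) v ((i : ℕ) + j))
      change Complex.ofRealHom D = _
      rw [hD, h3]
      congr 1
      ext i j
      rw [RingHom.mapMatrix_apply, Matrix.map_apply, Matrix.of_apply, Matrix.of_apply, map_Lam]
      congr 1
    have hright : ∀ᶠ M in atTop, ∀ l : Fin A,
        ‖((ρ (Sum.inl l) : ℝ) : ℂ) - rM M (nd A (Sum.inl l))‖ ≤ Real.exp (-20 * A) := by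
      rw [eventually_all]
      intro l
      have h3 := right_lim ((l : ℕ) + 1)
      have h4 : Tendsto (fun M => rM M (nd A (Sum.inl l))) atTop
          (𝓝 ((lrem ((l : ℕ) + 1 + 1) / lrem ((l : ℕ) + 1) : ℝ) : ℂ)) := by
        refine h3.congr (fun M => ?_)
        unfold rM
        rw [nd_inl]
      have h5 : ‖((ρ (Sum.inl l) : ℝ) : ℂ) -
          ((lrem ((l : ℕ) + 1 + 1) / lrem ((l : ℕ) + 1) : ℝ) : ℂ)‖ ≤ Real.exp (-21 * A) := by
        rw [← Complex.ofReal_sub, Complex.norm_real, Real.norm_eq_abs]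
        have hl : (l : ℕ) + 1 ≤ A := l.2
        exact ratio_near hA hl hy
      have h6 : ∀ᶠ M in atTop, ‖((lrem ((l : ℕ) + 1 + 1) / lrem ((l : ℕ) + 1) : ℝ) : ℂ) -
          rM M (nd A (Sum.inl l))‖ < Real.exp (-21 * A) := by
        have h7 := (tendsto_const_nhds (x := ((lrem ((l : ℕ) + 1 + 1) /
          lrem ((l : ℕ) + 1) : ℝ) : ℂ))).sub h4
        rw [sub_self] at h7
        exact (tendsto_zero_iff_norm_tendsto_zero.mp h7).eventually
          (gt_mem_nhds (Real.exp_pos _))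
      filter_upwards [h6] with M hM
      have h8 : ‖((ρ (Sum.inl l) : ℝ) : ℂ) - rM M (nd A (Sum.inl l))‖ ≤
          Real.exp (-21 * A) + Real.exp (-21 * A) := by
        have h9 := norm_add_le (((ρ (Sum.inl l) : ℝ) : ℂ) -
          ((lrem ((l : ℕ) + 1 + 1) / lrem ((l : ℕ) + 1) : ℝ) : ℂ))
          (((lrem ((l : ℕ) + 1 + 1) / lrem ((l : ℕ) + 1) : ℝ) : ℂ) - rM M (nd A (Sum.inl l)))
        rw [sub_add_sub_cancel] at h9
        linarith
      refine h8.trans ?_
      have h10 : Real.exp (-20 * A) = Real.exp (-21 * A) * Real.exp A := by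
        rw [← Real.exp_add]; ring_nf
      have h11 : (2 : ℝ) ≤ Real.exp A := by
        have := Real.add_one_le_exp (A : ℝ)
        linarith
      rw [h10]
      have := mul_le_mul_of_nonneg_left h11 (Real.exp_pos (-21 * (A : ℝ))).le
      linarith
    have hbound := lam_det_bound_gen hK0 hres hK1 (by omega : 2 ≤ A) g (fun f => ((ρ f : ℝ) : ℂ))
      (fun a => (v a : ℂ)) hvC (by simpa using hv0)
      (by
        intro i
        filter_upwards [eventually_ge_atTop ((i : ℕ) + 3)] with M hM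
        have h3 := left_val ((i : ℕ) + 1) M (by omega)
        have h4 : rM M (nd A (Sum.inr i)) =
            ((aperyA ((i : ℕ) + 1) / aperyA ((i : ℕ) + 2) : ℚ) : ℂ) := by
          unfold rM
          rw [nd_inr, ← h3]
          congr 2
          · congr 1; push_cast; ring
          · congr 1; push_cast; ring
          · push_cast; ring
        rw [h4]
        have h5 : ((ρ (Sum.inr i) : ℝ) : ℂ) -
            ((aperyA ((i : ℕ) + 1) / aperyA ((i : ℕ) + 2) : ℚ) : ℂ) =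
            ((ρ (Sum.inr i) - ((aperyA ((i : ℕ) + 1) / aperyA ((i : ℕ) + 2) : ℚ) : ℝ) : ℝ) : ℂ) := by
          push_cast
          ring
        rw [h5, Complex.norm_real, Real.norm_eq_abs, abs_sub_comm]
        exact hmass x' hx1 hx2 i)
      n e z un hz hsep hF hfar
      (by
        filter_upwards [hright] with M hM
        exact fun i j => right_sum hA hn hnA he (by omega) (by omega) z un hz hF g _ M hM i j)
    rw [← hDc, Complex.norm_real, Real.norm_eq_abs] at hbound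
    have hVN : 0 < VN (fun i => (z i : ℂ)) := by
      refine VN_pos _ (fun i j h => ?_)
      by_contra hne'
      have h3 := hsep i j hne'
      have h4 : z i = z j := by
        have : (z i : ℂ) = (z j : ℂ) := h
        exact_mod_cast this
      rw [h4, sub_self, abs_zero] at h3
      norm_num at h3
    have h3 : |D| ≤ (((A + rho).factorial : ℕ) : ℝ) * (7 * A + 1) ^ (A + rho) *
        Real.exp (((A + rho : ℕ) : ℝ) * (lamE A n + Real.log c2) +
          4 * ∑ k ∈ Ioc 0 (2 * A), max (Gk A n e k - lamE A n) 0) /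
        VN (fun i => (z i : ℂ)) ^ 2 := by
      rw [le_div_iff₀ (by positivity)]
      exact hbound
    refine h3.trans ?_
    have e1 : (((A + rho).factorial : ℕ) : ℝ) =
        Real.exp (Real.log (((A + rho).factorial : ℕ) : ℝ)) :=
      (Real.exp_log (by exact_mod_cast Nat.factorial_pos _)).symm
    have e2 : (7 * (A : ℝ) + 1) ^ (A + rho) =
        Real.exp (((A + rho : ℕ) : ℝ) * Real.log (7 * A + 1)) := by
      rw [← Real.log_pow, Real.exp_log (by positivity)]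
    have e3 : VN (fun i => (z i : ℂ)) ^ 2 = Real.exp (2 * Real.log (VN (fun i => (z i : ℂ)))) := by
      rw [show (2 : ℝ) = ((2 : ℕ) : ℝ) by norm_num, ← Real.log_pow, Real.exp_log (by positivity)]
    rw [e1, e2, e3, ← Real.exp_add, ← Real.exp_add, ← Real.exp_sub]
    apply Real.exp_le_exp.mpr
    have hN : (((A + rho : ℕ)) : ℝ) ≤ 2 * A := by
      have h1' : 2 * (rho : ℝ) ≤ A := by exact_mod_cast h1
      push_cast; linarith
    have h8 : ((A + rho : ℕ) : ℝ) * Real.log c2 ≤ 2 * |Real.log c2| * A * Real.log ((A : ℝ) + 1) := by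
      have a1 : Real.log c2 ≤ |Real.log c2| := le_abs_self _
      have a0 := abs_nonneg (Real.log c2)
      calc ((A + rho : ℕ) : ℝ) * Real.log c2 ≤ ((A + rho : ℕ) : ℝ) * |Real.log c2| :=
            mul_le_mul_of_nonneg_left a1 (Nat.cast_nonneg _)
        _ ≤ (2 * A) * |Real.log c2| := mul_le_mul_of_nonneg_right hN a0
        _ = (2 * |Real.log c2| * A) * 1 := by ring
        _ ≤ (2 * |Real.log c2| * A) * Real.log ((A : ℝ) + 1) :=
            mul_le_mul_of_nonneg_left hL (by positivity)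
    rw [hE, hC2]
    linarith

/-- **The archimedean bound** on `|y - zeta(3)| ≤ exp (-60 A)`, `x' ∈ [10, 11]`. -/
theorem archU10 (v : ℕ → ℝ) (hvC : IsFormal (fun n => (v n : ℂ))) (hv0 : |v 0| ≤ 1) :
    ∃ C : ℝ, ∀ A rho : ℕ, 12 ≤ A → 2 * rho ≤ A → A ≤ 2 * rho + 2 →
      ∀ x' : ℝ, 10 ≤ x' → x' ≤ 11 → ∀ y : ℝ, |y - zeta3| ≤ Real.exp (-60 * A) →
      |DeltaR y x' v A rho| ≤
        Real.exp (-(17 / 4) * (A : ℝ) ^ 2 + C * A * Real.log ((A : ℝ) + 1)) :=
  DeltaR_bound_unif (fun _ h1 _ n => ne10 h1 n) left_mass10 v hvC hv0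

end Pool.Agent.QS2
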