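import Pool.Agent.QS2.M.Interp

/-!
# QS2, measure: the archimedean bound, uniform in `x'`
-/

set_option autoImplicit false

namespace QS2.M

open Finset Polynomial

/-- from `x' ∈ [10, 11]` to all `x'` -/
theorem archUnif_of {v : ℕ → ℝ} {z C tau : ℝ} {A0 : ℕ}
    (h : ∀ A rho : ℕ, A0 ≤ A → 2 * rho ≤ A → A ≤ 2 * rho + 2 → ∀ y x' : ℝ,
      |y - z| ≤ Real.exp (-tau * A) → x' ∈ Set.Icc (10 : ℝ) 11 →
      |DeltaR y x' v A rho| ≤ Real.exp (-(17 / 4) * (A : ℝ) ^ 2 + C * A * Real.log (A + 1))) :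
    ∀ A rho : ℕ, A0 ≤ A → 2 * rho ≤ A → A ≤ 2 * rho + 2 → ∀ y x' : ℝ,
      |y - z| ≤ Real.exp (-tau * A) →
      |DeltaR y x' v A rho| ≤ Real.exp (-(17 / 4) * (A : ℝ) ^ 2 + C * A * Real.log (A + 1))
        * (60 * (1 + |x'|)) ^ (4 * A) := by
  intro A rho hA0 h1 h2 y x' hy
  refine (DeltaR_interp y v A rho _ (fun x hx => h A rho hA0 h1 h2 y x hy hx) x').trans ?_
  apply mul_le_mul_of_nonneg_left _ (Real.exp_pos _).le
  apply pow_le_pow_right₀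
  · have := abs_nonneg x'
    linarith
  · omega

end QS2.M
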