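import Pool.Agent.QS2.Denom

/-!
# QS2: the norm inequality with explicit dependence on the denominator of `x`
-/

set_option autoImplicit false

namespace QS2

open Finset Polynomial

/-- additional exponent at `p` for the denominator `D` -/
def extraD (D c p : ℕ) : ℕ := if p ∣ D then (4 * D.factorization p + 4) * c else 0

theorem pow_factorization_mul_mem (p : ℕ) [hp : Fact p.Prime] (D : ℕ) (hD : 0 < D) (z : K)
    (hz : (D : K) * z ∈ Op p) : (p : K) ^ D.factorization p * z ∈ Op p := by
  have h4 : p ^ D.factorization p * (D / p ^ D.factorization p) = D :=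
    Nat.ordProj_mul_ordCompl_eq_self D p
  have h5 : ¬ p ∣ D / p ^ D.factorization p := Nat.not_dvd_ordCompl hp.out hD.ne'
  apply mem_Op_of_coprime_mul p _ h5
  have h8 : ((D / p ^ D.factorization p : ℕ) : K) * ((p : K) ^ D.factorization p * z) =
      (D : K) * z := by
    conv_rhs => rw [← h4]
    push_cast
    ring
  rw [h8]
  exact hz

theorem int_mem_Op (p : ℕ) [Fact p.Prime] (m1 m2 : ℤ) : (⟨m1, m2⟩ : K) ∈ Op p := by
  rw [mem_Op]
  exact ⟨padicNorm.of_int m1, padicNorm.of_int m2⟩

theorem star_int_mul (x : K) (D : ℕ) (m1 m2 : ℤ) (hx : (D : K) * x = ⟨m1, m2⟩) :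
    (D : K) * star x = ⟨m1, ((-m2 : ℤ) : ℚ)⟩ := by
  have h1 : star ((D : K) * x) = (D : K) * star x := by
    rw [star_mul', star_natCast]
  rw [← h1, hx]
  apply QuadraticAlgebra.ext
  · simp
  · simp

/-- integrality with explicit denominators -/
theorem integrality_eff (x : K) (D : ℕ) (hD : 0 < D) (m1 m2 : ℤ)
    (hx : (D : K) * x = ⟨m1, m2⟩) (v : ℕ → K) (A rho : ℕ) (e : ℕ → ℕ)
    (he : ∀ (p : ℕ) [Fact p.Prime] (y y' : K), y ∈ Op p → y' ∈ Op p →
      (p : K) ^ e p * DeltaR y y' v A rho ∈ Op p) (p : ℕ) [hp : Fact p.Prime] :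
    (p : K) ^ (e p + extraD D (A + rho) p) * Delta x v A rho ∈ Op p := by
  have h1 : (D : K) * x ∈ Op p := by
    rw [hx]
    exact int_mem_Op p m1 m2
  have h2 : (D : K) * star x ∈ Op p := by
    rw [star_int_mul x D m1 m2 hx]
    exact int_mem_Op p m1 (-m2)
  unfold extraD
  by_cases hpD : p ∣ D
  · rw [if_pos hpD]
    exact denom_pow p v A rho (e p) (D.factorization p) x (star x)
      (fun i j => he p (i : K) (j : K) (natCast_mem_Op p i) (natCast_mem_Op p j))
      (pow_factorization_mul_mem p D hD x h1) (pow_factorization_mul_mem p D hD _ h2)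
  · rw [if_neg hpD, add_zero]
    exact he p x (star x) (mem_Op_of_coprime_mul p D hpD x h1)
      (mem_Op_of_coprime_mul p D hpD _ h2)

/-- the cost of the denominators -/
theorem extraD_sum (D c N : ℕ) (hD : 0 < D) (hN : D ≤ N) :
    ∑ p ∈ (Ioc 0 N).filter Nat.Prime, (extraD D c p : ℝ) * Real.log p ≤
      8 * c * Real.log D := by
  have h1 : ∀ p ∈ (Ioc 0 N).filter Nat.Prime, (extraD D c p : ℝ) * Real.log p ≤
      8 * c * ((D.factorization p : ℝ) * Real.log p) := by
    intro p hp
    have hpp := (mem_filter.mp hp).2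
    have hlog : 0 ≤ Real.log p := Real.log_nonneg (by exact_mod_cast hpp.one_lt.le)
    unfold extraD
    by_cases hpD : p ∣ D
    · rw [if_pos hpD]
      have h2 : 1 ≤ D.factorization p :=
        (hpp.dvd_iff_one_le_factorization hD.ne').mp hpD
      have h3 : ((4 * D.factorization p + 4) * c : ℕ) ≤ 8 * c * D.factorization p := by
        nlinarith
      have h4 : (((4 * D.factorization p + 4) * c : ℕ) : ℝ) ≤
          8 * c * (D.factorization p : ℝ) := by
        exact_mod_cast h3
      calc (((4 * D.factorization p + 4) * c : ℕ) : ℝ) * Real.log p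
          ≤ (8 * c * (D.factorization p : ℝ)) * Real.log p :=
            mul_le_mul_of_nonneg_right h4 hlog
        _ = 8 * c * ((D.factorization p : ℝ) * Real.log p) := by ring
    · rw [if_neg hpD]
      simp only [Nat.cast_zero, zero_mul]
      positivity
  refine (sum_le_sum h1).trans (le_of_eq ?_)
  rw [← mul_sum]
  congr 1
  rw [Real.log_nat_eq_sum_factorization, Finsupp.sum, Nat.support_factorization]
  symm
  apply sum_subset
  · intro p hp
    rw [mem_filter, mem_Ioc]
    have h5 := Nat.prime_of_mem_primeFactors hp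
    exact ⟨⟨h5.pos, (Nat.le_of_dvd hD (Nat.dvd_of_mem_primeFactors hp)).trans hN⟩, h5⟩
  · intro p _ hp
    have h6 : D.factorization p = 0 := by
      rw [← Nat.support_factorization] at hp
      exact Finsupp.notMem_support_iff.mp hp
    rw [h6]
    simp

/-- **the norm inequality, explicit in the denominator `D` of `x`** -/
theorem norm_final_eff (x : K) (D : ℕ) (hD : 0 < D) (m1 m2 : ℤ)
    (hx : (D : K) * x = ⟨m1, m2⟩) (v : ℕ → K) (A rho N : ℕ) (e : ℕ → ℕ)
    (h0 : ∀ p, p.Prime → N < p → e p = 0)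
    (he : ∀ (p : ℕ) [Fact p.Prime] (y y' : K), y ∈ Op p → y' ∈ Op p →
      (p : K) ^ e p * DeltaR y y' v A rho ∈ Op p)
    (hne : Delta x v A rho ≠ 0) :
    0 ≤ 2 * (∑ p ∈ (Ioc 0 N).filter Nat.Prime, (e p : ℝ) * Real.log p)
      + 16 * (A + rho : ℕ) * Real.log D
      + Real.log |emb (Delta x v A rho)| + Real.log |emb (star (Delta x v A rho))| := by
  have h1 := glue_norm (Delta x v A rho) hne (fun p => e p + extraD D (A + rho) p) (max N D) (by
      intro p hp hlt
      have h2 : N < p := lt_of_le_of_lt (le_max_left _ _) hlt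
      have h3 : ¬ p ∣ D := by
        intro h
        have h4 := Nat.le_of_dvd hD h
        have h5 := lt_of_le_of_lt (le_max_right N D) hlt
        omega
      unfold extraD
      rw [h0 p hp h2, if_neg h3]) (fun p _ => integrality_eff x D hD m1 m2 hx v A rho e he p)
  have h2 : ∑ p ∈ (Ioc 0 (max N D)).filter Nat.Prime,
      (((e p + extraD D (A + rho) p) : ℕ) : ℝ) * Real.log p =
      ∑ p ∈ (Ioc 0 N).filter Nat.Prime, (e p : ℝ) * Real.log p +
      ∑ p ∈ (Ioc 0 (max N D)).filter Nat.Prime,
        (extraD D (A + rho) p : ℝ) * Real.log p := by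
    have h3 : ∑ p ∈ (Ioc 0 N).filter Nat.Prime, (e p : ℝ) * Real.log p =
        ∑ p ∈ (Ioc 0 (max N D)).filter Nat.Prime, (e p : ℝ) * Real.log p := by
      apply sum_subset
      · intro p hp
        rw [mem_filter, mem_Ioc] at hp ⊢
        exact ⟨⟨hp.1.1, hp.1.2.trans (le_max_left _ _)⟩, hp.2⟩
      · intro p hp hp'
        rw [mem_filter, mem_Ioc] at hp
        have h4 : N < p := by
          by_contra h5
          exact hp' (mem_filter.mpr ⟨mem_Ioc.mpr ⟨hp.1.1, by omega⟩, hp.2⟩)
        rw [h0 p hp.2 h4]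
        simp
    rw [h3, ← sum_add_distrib]
    apply sum_congr rfl
    intro p _
    push_cast
    ring
  rw [h2] at h1
  have h3 := extraD_sum D (A + rho) (max N D) hD (le_max_right _ _)
  have h4 : 2 * (8 * ((A + rho : ℕ) : ℝ) * Real.log D) = 16 * ((A + rho : ℕ) : ℝ) * Real.log D := by
    ring
  linarith

end QS2
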