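import Pool.Agent.QS2.NonVanD
import Pool.Agent.QS2.ClsShift

/-!
# Effective non-vanishing

For every `M` some `rho` with `M ≤ rho ≤ 6 * (M + 1)` and `A` in `{2 rho, 2 rho + 1, 2 rho + 2}`
give a nonzero determinant.
-/

set_option autoImplicit false

namespace QS2.NV

open Polynomial HahnSeries QS2.Cls

variable {F : Type*} [Field F]

/-- if `p / q` approximates the formal solution well then it solves the Riccati equation -/
theorem ric_of_order {V : PowerSeries F} (hV : Ric V) {p q : F[X]} {m : ℕ} (hq : q.degree < m)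
    (h : ((m + 3 : ℤ) : WithTop ℤ) ≤ (phi F q * ser V - phi F p).orderTop) : RicPoly p q := by
  have e1 : ∀ f : F[X], taylor (-1) f = f.comp (X - 1) := by
    intro f
    rw [taylor_apply, map_neg, C_1, ← sub_eq_add_neg]
  have hE1 : shL (phi F q * ser V - phi F p) =
      phi F (taylor (-1) q) * ser (sh V) - phi F (taylor (-1) p) := by
    rw [map_sub, map_mul, shL_phi, shL_phi, shL_ser, e1, e1]
  have h1 := shL_order h
  rw [hE1] at h1
  have hq1 : (taylor (-1) q).degree < m := by
    rwa [degree_taylor]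
  unfold Ric at hV
  have h2 := congrArg (ofPowerSeries ℤ F) hV
  simp only [map_add, map_sub, map_mul, map_pow, map_one, map_zero, ofPowerSeries_C,
    ofPowerSeries_X] at h2
  unfold RicPoly
  set p1 := taylor (-1) p with hp1
  set q1 := taylor (-1) q with hq1'
  set R : F[X] := (X + 1) ^ 3 * p * p1 - aq F * p1 * q + X ^ 3 * q * q1 with hR
  have o3 : ((-3 : ℤ) : WithTop ℤ) ≤ (phi F ((X + 1) ^ 3)).orderTop := by
    apply phi_order (D := 3)
    refine (degree_pow_le _ _).trans ?_
    have h3 : ((X : F[X]) + 1).degree = 1 := degree_X_add_C (1 : F)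
    rw [h3]
    norm_num
  have o4 : ((-3 : ℤ) : WithTop ℤ) ≤ (phi F (aq F)).orderTop := by
    apply phi_order (D := 3)
    unfold aq
    compute_degree
    exact le_rfl
  have hphi : phi F R = -(phi F ((X + 1) ^ 3) * (phi F q * (ser V *
        (phi F q1 * ser (sh V) - phi F p1)))) -
      phi F ((X + 1) ^ 3) * (phi F q1 * (ser (sh V) * (phi F q * ser V - phi F p))) +
      phi F ((X + 1) ^ 3) * ((phi F q * ser V - phi F p) *
        (phi F q1 * ser (sh V) - phi F p1)) +
      phi F (aq F) * (phi F q * (phi F q1 * ser (sh V) - phi F p1)) := by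
    rw [hR]
    simp only [map_add, map_sub, map_mul, map_pow, map_one, phi_X, aq, phi_C]
    unfold ser
    set T : LaurentSeries F := single (-1 : ℤ) (1 : F) with hT
    set S : LaurentSeries F := single (1 : ℤ) (1 : F) with hS
    have hTS : T * S = 1 := single_three
    set Q := phi F q
    set Q1 := phi F q1
    set W := ofPowerSeries ℤ F V
    set W1 := ofPowerSeries ℤ F (sh V)
    have k1 : T ^ 3 * (1 + S) ^ 3 = (T + 1) ^ 3 := by
      rw [← mul_pow, mul_add, mul_one, hTS]
    have k2 : T ^ 3 * (HahnSeries.C 34 + HahnSeries.C 51 * S + HahnSeries.C 27 * S ^ 2 +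
        HahnSeries.C 5 * S ^ 3) = HahnSeries.C 34 * T ^ 3 + HahnSeries.C 51 * T ^ 2 +
          HahnSeries.C 27 * T + HahnSeries.C 5 := by
      linear_combination (HahnSeries.C 51 * T ^ 2 + HahnSeries.C 27 * T * (T * S + 1) +
        HahnSeries.C 5 * ((T * S) ^ 2 + T * S + 1)) * hTS
    rw [← k2, ← k1]
    linear_combination (T ^ 3 * Q * Q1) * h2
  have hord : ((1 : ℤ) : WithTop ℤ) ≤ (phi F R).orderTop := by
    rw [hphi]
    have a1 := le_mul (phi_order' hq) (le_mul (ser_order V) h1)
    have a2 := le_mul o3 a1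
    have b1 := le_mul (phi_order' hq1) (le_mul (ser_order (sh V)) h)
    have b2 := le_mul o3 b1
    have c1 := le_mul o3 (le_mul h h1)
    have d1 := le_mul o4 (le_mul (phi_order' hq) h1)
    simp only [← WithTop.coe_add] at a2 b2 c1 d1
    have a3 : ((1 : ℤ) : WithTop ℤ) ≤ (-(phi F ((X + 1) ^ 3) * (phi F q * (ser V *
        (phi F q1 * ser (sh V) - phi F p1))))).orderTop := by
      rw [orderTop_neg]
      refine le_trans ?_ a2
      exact_mod_cast (by omega : (1 : ℤ) ≤ -3 + (1 - m + (0 + (m + 3))))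
    have b3 := le_trans (show ((1 : ℤ) : WithTop ℤ) ≤ ((-3 + (1 - m + (0 + (m + 3))) : ℤ) :
      WithTop ℤ) by exact_mod_cast (by omega : (1 : ℤ) ≤ -3 + (1 - m + (0 + (m + 3))))) b2
    have c3 := le_trans (show ((1 : ℤ) : WithTop ℤ) ≤ ((-3 + (m + 3 + (m + 3)) : ℤ) :
      WithTop ℤ) by exact_mod_cast (by omega : (1 : ℤ) ≤ -3 + (m + 3 + (m + 3)))) c1
    have d3 := le_trans (show ((1 : ℤ) : WithTop ℤ) ≤ ((-3 + (1 - m + (m + 3)) : ℤ) :
      WithTop ℤ) by exact_mod_cast (by omega : (1 : ℤ) ≤ -3 + (1 - m + (m + 3)))) d1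
    exact le_add (le_add (le_sub a3 b3) c3) d3
  rw [le_orderTop_iff_forall] at hord
  ext k
  have := hord (-(k : ℤ)) (by exact_mod_cast (by omega : -(k : ℤ) < 1))
  rw [phi_coeff, if_pos (by omega)] at this
  simpa using this

/-- the Riccati polynomial has degree `< 2 m + 2` -/
theorem ric_degree {p q : F[X]} {m : ℕ} (hp : p.degree < m) (hq : q.degree < m) :
    ((X + 1) ^ 3 * p * taylor (-1) p - aq F * taylor (-1) p * q +
      X ^ 3 * q * taylor (-1) q).degree < ((2 * m + 2 : ℕ) : WithBot ℕ) := by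
  have hp1 : (taylor (-1) p).degree < m := by rwa [degree_taylor]
  have hq1 : (taylor (-1) q).degree < m := by rwa [degree_taylor]
  apply degree_of_order'
  have o3 : ((-3 : ℤ) : WithTop ℤ) ≤ (phi F ((X + 1) ^ 3)).orderTop := by
    apply phi_order (D := 3)
    refine (degree_pow_le _ _).trans ?_
    have h3 : ((X : F[X]) + 1).degree = 1 := degree_X_add_C (1 : F)
    rw [h3]
    norm_num
  have o5 : ((-3 : ℤ) : WithTop ℤ) ≤ (phi F (X ^ 3)).orderTop := by
    apply phi_order (D := 3)
    rw [degree_X_pow]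
  have o4 : ((-3 : ℤ) : WithTop ℤ) ≤ (phi F (aq F)).orderTop := by
    apply phi_order (D := 3)
    unfold aq
    compute_degree
    exact le_rfl
  rw [map_add, map_sub, map_mul, map_mul, map_mul (phi F) (aq F * _), map_mul (phi F) (aq F),
    map_mul (phi F) (X ^ 3 * q), map_mul (phi F) (X ^ 3)]
  have a1 := le_mul (le_mul o3 (phi_order' hp)) (phi_order' hp1)
  have b1 := le_mul (le_mul o4 (phi_order' hp1)) (phi_order' hq)
  have c1 := le_mul (le_mul o5 (phi_order' hq)) (phi_order' hq1)
  simp only [← WithTop.coe_add] at a1 b1 c1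
  have e : (1 : ℤ) - ((2 * m + 2 : ℕ) : ℤ) = -3 + (1 - m) + (1 - m) := by
    push_cast
    ring
  rw [e]
  exact le_add (le_sub a1 b1) c1

theorem ric_of_fin [CharZero F] {u : ℤ → F} {p q : F[X]} {m : ℕ} (hp : p.degree < m)
    (hq : q.degree < m) {G : Finset ℤ} (hG : 2 * m + 2 ≤ G.card)
    (h1 : ∀ n ∈ G, u n ≠ 0 ∧ u (n - 1) ≠ 0) (h2 : ∀ n ∈ G, RecAt u n)
    (h3 : ∀ n ∈ G, q.eval (n : F) * u (n + 1) = p.eval (n : F) * u n)
    (h4 : ∀ n ∈ G, q.eval ((n - 1 : ℤ) : F) * u n = p.eval ((n - 1 : ℤ) : F) * u (n - 1)) :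
    RicPoly p q := by
  unfold RicPoly
  refine eq_zero_of_nodes' (S := G) ?_ ?_
  · refine lt_of_lt_of_le (ric_degree hp hq) ?_
    exact_mod_cast hG
  · intro n hn
    have b1 := h3 n hn
    have b2 := h4 n hn
    have b3 := h2 n hn
    unfold RecAt at b3
    have c1 : (n : F) + -1 = ((n - 1 : ℤ) : F) := by push_cast; ring
    have t1 : (taylor (-1) p).eval (n : F) = p.eval ((n - 1 : ℤ) : F) := by
      rw [taylor_eval, c1]
    have t2 : (taylor (-1) q).eval (n : F) = q.eval ((n - 1 : ℤ) : F) := by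
      rw [taylor_eval, c1]
    simp only [eval_add, eval_sub, eval_mul, eval_pow, eval_X, eval_one, aq, eval_C, t1, t2]
    set z : F := (n : F) with hz
    set pm := p.eval ((n - 1 : ℤ) : F) with hpm
    set qm := q.eval ((n - 1 : ℤ) : F) with hqm
    have key : (u (n - 1) * u n) * ((z + 1) ^ 3 * p.eval z * pm -
        (34 * z ^ 3 + 51 * z ^ 2 + 27 * z + 5) * pm * q.eval z +
        z ^ 3 * q.eval z * qm) = 0 := by
      linear_combination (-(z + 1) ^ 3 * pm * u (n - 1)) * b1 +
        (-(z + 1) ^ 3 * q.eval z * u (n + 1) +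
          (34 * z ^ 3 + 51 * z ^ 2 + 27 * z + 5) * q.eval z * u n) * b2 +
        (q.eval z * qm * u n) * b3
    rcases mul_eq_zero.1 key with h0 | h0
    · exact absurd h0 (mul_ne_zero (h1 n hn).2 (h1 n hn).1)
    · exact h0

/-- **Effective non-vanishing along the symmetric chain** -/
theorem core2_eff [CharZero F] {V : PowerSeries F} (hV : Ric V) {u : ℤ → F}
    (hu : ∀ z : ℤ, (1 ≤ z ∨ z ≤ -3) → u z ≠ 0) (hr : ∀ z : ℤ, (2 ≤ z ∨ z ≤ -3) → RecAt u z)
    (M : ℕ) : ∃ c, M ≤ c ∧ c ≤ 6 * M + 11 ∧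
      ¬ ∃ P Q : F[X], Sol2 V u (nod (c - c / 3)) (2 * (c / 3)) c P Q := by
  classical
  by_contra hcon
  push Not at hcon
  have hsol : ∀ k : ℕ, ∃ P Q : F[X], M + k ≤ 6 * M + 11 →
      Sol2 V u (nod (M + k - (M + k) / 3)) (2 * ((M + k) / 3)) (M + k) P Q := by
    intro k
    by_cases hk : M + k ≤ 6 * M + 11
    · obtain ⟨P, Q, h⟩ := hcon (M + k) (by omega) hk
      exact ⟨P, Q, fun _ => h⟩
    · exact ⟨0, 0, fun h => absurd h hk⟩
  choose P Q hS using hsol
  have hun : ∀ A : ℕ, ∀ z ∈ nod A, u z ≠ 0 := by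
    intro A z hz
    rw [mem_nod] at hz
    exact hu z (by omega)
  have hcc : ∀ c : ℕ, 2 * c = (nod (c - c / 3)).card + 2 * (c / 3) := by
    intro c
    rw [card_nod]
    omega
  have hQ : ∀ k, M + k ≤ 6 * M + 11 → Q k ≠ 0 := fun k hk => (hS k hk).Q_ne (hun _) (hcc _)
  have hstep : ∀ k, M + (k + 1) ≤ 6 * M + 11 → P k * Q (k + 1) = P (k + 1) * Q k := by
    intro k hk
    refine (hS k (by omega)).cross (S' := nod (M + (k + 1) - (M + (k + 1)) / 3))
      (R' := 2 * ((M + (k + 1)) / 3)) (hun _) (hcc _) (nod_mono (by omega)) (by omega) ?_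
    exact hS (k + 1) hk
  have hall : ∀ k, M + k ≤ 6 * M + 11 → P k * Q 0 = P 0 * Q k := by
    intro k
    induction k with
    | zero => intro _; rfl
    | succ k ih =>
      intro hk
      have ih' := ih (by omega)
      have : Q k * (P (k + 1) * Q 0) = Q k * (P 0 * Q (k + 1)) := by
        linear_combination Q (k + 1) * ih' - Q 0 * hstep k hk
      exact mul_left_cancel₀ (hQ k (by omega)) this
  have hQ0 := hQ 0 (by omega)
  obtain ⟨g, p, q, eP, eQ, hcop, hg0, hq0⟩ := reduced (P 0) hQ0
  have hred : ∀ k, M + k ≤ 6 * M + 11 → P k * q = p * Q k := by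
    intro k hk
    have : g * (P k * q) = g * (p * Q k) := by
      have := hall k hk
      rw [eP, eQ] at this
      linear_combination this
    exact mul_left_cancel₀ hg0 this
  have hs : ∀ k, ∃ s : F[X], M + k ≤ 6 * M + 11 → Q k = q * s ∧ P k = p * s := by
    intro k
    by_cases hk : M + k ≤ 6 * M + 11
    · have h1 : q ∣ p * Q k := ⟨P k, by rw [← hred k hk]; ring⟩
      obtain ⟨s, hs⟩ := hcop.symm.dvd_of_dvd_mul_left h1
      refine ⟨s, fun _ => ⟨hs, ?_⟩⟩
      have : q * P k = q * (p * s) := by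
        have := hred k hk
        rw [hs] at this
        linear_combination this
      exact mul_left_cancel₀ hq0 this
    · exact ⟨0, fun h => absurd h hk⟩
  choose s hsQP using hs
  have hs0 : ∀ k, M + k ≤ 6 * M + 11 → s k ≠ 0 := by
    intro k hk h0
    have := (hsQP k hk).1
    rw [h0, mul_zero] at this
    exact hQ k hk this
  have hdq : q.degree < M := by
    have h1 := (hS 0 (by omega)).dQ
    rw [eQ, degree_mul] at h1
    have h2 : (0 : WithBot ℕ) ≤ g.degree := zero_le_degree_iff.2 hg0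
    refine lt_of_le_of_lt ?_ h1
    calc q.degree = 0 + q.degree := (zero_add _).symm
      _ ≤ g.degree + q.degree := add_le_add_left h2 _
  have hdp : p.degree < M := by
    have h1 := (hS 0 (by omega)).dP
    rw [eP, degree_mul] at h1
    have h2 : (0 : WithBot ℕ) ≤ g.degree := zero_le_degree_iff.2 hg0
    refine lt_of_le_of_lt ?_ h1
    calc p.degree = 0 + p.degree := (zero_add _).symm
      _ ≤ g.degree + p.degree := add_le_add_left h2 _
  refine no_rat hq0 hcop ?_
  by_cases hcase : phi F q * ser V = phi F p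
  · exact ric_of_series hV hcase
  set E : LaurentSeries F := phi F q * ser V - phi F p with hE
  have hE0 : E ≠ 0 := sub_ne_zero.2 hcase
  have hord : E.orderTop = ((E.order : ℤ) : WithTop ℤ) :=
    (order_eq_orderTop_of_ne_zero hE0).symm
  by_cases hbig : (M : ℤ) + 3 ≤ E.order
  · refine ric_of_order hV hdq (m := M) ?_
    rw [← hE, hord]
    exact_mod_cast hbig
  push Not at hbig
  have hdeg : ∀ k, M + k ≤ 6 * M + 11 →
      ((s k).natDegree : ℤ) + 1 + 2 * ((M + k) / 3 : ℕ) ≤ (M + k : ℕ) + E.order := by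
    intro k hk
    have j := (hS k hk).jet
    have e : phi F (Q k) * ser V - phi F (P k) = phi F (s k) * E := by
      rw [(hsQP k hk).1, (hsQP k hk).2, map_mul, map_mul, hE]
      ring
    have o1 : (phi F (s k)).orderTop ≤ ((-((s k).natDegree : ℤ) : ℤ) : WithTop ℤ) := by
      apply orderTop_le_of_coeff_ne_zero
      rw [phi_coeff, if_pos (by omega)]
      simp only [neg_neg, Int.toNat_natCast, coeff_natDegree]
      exact leadingCoeff_ne_zero.2 (hs0 k hk)
    rw [e, orderTop_mul, hord] at j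
    have j2 := j.trans (add_le_add_left o1 _)
    rw [← WithTop.coe_add] at j2
    have j3 := WithTop.coe_le_coe.1 j2
    push_cast at j3 ⊢
    linarith
  set good : ℤ → Prop := fun z => q.eval (z : F) * u (z + 1) = p.eval (z : F) * u z with hgood
  set k := 5 * M + 9 with hk
  have hkk : M + k ≤ 6 * M + 11 := by omega
  have hbad : (((nod (M + k - (M + k) / 3)).filter fun z => ¬ good z).card : ℤ) ≤
      (s k).natDegree := by
    by_contra hlt
    push Not at hlt
    have hz : s k = 0 := by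
      refine eq_zero_of_nodes' (S := (nod (M + k - (M + k) / 3)).filter fun z => ¬ good z) ?_ ?_
      · rw [degree_eq_natDegree (hs0 k hkk)]
        exact_mod_cast hlt
      · intro z hz
        rw [Finset.mem_filter] at hz
        have h3 := (hS k hkk).node z hz.1
        rw [(hsQP k hkk).1, (hsQP k hkk).2, eval_mul, eval_mul] at h3
        have h4 : (s k).eval (z : F) * (q.eval (z : F) * u (z + 1) - p.eval (z : F) * u z) =
            0 := by
          linear_combination h3
        rcases mul_eq_zero.1 h4 with h0 | h0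
        · exact h0
        · exact absurd (sub_eq_zero.1 h0) hz.2
    exact hs0 k hkk hz
  have hcount : 2 * M + 2 ≤
      ((prs (M + k - (M + k) / 3)).filter fun z => good z ∧ good (z - 1)).card := by
    set A := M + k - (M + k) / 3 with hA
    set bad := (nod A).filter fun z => ¬ good z with hb
    have h1 : prs A ⊆ ((prs A).filter fun z => good z ∧ good (z - 1)) ∪
        (bad ∪ bad.image fun z => z + 1) := by
      intro z hz
      rw [Finset.mem_union]
      by_cases h2 : good z ∧ good (z - 1)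
      · left
        rw [Finset.mem_filter]
        exact ⟨hz, h2⟩
      · right
        rw [mem_prs] at hz
        rw [Finset.mem_union]
        by_cases h3 : good z
        · right
          rw [Finset.mem_image]
          refine ⟨z - 1, ?_, by ring⟩
          rw [hb, Finset.mem_filter, mem_nod]
          refine ⟨by omega, fun h4 => h2 ⟨h3, h4⟩⟩
        · left
          rw [hb, Finset.mem_filter, mem_nod]
          exact ⟨by omega, h3⟩
    have h2 := Finset.card_le_card h1
    have h3 := Finset.card_union_le ((prs A).filter fun z => good z ∧ good (z - 1))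
      (bad ∪ bad.image fun z => z + 1)
    have h4 := Finset.card_union_le bad (bad.image fun z => z + 1)
    have h5 : (bad.image fun z => z + 1).card ≤ bad.card := Finset.card_image_le
    have h6 := card_prs A
    have h7 : ((bad.card : ℕ) : ℤ) ≤ (s k).natDegree := hbad
    have h8 := hdeg k hkk
    omega
  refine ric_of_fin (u := u) (m := M) hdp hdq hcount ?_ ?_ ?_ ?_
  · intro z hz
    rw [Finset.mem_filter, mem_prs] at hz
    exact ⟨hu z (by omega), hu (z - 1) (by omega)⟩
  · intro z hz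
    rw [Finset.mem_filter, mem_prs] at hz
    exact hr z (by omega)
  · intro z hz
    rw [Finset.mem_filter] at hz
    exact hz.2.1
  · intro z hz
    rw [Finset.mem_filter] at hz
    have e : z - 1 + 1 = z := by ring
    have hz' : q.eval ((z - 1 : ℤ) : F) * u (z - 1 + 1) = p.eval ((z - 1 : ℤ) : F) * u (z - 1) :=
      hz.2.2
    rwa [e] at hz'

end QS2.NV

namespace QS2

open Polynomial NV

private theorem aperyA_pos'' (n : ℕ) : 0 < aperyA n := by
  unfold aperyA
  refine Finset.sum_pos' (fun k _ => by positivity) ⟨0, by simp, by simp⟩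

/-- **Effective non-vanishing** over any field of characteristic zero -/
theorem nonvan_DeltaR_eff {R : Type*} [Field R] [CharZero R] {x x' : R} {v : ℕ → R}
    (hv : IsFormal v) (hA : RecQ aperyA) (hB : RecQ aperyB)
    (hx : ∀ m : ℕ, 1 ≤ m → (aperyA m : R) * x - (aperyB m : R) ≠ 0)
    (hx' : ∀ m : ℕ, 1 ≤ m → (aperyA m : R) * x' - (aperyB m : R) ≠ 0) (M : ℕ) :
    ∃ rho A : ℕ, M ≤ rho ∧ rho ≤ 6 * (M + 1) ∧ 2 * rho ≤ A ∧ A ≤ 2 * rho + 2 ∧
      DeltaR x x' v A rho ≠ 0 := by
  have hu : ∀ z : ℤ, (1 ≤ z ∨ z ≤ -3) → uz x x' z ≠ 0 := by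
    intro z hz
    unfold uz
    split_ifs with h
    · exact hx _ (by omega)
    · exact hx' _ (by omega)
  obtain ⟨c, hc, hc2, hno⟩ :=
    core2_eff (ric_of_formal hv) hu (fun z hz => recAt_uz hA hB x x' hz) (3 * M)
  refine ⟨c / 3, c - c / 3, by omega, by omega, by omega, by omega, ?_⟩
  set rho := c / 3 with hrho
  set A := c - rho with hAdef
  have hcA : A + rho = c := by omega
  rw [← hcA] at hno
  intro hdet
  unfold DeltaR at hdet
  obtain ⟨w, hw0, hw⟩ := Matrix.exists_mulVec_eq_zero_iff.2 hdet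
  apply hw0
  have hw' : (bigM x x' v A rho).mulVec w = 0 := by
    ext i
    have := congrFun hw ((idx A rho).symm i)
    simpa [Matrix.mulVec, dotProduct, Matrix.submatrix_apply] using this
  refine full_det (V := PowerSeries.mk v) (u := uz x x') (S := nod A) (R := 2 * rho)
    (by omega) binP_degree (bigM x x' v A rho) (Equiv.refl _) ?_ ?_ hno w hw'
  · intro z hz
    obtain ⟨f, rfl⟩ := exists_node hz
    refine ⟨Sum.inl f, 1, one_ne_zero, ?_⟩
    rintro (k | k)
    · simp [bigM, fullM, uval_eq]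
    · simp [bigM, fullM, uval1_eq]
  · intro d hd1 hd2
    have hd3 : A + rho - 2 * rho + (d - (A + rho - 2 * rho)) = d := by omega
    refine ⟨Sum.inr ⟨d - (A + rho - 2 * rho), by omega⟩, (d.factorial : R),
      by exact_mod_cast d.factorial_ne_zero, ?_⟩
    rintro (k | k)
    · simp only [bigM, fullM, Equiv.refl_apply, Sum.elim_inl, hd3]
    · simp only [bigM, fullM, Equiv.refl_apply, Sum.elim_inr, hd3, pp_eq]

/-- **Effective non-vanishing** of `Delta`, under the condition that no node value vanishes -/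
theorem nonvan_Delta_eff' {x : K} {v : ℕ → K} (hv : IsFormal v) (hA : RecQ aperyA)
    (hB : RecQ aperyB) (hx : ∀ m : ℕ, 1 ≤ m → (aperyA m : K) * x - (aperyB m : K) ≠ 0) (M : ℕ) :
    ∃ rho A : ℕ, M ≤ rho ∧ rho ≤ 6 * (M + 1) ∧ 2 * rho ≤ A ∧ A ≤ 2 * rho + 2 ∧
      Delta x v A rho ≠ 0 := by
  refine nonvan_DeltaR_eff hv hA hB hx (fun m hm h => hx m hm ?_) M
  have h1 := congrArg star h
  rw [star_zero, star_sub, star_mul, star_star] at h1
  have e1 : star ((aperyA m : ℚ) : K) = ((aperyA m : ℚ) : K) := by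
    rw [K_ratCast]
    ext <;> simp
  have e2 : star ((aperyB m : ℚ) : K) = ((aperyB m : ℚ) : K) := by
    rw [K_ratCast]
    ext <;> simp
  rw [e1, e2, mul_comm] at h1
  exact h1

/-- **Effective non-vanishing** of `Delta` for irrational `x` -/
theorem nonvan_Delta_eff {x : K} {v : ℕ → K} (hv : IsFormal v) (hA : RecQ aperyA)
    (hB : RecQ aperyB) (hx : x.im ≠ 0) (M : ℕ) :
    ∃ rho A : ℕ, M ≤ rho ∧ rho ≤ 6 * (M + 1) ∧ 2 * rho ≤ A ∧ A ≤ 2 * rho + 2 ∧
      Delta x v A rho ≠ 0 := by
  refine nonvan_Delta_eff' hv hA hB (fun m _ h => ?_) M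
  have h1 := congrArg QuadraticAlgebra.im h
  rw [QuadraticAlgebra.im_sub, QuadraticAlgebra.im_mul, K_ratCast_im, K_ratCast_im,
    K_ratCast_re] at h1
  simp only [zero_mul, add_zero, mul_zero, sub_zero, QuadraticAlgebra.im_zero] at h1
  rcases mul_eq_zero.1 h1 with h2 | h2
  · exact (aperyA_pos'' m).ne' h2
  · exact hx h2

end QS2
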