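import Pool.Agent.QS2.Final1
import Pool.Agent.QS2.M.DenomEff
import Pool.Agent.QS2.M.NonVanEff

/-!
# QS2: the final inequality, effective form

`final_eff` : `exp (-kappa * T) < |emb x - t|` for all `x ∈ K` with `log D ≤ T` (`D` a denominator
of `x`) and `log (60 (1 + |x'|)) ≤ T`.
-/

set_option autoImplicit false

namespace QS2

open Finset Filter

/-- **the final inequality, effective form** -/
theorem final_eff (hA : NV.RecQ aperyA) (hB : NV.RecQ aperyB)
    {v : ℕ → K} (hv : IsFormal v) (hv0 : v 0 = alpha) {E S t C tau : ℝ} (hE : 0 ≤ E)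
    (hES : S < 4 * E)
    (harch : ∀ A rho : ℕ, 12 ≤ A → 2 * rho ≤ A → A ≤ 2 * rho + 2 → ∀ x : K,
      |emb x - t| ≤ Real.exp (-(tau * A)) →
      |emb (Delta x v A rho)| ≤ Real.exp (- E * (A : ℝ) ^ 2 + C * A * Real.log (A + 1)) *
        (60 * (1 + |emb (star x)|)) ^ (4 * A))
    (e : ℕ → ℕ → ℕ → ℕ)
    (hsum : ∀ᶠ n : ℕ in atTop, ∀ A : ℕ, 2 * n ≤ A → A ≤ 2 * n + 2 →
      ∑ p ∈ (Ioc 0 (A + n)).filter Nat.Prime, (e n A p : ℝ) * Real.log p ≤ S * (n : ℝ) ^ 2)
    (h0 : ∀ᶠ n : ℕ in atTop, ∀ A : ℕ, 2 * n ≤ A → A ≤ 2 * n + 2 →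
      ∀ p : ℕ, p.Prime → A + n < p → e n A p = 0)
    (hint : ∀ᶠ n : ℕ in atTop, ∀ A : ℕ, 2 * n ≤ A → A ≤ 2 * n + 2 →
      ∀ (p : ℕ) [Fact p.Prime] (y y' : K), y ∈ Op p → y' ∈ Op p →
        (p : K) ^ e n A p * DeltaR y y' v A n ∈ Op p) :
    ∃ kappa : ℝ, 0 < kappa ∧ ∀ x : K,
      (∀ m : ℕ, 1 ≤ m → (aperyA m : K) * x - (aperyB m : K) ≠ 0) →
      ∀ (D : ℕ), 0 < D → ∀ (m1 m2 : ℤ), (D : K) * x = ⟨m1, m2⟩ → ∀ T : ℝ, 1 ≤ T →
      Real.log D ≤ T → Real.log (60 * (1 + |emb (star x)|)) ≤ T →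
      Real.exp (-(kappa * T)) < |emb x - t| := by
  set δ : ℝ := 8 * E - 2 * S with hδ
  have hδ0 : 0 < δ := by rw [hδ]; linarith
  set F : ℝ := max C 0 with hF
  have hF0 : 0 ≤ F := le_max_right _ _
  have hFC : C ≤ F := le_max_left _ _
  set C3 : ℝ := |Real.log (emb alpha)| with hC3
  have hC30 : 0 ≤ C3 := abs_nonneg _
  have hlog := log_small (8 * F) (by positivity) (show (0 : ℝ) < δ / 2 by linarith)
  obtain ⟨n0, hn0⟩ := eventually_atTop.1 (hsum.and (h0.and (hint.and (hlog.and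
    (eventually_ge_atTop 6)))))
  set K1 : ℝ := 2 * (112 + 8 * F + 2 * C3 + 1) / δ with hK1
  have hK10 : 0 < K1 := by rw [hK1]; positivity
  set K2 : ℝ := 12 * ((n0 : ℝ) + K1 + 2) + 2 with hK2
  have hK20 : 0 < K2 := by rw [hK2]; positivity
  set tau' : ℝ := max tau 0 with htau
  have htau0 : 0 ≤ tau' := le_max_right _ _
  have htauC : tau ≤ tau' := le_max_left _ _
  refine ⟨tau' * K2 + 1, by positivity, ?_⟩
  intro x hx D hD m1 m2 hDx T hT1 hTD hTx
  by_contra hcon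
  rw [not_lt] at hcon
  obtain ⟨n, A, hnM, hnU, h1, h2, hne⟩ := nonvan_Delta_eff' hv hA hB hx (n0 + ⌈K1 * T⌉₊)
  obtain ⟨g1, g2, g3, g4, g5⟩ := hn0 n (by omega)
  have hnr : (6 : ℝ) ≤ n := by exact_mod_cast g5
  have hAr : (2 : ℝ) * n ≤ A := by exact_mod_cast h1
  have hAr2 : (A : ℝ) ≤ 2 * n + 2 := by exact_mod_cast h2
  have hKn : K1 * T ≤ n := by
    have a1 : K1 * T ≤ (⌈K1 * T⌉₊ : ℝ) := Nat.le_ceil _
    have a2 : ((n0 + ⌈K1 * T⌉₊ : ℕ) : ℝ) ≤ n := by exact_mod_cast hnM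
    push_cast at a2
    have a3 : (0 : ℝ) ≤ n0 := Nat.cast_nonneg _
    linarith
  have hAK : (A : ℝ) ≤ K2 * T := by
    have a1 : (⌈K1 * T⌉₊ : ℝ) < K1 * T + 1 := Nat.ceil_lt_add_one (by positivity)
    have a2 : (n : ℝ) ≤ ((6 * (n0 + ⌈K1 * T⌉₊ + 1) : ℕ) : ℝ) := by exact_mod_cast hnU
    push_cast at a2
    have a3 : (0 : ℝ) ≤ n0 := Nat.cast_nonneg _
    have a4 : (n0 : ℝ) ≤ n0 * T := by nlinarith
    rw [hK2]
    nlinarith
  -- the archimedean bound
  have harc := harch A n (by omega) h1 h2 x (hcon.trans (Real.exp_le_exp.2 (by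
    have a1 : tau * A ≤ tau' * A := mul_le_mul_of_nonneg_right htauC (Nat.cast_nonneg _)
    have a2 : tau' * A ≤ tau' * (K2 * T) := mul_le_mul_of_nonneg_left hAK htau0
    nlinarith)))
  have hW0 : (0 : ℝ) < 60 * (1 + |emb (star x)|) := by
    have := abs_nonneg (emb (star x))
    positivity
  have hL : Real.log |emb (Delta x v A n)| ≤
      - E * (A : ℝ) ^ 2 + C * A * Real.log (A + 1) + 4 * A * T := by
    have h3 : 0 < |emb (Delta x v A n)| := abs_pos.2 (emb_ne_zero hne)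
    have h4 := Real.log_le_log h3 harc
    rw [Real.log_mul (Real.exp_pos _).ne' (pow_pos hW0 _).ne', Real.log_exp, Real.log_pow] at h4
    have h5 : ((4 * A : ℕ) : ℝ) * Real.log (60 * (1 + |emb (star x)|)) ≤ ((4 * A : ℕ) : ℝ) * T :=
      mul_le_mul_of_nonneg_left hTx (Nat.cast_nonneg _)
    push_cast at h4 h5
    linarith
  have key := norm_final_eff x D hD m1 m2 hDx v A n (A + n) (e n A) (g2 A h1 h2)
    (fun p _ y y' hy hy' => g3 A h1 h2 p y y' hy hy') hne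
  have hs := g1 A h1 h2
  have hstar : Real.log |emb (star (Delta x v A n))| =
      Real.log |emb (Delta x v A n)| - 2 * n * Real.log (emb alpha) := by
    have h3 := abs_emb_star_Delta x hv hv0 (show n ≤ A by omega)
    have h4 : |emb (star (Delta x v A n))| ≠ 0 := by
      apply abs_ne_zero.2
      apply emb_ne_zero
      intro h5
      exact hne (star_eq_zero.1 h5)
    rw [h3, Real.log_mul (pow_ne_zero _ (abs_ne_zero.2 fin0_alpha_pos.ne')) h4, Real.log_pow,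
      Real.log_abs (emb alpha)]
    push_cast
    ring
  have hlogA : Real.log (A + 1) ≤ 1 + Real.log (n + 2) := by
    have h5 : Real.log ((A : ℝ) + 1) ≤ Real.log (2 * ((n : ℝ) + 2)) := by
      apply Real.log_le_log (by positivity)
      linarith
    rw [Real.log_mul (by norm_num) (by positivity)] at h5
    have h6 : Real.log 2 ≤ 1 := by
      have := Real.log_two_lt_d9
      linarith
    linarith
  have hlogA0 : 0 ≤ Real.log ((A : ℝ) + 1) := Real.log_nonneg (by linarith)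
  have hterm : C * A * Real.log (A + 1) ≤ 4 * n * (F * (1 + Real.log (n + 2))) := by
    calc C * A * Real.log (A + 1) ≤ F * A * Real.log (A + 1) := by
          apply mul_le_mul_of_nonneg_right _ hlogA0
          exact mul_le_mul_of_nonneg_right hFC (by positivity)
      _ ≤ F * (4 * n) * (1 + Real.log (n + 2)) := by
          apply mul_le_mul _ hlogA hlogA0 (by positivity)
          apply mul_le_mul_of_nonneg_left _ hF0
          linarith
      _ = _ := by ring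
  have hsq : - E * (A : ℝ) ^ 2 ≤ - E * (4 * (n : ℝ) ^ 2) := by
    have : (4 : ℝ) * (n : ℝ) ^ 2 ≤ (A : ℝ) ^ 2 := by nlinarith
    nlinarith
  rw [hstar] at key
  have hal : - (2 * (n : ℝ) * Real.log (emb alpha)) ≤ 2 * n * C3 := by
    have := neg_abs_le (Real.log (emb alpha))
    nlinarith
  have hT0 : 0 ≤ T := by linarith
  have h7 : 16 * ((A + n : ℕ) : ℝ) * Real.log D ≤ 16 * (5 * n) * T := by
    have h8 : 16 * ((A + n : ℕ) : ℝ) * Real.log D ≤ 16 * ((A + n : ℕ) : ℝ) * T :=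
      mul_le_mul_of_nonneg_left hTD (by positivity)
    refine h8.trans (mul_le_mul_of_nonneg_right ?_ hT0)
    push_cast
    linarith
  have h9 : 4 * (A : ℝ) * T ≤ 4 * (4 * n) * T := by
    refine mul_le_mul_of_nonneg_right ?_ hT0
    linarith
  have hn0' : (0 : ℝ) ≤ n := by linarith
  have hmain : 0 ≤ n * (-(δ * n) + 112 * T + 8 * F + 8 * F * Real.log (n + 2) + 2 * C3) := by
    have e1 : (n : ℝ) * (-(δ * n) + 112 * T + 8 * F + 8 * F * Real.log (n + 2) + 2 * C3) =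
      2 * (S * (n : ℝ) ^ 2) + 16 * (5 * n) * T +
        2 * (- E * (4 * (n : ℝ) ^ 2) + 4 * n * (F * (1 + Real.log (n + 2))) + 4 * (4 * n) * T) +
        2 * n * C3 := by
      rw [hδ]
      ring
    rw [e1]
    linarith
  have hneg : -(δ * n) + 112 * T + 8 * F + 8 * F * Real.log (n + 2) + 2 * C3 < 0 := by
    have b1 : δ / 2 * (K1 * T) ≤ δ / 2 * n := mul_le_mul_of_nonneg_left hKn (by linarith)
    have b2 : δ / 2 * (K1 * T) = (112 + 8 * F + 2 * C3 + 1) * T := by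
      rw [hK1]
      field_simp
    have b3 : 0 ≤ (8 * F + 2 * C3) * (T - 1) := mul_nonneg (by linarith) (by linarith)
    nlinarith
  have hnpos : (0 : ℝ) < n := by linarith
  nlinarith

end QS2
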