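import Pool.Agent.QS2.M.RatMeas

/-!
# From the measure for `|emb x - ζ(3)|` to the measure of linear independence of
`1, √2, ζ(3), √2 ζ(3)`
-/

set_option autoImplicit false

namespace QS2

namespace RatM

/-- norm of `a + b √2` -/
theorem norm_lower {a b : ℤ} (h : ¬ (a = 0 ∧ b = 0)) : (1 : ℝ) ≤ |(a : ℝ) ^ 2 - 2 * (b : ℝ) ^ 2| := by
  have h1 : a ^ 2 - 2 * b ^ 2 ≠ 0 := by
    intro h0
    have h2 : (a : ℝ) ^ 2 = 2 * (b : ℝ) ^ 2 := by
      have : a ^ 2 = 2 * b ^ 2 := by linarith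
      exact_mod_cast this
    by_cases hb : b = 0
    · subst hb
      have : (a : ℝ) = 0 := by simpa using h2
      exact h ⟨by exact_mod_cast this, rfl⟩
    · have hb' : (b : ℝ) ≠ 0 := by exact_mod_cast hb
      have h3 : ((a : ℝ) / b) ^ 2 = 2 := by
        rw [div_pow, h2]
        field_simp
      have h4 : |(a : ℝ) / b| = √2 := by
        rw [← Real.sqrt_sq_eq_abs, h3]
      apply irrational_sqrt_two
      refine ⟨|(a : ℚ) / b|, ?_⟩
      push_cast
      exact h4
  have h2 : (1 : ℤ) ≤ |a ^ 2 - 2 * b ^ 2| := Int.one_le_abs h1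
  exact_mod_cast h2

theorem sqrt2_lt : √2 < 3 / 2 := by
  rw [Real.sqrt_lt' (by norm_num)]
  norm_num

theorem lin_upper {a b : ℤ} {H : ℝ} (ha : |(a : ℝ)| ≤ H) (hb : |(b : ℝ)| ≤ H) :
    |(a : ℝ) + b * √2| ≤ 3 * H ∧ |(a : ℝ) - b * √2| ≤ 3 * H := by
  have h2 := sqrt2_lt
  have h0 : (0 : ℝ) ≤ √2 := Real.sqrt_nonneg 2
  have h3 : |(b : ℝ) * √2| ≤ H * (3 / 2) := by
    rw [abs_mul, abs_of_nonneg h0]
    exact mul_le_mul hb h2.le h0 ((abs_nonneg _).trans hb)
  have hH : 0 ≤ H := (abs_nonneg _).trans ha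
  constructor
  · exact (abs_add_le _ _).trans (by linarith)
  · exact (abs_sub _ _).trans (by linarith)

theorem lin_lower {a b : ℤ} {H : ℝ} (ha : |(a : ℝ)| ≤ H) (hb : |(b : ℝ)| ≤ H)
    (h : ¬ (a = 0 ∧ b = 0)) :
    1 / (3 * H) ≤ |(a : ℝ) + b * √2| ∧ 1 / (3 * H) ≤ |(a : ℝ) - b * √2| := by
  have h1 := norm_lower h
  obtain ⟨h2, h3⟩ := lin_upper ha hb
  have e : (a : ℝ) ^ 2 - 2 * (b : ℝ) ^ 2 = ((a : ℝ) + b * √2) * ((a : ℝ) - b * √2) := by
    have := Real.mul_self_sqrt (show (0 : ℝ) ≤ 2 by norm_num)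
    linear_combination ((b : ℝ) ^ 2) * this
  rw [e, abs_mul] at h1
  have hH : 0 ≤ H := (abs_nonneg _).trans ha
  have hH0 : 0 < H := by
    by_contra hc
    have hz : H = 0 := le_antisymm (not_lt.1 hc) hH
    rw [hz, mul_zero] at h2
    have h4 := abs_nonneg ((a : ℝ) + b * √2)
    have h5 := abs_nonneg ((a : ℝ) - b * √2)
    nlinarith
  have h4 := abs_nonneg ((a : ℝ) + b * √2)
  have h5 := abs_nonneg ((a : ℝ) - b * √2)
  constructor
  · rw [div_le_iff₀ (by positivity)]
    nlinarith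
  · rw [div_le_iff₀ (by positivity)]
    nlinarith

end RatM

open RatM in
/-- **Reduction** : from the effective inequality for `x ∈ ℚ(√2)` to the measure of linear
independence of `1, √2, ζ(3), √2 ζ(3)` -/
theorem measure_of_eff
    (hmain : ∃ kappa : ℝ, 0 < kappa ∧ ∀ x : K,
      (∀ m : ℕ, 1 ≤ m → (aperyA m : K) * x - (aperyB m : K) ≠ 0) →
      ∀ D : ℕ, 0 < D → ∀ m1 m2 : ℤ, (D : K) * x = ⟨m1, m2⟩ → ∀ T : ℝ, 1 ≤ T →
      Real.log D ≤ T → Real.log (60 * (1 + |emb (star x)|)) ≤ T →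
      Real.exp (-(kappa * T)) < |emb x - zeta3|) :
    ∃ (k : ℕ) (c : ℝ), 0 < c ∧ ∀ a b m n : ℤ, ¬ (a = 0 ∧ b = 0 ∧ m = 0 ∧ n = 0) →
      c / ((max (max |a| |b|) (max |m| |n|) : ℤ) : ℝ) ^ k ≤
        |(a : ℝ) + b * √2 + (m + n * √2) * zeta3| := by
  obtain ⟨kappa, hk0, hmain⟩ := hmain
  obtain ⟨k1, c1, hc1, hrat⟩ := rat_measure
  obtain ⟨k2, hk2⟩ := exists_nat_ge (2 * kappa)
  set c2 : ℝ := Real.exp (-(7 * kappa)) with hc2
  have hc20 : 0 < c2 := Real.exp_pos _
  have hc21 : c2 ≤ 1 := Real.exp_le_one_iff.2 (by linarith [mul_pos (by norm_num : (0:ℝ) < 7) hk0])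
  set c3 : ℝ := min 1 (min c2 (c1 / 2 ^ (k1 + 1))) with hc3
  have hc30 : 0 < c3 := by
    rw [hc3]
    exact lt_min one_pos (lt_min hc20 (by positivity))
  refine ⟨1 + (k2 + 2 * (k1 + 1)), c3 / 3, by positivity, fun a b m n hne => ?_⟩
  set H : ℤ := max (max |a| |b|) (max |m| |n|) with hH
  have hHa : |a| ≤ H := (le_max_left _ _).trans (le_max_left _ _)
  have hHb : |b| ≤ H := (le_max_right _ _).trans (le_max_left _ _)
  have hHm : |m| ≤ H := (le_max_left _ _).trans (le_max_right _ _)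
  have hHn : |n| ≤ H := (le_max_right _ _).trans (le_max_right _ _)
  have hH1 : 1 ≤ H := by
    by_contra hc
    have h0 : H ≤ 0 := by omega
    exact hne ⟨abs_nonpos_iff.1 (hHa.trans h0), abs_nonpos_iff.1 (hHb.trans h0),
      abs_nonpos_iff.1 (hHm.trans h0), abs_nonpos_iff.1 (hHn.trans h0)⟩
  have hHr : (1 : ℝ) ≤ (H : ℝ) := by exact_mod_cast hH1
  have ra : |(a : ℝ)| ≤ (H : ℝ) := by exact_mod_cast hHa
  have rb : |(b : ℝ)| ≤ (H : ℝ) := by exact_mod_cast hHb
  have rm : |(m : ℝ)| ≤ (H : ℝ) := by exact_mod_cast hHm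
  have rn : |(n : ℝ)| ≤ (H : ℝ) := by exact_mod_cast hHn
  have hH0 : (0 : ℝ) < H := by linarith
  have hpow1 : (1 : ℝ) ≤ (H : ℝ) ^ (k2 + 2 * (k1 + 1)) := one_le_pow₀ hHr
  by_cases hmn : m = 0 ∧ n = 0
  · -- the case of `a + b √2`
    obtain ⟨rfl, rfl⟩ := hmn
    have hab : ¬ (a = 0 ∧ b = 0) := fun h => hne ⟨h.1, h.2, rfl, rfl⟩
    have h1 := (lin_lower ra rb hab).1
    have h2 : c3 / 3 / (H : ℝ) ^ (1 + (k2 + 2 * (k1 + 1))) ≤ 1 / (3 * H) := by
      rw [div_div, pow_add, pow_one]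
      apply div_le_div₀ zero_le_one (min_le_left _ _) (by positivity)
      nlinarith
    refine h2.trans (h1.trans (le_of_eq ?_))
    simp
  · -- the case `y = m + n √2 ≠ 0`
    have hy : ¬ (m = 0 ∧ n = 0) := hmn
    obtain ⟨hy1, hy2⟩ := lin_lower rm rn hy
    have hyn := norm_lower hy
    have hN0 : m ^ 2 - 2 * n ^ 2 ≠ 0 := by
      intro h0
      have : (m : ℝ) ^ 2 - 2 * (n : ℝ) ^ 2 = 0 := by exact_mod_cast h0
      rw [this, abs_zero] at hyn
      linarith
    have hyK : (⟨(m : ℚ), (n : ℚ)⟩ : K) ≠ 0 := by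
      intro h0
      have h1 := congrArg QuadraticAlgebra.re h0
      have h2 := congrArg QuadraticAlgebra.im h0
      simp only [QuadraticAlgebra.re_zero, QuadraticAlgebra.im_zero] at h1 h2
      exact hy ⟨by exact_mod_cast h1, by exact_mod_cast h2⟩
    set N : ℤ := m ^ 2 - 2 * n ^ 2 with hN
    -- the point `x`
    set x : K := -(⟨(a : ℚ), (b : ℚ)⟩ : K) / ⟨(m : ℚ), (n : ℚ)⟩ with hx
    have hembw : emb (⟨(a : ℚ), (b : ℚ)⟩ : K) = (a : ℝ) + b * √2 := by
      rw [emb_apply]; push_cast; rfl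
    have hemby : emb (⟨(m : ℚ), (n : ℚ)⟩ : K) = (m : ℝ) + n * √2 := by
      rw [emb_apply]; push_cast; rfl
    have hyr : (m : ℝ) + n * √2 ≠ 0 := by
      intro h0
      rw [h0, abs_zero] at hy1
      have : (0 : ℝ) < 1 / (3 * H) := by positivity
      linarith
    have hyr' : (m : ℝ) - n * √2 ≠ 0 := by
      intro h0
      rw [h0, abs_zero] at hy2
      have : (0 : ℝ) < 1 / (3 * H) := by positivity
      linarith
    have hxe : emb x = -((a : ℝ) + b * √2) / ((m : ℝ) + n * √2) := by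
      rw [hx, map_div₀, map_neg, hembw, hemby]
    have hform : (a : ℝ) + b * √2 + (m + n * √2) * zeta3 =
        -((m : ℝ) + n * √2) * (emb x - zeta3) := by
      have h1 : emb x * ((m : ℝ) + n * √2) = -((a : ℝ) + b * √2) := by
        rw [hxe]
        exact div_mul_cancel₀ _ hyr
      linear_combination h1
    have hval : |(a : ℝ) + b * √2 + (m + n * √2) * zeta3| =
        |(m : ℝ) + n * √2| * |emb x - zeta3| := by
      rw [hform, abs_mul, abs_neg]
    -- it is enough to bound `|emb x - zeta3|`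
    suffices hs : c3 / (H : ℝ) ^ (k2 + 2 * (k1 + 1)) ≤ |emb x - zeta3| by
      rw [hval]
      calc c3 / 3 / (H : ℝ) ^ (1 + (k2 + 2 * (k1 + 1)))
          = (1 / (3 * H)) * (c3 / (H : ℝ) ^ (k2 + 2 * (k1 + 1))) := by
            rw [pow_add, pow_one]
            field_simp
        _ ≤ |(m : ℝ) + n * √2| * |emb x - zeta3| :=
            mul_le_mul hy1 hs (by positivity) (abs_nonneg _)
    -- integrality
    set D : ℕ := N.natAbs with hD
    have hD0 : 0 < D := Int.natAbs_pos.2 hN0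
    obtain ⟨sg, hsg, hsN⟩ : ∃ sg : ℤ, (sg = 1 ∨ sg = -1) ∧ (D : ℤ) = sg * N := by
      rcases le_total 0 N with h | h
      · exact ⟨1, Or.inl rfl, by rw [hD, Int.natAbs_of_nonneg h, one_mul]⟩
      · refine ⟨-1, Or.inr rfl, ?_⟩
        rw [hD]
        omega
    have hDx : (D : K) * x = ⟨((sg * (-(a * m - 2 * b * n)) : ℤ) : ℚ),
        ((sg * (-(b * m - a * n)) : ℤ) : ℚ)⟩ := by
      rw [hx, mul_div_assoc', div_eq_iff hyK]
      have hDK : (D : K) = ⟨((sg * N : ℤ) : ℚ), 0⟩ := by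
        rw [← hsN]
        ext <;> simp
      rw [hDK]
      ext
      · simp only [QuadraticAlgebra.re_mul, QuadraticAlgebra.re_neg, QuadraticAlgebra.im_neg]
        rw [hN]
        push_cast
        ring
      · simp only [QuadraticAlgebra.im_mul, QuadraticAlgebra.re_neg, QuadraticAlgebra.im_neg]
        rw [hN]
        push_cast
        ring
    -- size of `D`
    have hDle : (D : ℝ) ≤ 2 * (H : ℝ) ^ 2 := by
      have h1 : (D : ℝ) = |(m : ℝ) ^ 2 - 2 * (n : ℝ) ^ 2| := by
        have : (D : ℤ) = |N| := by rw [hD]; exact (Int.abs_eq_natAbs N).symm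
        have h2 : ((D : ℤ) : ℝ) = ((|N| : ℤ) : ℝ) := by rw [this]
        rw [Int.cast_natCast] at h2
        rw [h2, hN]
        push_cast
        rfl
      have h2 : (m : ℝ) ^ 2 ≤ (H : ℝ) ^ 2 := by
        rw [← sq_abs]
        exact pow_le_pow_left₀ (abs_nonneg _) rm 2
      have h3 : (n : ℝ) ^ 2 ≤ (H : ℝ) ^ 2 := by
        rw [← sq_abs]
        exact pow_le_pow_left₀ (abs_nonneg _) rn 2
      rw [h1, abs_le]
      constructor
      · nlinarith [sq_nonneg (m : ℝ)]
      · nlinarith [sq_nonneg (n : ℝ)]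
    have hlog2 : Real.log 2 < 1 := by
      have := Real.log_two_lt_d9
      linarith
    by_cases hxim : x.im = 0
    · -- `x` is rational
      have hre : (D : ℚ) * x.re = ((sg * (-(a * m - 2 * b * n)) : ℤ) : ℚ) := by
        have h1 := congrArg QuadraticAlgebra.re hDx
        rw [QuadraticAlgebra.re_mul, hxim, mul_zero, add_zero] at h1
        simpa using h1
      have hex : emb x = (x.re : ℝ) := by
        rw [emb_apply, hxim]
        simp
      have hreR : (D : ℝ) * (x.re : ℝ) = ((sg * (-(a * m - 2 * b * n)) : ℤ) : ℝ) := by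
        exact_mod_cast congrArg (fun t : ℚ => (t : ℝ)) hre
      have h2 := hrat (sg * (-(a * m - 2 * b * n))) D hD0
      rw [← hreR, ← mul_sub, abs_mul] at h2
      have hDr : (1 : ℝ) ≤ D := by exact_mod_cast hD0
      rw [abs_of_pos (by linarith : (0 : ℝ) < D)] at h2
      have h3 : c1 / (D : ℝ) ^ (k1 + 1) ≤ |emb x - zeta3| := by
        rw [hex, abs_sub_comm, pow_succ, ← div_div, div_le_iff₀ (by linarith)]
        linarith
      refine le_trans ?_ h3
      have h4 : (D : ℝ) ^ (k1 + 1) ≤ 2 ^ (k1 + 1) * (H : ℝ) ^ (2 * (k1 + 1)) := by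
        calc (D : ℝ) ^ (k1 + 1) ≤ (2 * (H : ℝ) ^ 2) ^ (k1 + 1) :=
              pow_le_pow_left₀ (by linarith) hDle _
          _ = _ := by rw [mul_pow, ← pow_mul]
      have hHk : (1 : ℝ) ≤ (H : ℝ) ^ k2 := one_le_pow₀ hHr
      calc c3 / (H : ℝ) ^ (k2 + 2 * (k1 + 1))
          ≤ (c1 / 2 ^ (k1 + 1)) / (H : ℝ) ^ (2 * (k1 + 1)) := by
            apply div_le_div₀ (by positivity) ((min_le_right _ _).trans (min_le_right _ _))
              (by positivity)
            rw [pow_add]
            have : 0 < (H : ℝ) ^ (2 * (k1 + 1)) := by positivity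
            nlinarith
        _ = c1 / (2 ^ (k1 + 1) * (H : ℝ) ^ (2 * (k1 + 1))) := by rw [div_div]
        _ ≤ c1 / (D : ℝ) ^ (k1 + 1) := by
            apply div_le_div_of_nonneg_left hc1.le _ h4
            have : (0 : ℝ) < D := by linarith
            positivity
    · -- `x` is irrational
      have hnode : ∀ j : ℕ, 1 ≤ j → (aperyA j : K) * x - (aperyB j : K) ≠ 0 := by
        intro j _ h0
        have h1 := congrArg QuadraticAlgebra.im h0
        have e1 : ((aperyA j : ℚ) : K) = ⟨aperyA j, 0⟩ := rfl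
        have e2 : ((aperyB j : ℚ) : K) = ⟨aperyB j, 0⟩ := rfl
        rw [e1, e2] at h1
        simp only [QuadraticAlgebra.im_sub, QuadraticAlgebra.im_mul, QuadraticAlgebra.im_zero,
          zero_mul, add_zero, mul_zero, sub_zero] at h1
        rcases mul_eq_zero.1 h1 with h2 | h2
        · exact (aperyA_pos j).ne' h2
        · exact hxim h2
      set T : ℝ := 7 + 2 * Real.log H with hT
      have hlogH : 0 ≤ Real.log (H : ℝ) := Real.log_nonneg hHr
      have hT1 : 1 ≤ T := by rw [hT]; linarith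
      have hTD : Real.log D ≤ T := by
        have hDr : (0 : ℝ) < D := by exact_mod_cast hD0
        calc Real.log D ≤ Real.log (2 * (H : ℝ) ^ 2) := Real.log_le_log hDr hDle
          _ = Real.log 2 + 2 * Real.log H := by
              rw [Real.log_mul (by norm_num) (by positivity), Real.log_pow]
              push_cast
              ring
          _ ≤ T := by rw [hT]; linarith
      have hstar : |emb (star x)| ≤ 9 * (H : ℝ) ^ 2 := by
        have h1 : emb (star x) = -((a : ℝ) - b * √2) / ((m : ℝ) - n * √2) := by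
          rw [eq_div_iff hyr']
          have h2 : x * ⟨(m : ℚ), (n : ℚ)⟩ = -⟨(a : ℚ), (b : ℚ)⟩ := by
            rw [hx]
            exact div_mul_cancel₀ _ hyK
          have h3 := congrArg (fun z : K => emb (star z)) h2
          simp only [star_mul, star_neg, map_mul, map_neg] at h3
          rw [emb_star (⟨(a : ℚ), (b : ℚ)⟩ : K), emb_star (⟨(m : ℚ), (n : ℚ)⟩ : K)] at h3
          push_cast at h3
          rw [mul_comm]
          exact h3
        rw [h1, abs_div, abs_neg, div_le_iff₀ (abs_pos.2 hyr')]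
        have h2 := (lin_upper ra rb).2
        have h3 : 3 * (H : ℝ) ≤ 9 * (H : ℝ) ^ 2 * (1 / (3 * H)) := by
          apply le_of_eq
          field_simp
          ring
        calc |(a : ℝ) - b * √2| ≤ 3 * H := h2
          _ ≤ 9 * (H : ℝ) ^ 2 * (1 / (3 * H)) := h3
          _ ≤ 9 * (H : ℝ) ^ 2 * |(m : ℝ) - n * √2| :=
              mul_le_mul_of_nonneg_left hy2 (by positivity)
      have hTx : Real.log (60 * (1 + |emb (star x)|)) ≤ T := by
        have h1 : 60 * (1 + |emb (star x)|) ≤ 600 * (H : ℝ) ^ 2 := by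
          have : (1 : ℝ) ≤ (H : ℝ) ^ 2 := one_le_pow₀ hHr
          linarith
        have h2 : (600 : ℝ) ≤ Real.exp 7 := by
          have h3 : (2.7 : ℝ) ≤ Real.exp 1 := by
            have := Real.exp_one_gt_d9
            linarith
          calc (600 : ℝ) ≤ 2.7 ^ 7 := by norm_num
            _ ≤ Real.exp 1 ^ 7 := pow_le_pow_left₀ (by norm_num) h3 7
            _ = Real.exp 7 := by rw [← Real.exp_nat_mul]; norm_num
        have h4 : Real.log 600 ≤ 7 := by
          rw [Real.log_le_iff_le_exp (by norm_num)]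
          exact h2
        have h5 := abs_nonneg (emb (star x))
        calc Real.log (60 * (1 + |emb (star x)|)) ≤ Real.log (600 * (H : ℝ) ^ 2) :=
              Real.log_le_log (by positivity) h1
          _ = Real.log 600 + 2 * Real.log H := by
              rw [Real.log_mul (by norm_num) (by positivity), Real.log_pow]
              push_cast
              ring
          _ ≤ T := by rw [hT]; linarith
      have key := (hmain x hnode D hD0 _ _ hDx T hT1 hTD hTx).le
      refine le_trans ?_ key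
      have hT2 : Real.exp (-(kappa * T)) = c2 * Real.exp (-(2 * kappa * Real.log H)) := by
        rw [hc2, ← Real.exp_add, hT]
        congr 1
        ring
      have h6 : 1 / (H : ℝ) ^ k2 ≤ Real.exp (-(2 * kappa * Real.log H)) := by
        have h7 : Real.exp (-(k2 * Real.log H)) = 1 / (H : ℝ) ^ k2 := by
          rw [Real.exp_neg, Real.exp_nat_mul, Real.exp_log hH0, one_div]
        rw [← h7]
        apply Real.exp_le_exp.2
        have : 2 * kappa * Real.log H ≤ k2 * Real.log H :=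
          mul_le_mul_of_nonneg_right hk2 hlogH
        linarith
      rw [hT2]
      calc c3 / (H : ℝ) ^ (k2 + 2 * (k1 + 1)) ≤ c2 / (H : ℝ) ^ k2 := by
            apply div_le_div₀ hc20.le ((min_le_right _ _).trans (min_le_left _ _))
              (by positivity)
            exact pow_le_pow_right₀ hHr (by omega)
        _ = c2 * (1 / (H : ℝ) ^ k2) := by ring
        _ ≤ _ := mul_le_mul_of_nonneg_left h6 hc20.le

end QS2
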