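import Pool.Agent.QS2.Final5
import Pool.Agent.QS2.M.FinalIneq
import Pool.Agent.QS2.M.ArchU10
import Pool.Agent.QS2.M.ArchUnif
import Pool.Agent.QS2.M.Reduce

/-!
# A measure of linear independence of `1, √2, ζ(3), √2 ζ(3)`
-/

set_option autoImplicit false

namespace QS2

open Finset Filter

/-- the archimedean bound for all `x ∈ K` close to `ζ(3)`, uniform in the conjugate -/
theorem arch_unif {v : ℕ → K} (hv0 : v 0 = alpha) (hv : IsFormal v) :
    ∃ C : ℝ, ∀ A rho : ℕ, 12 ≤ A → 2 * rho ≤ A → A ≤ 2 * rho + 2 → ∀ x : K,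
      |emb x - zeta3| ≤ Real.exp (-(60 * A)) →
      |emb (Delta x v A rho)| ≤ Real.exp (- (17 / 4) * (A : ℝ) ^ 2 + C * A * Real.log (A + 1)) *
        (60 * (1 + |emb (star x)|)) ^ (4 * A) := by
  have hfR : IsFormal (fun n => emb (v n)) := isFormal_map_B (emb : K →ₐ[ℚ] ℝ).toRingHom v hv
  have hfC : IsFormal (fun n => ((emb (v n) : ℝ) : ℂ)) := isFormal_map_B Complex.ofRealHom _ hfR
  have hv0' : |emb (v 0)| ≤ 1 := by
    rw [hv0, emb_alpha, abs_le]
    have h3 : √2 < 17 / 12 := by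
      rw [Real.sqrt_lt' (by norm_num)]
      norm_num
    have h4 : 4 / 3 < √2 := by
      apply Real.lt_sqrt_of_sq_lt
      norm_num
    constructor <;> linarith
  obtain ⟨C, hC⟩ := Pool.Agent.QS2.archU10 (fun n => emb (v n)) hfC hv0'
  refine ⟨C, fun A rho hA h1 h2 x hx => ?_⟩
  have h := M.archUnif_of (v := fun n => emb (v n)) (z := zeta3) (C := C) (tau := 60) (A0 := 12)
    (fun A rho hA h1 h2 y x' hy hx' => hC A rho hA h1 h2 x' hx'.1 hx'.2 y hy) A rho hA h1 h2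
    (emb x) (emb (star x)) (by rwa [neg_mul])
  rw [emb_Delta]
  exact h

/-- **A measure of linear independence of `1, √2, ζ(3), √2 ζ(3)`** -/
theorem measure_zeta3 : ∃ (k : ℕ) (c : ℝ), 0 < c ∧ ∀ a b m n : ℤ,
    ¬ (a = 0 ∧ b = 0 ∧ m = 0 ∧ n = 0) →
      c / ((max (max |a| |b|) (max |m| |n|) : ℤ) : ℝ) ^ k ≤
        |(a : ℝ) + b * √2 + (m + n * √2) * zeta3| := by
  obtain ⟨v, hv, hv0⟩ := exists_formal
  obtain ⟨C, hC⟩ := arch_unif hv0 hv
  have hc : ClsRule v clsE 0 0 := Cls.clsRule_of_data fun p _ h5 => data_all hv0 hv p h5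
  apply measure_of_eff
  refine final_eff recQ_A recQ_B hv hv0 (E := 17 / 4) (S := 15.38) (t := zeta3) (C := C)
    (tau := 60) (by norm_num) (by norm_num) hC
    (eExp 12 clsE) (primes_sum_Ioc (K := 8) (by norm_num) (eExp_PRule hc)) ?_ ?_
  · filter_upwards [eventually_ge_atTop 1] with n hn A h1 _ p _ h
    exact eExp_zero hn h1 h
  · filter_upwards [eventually_ge_atTop 2] with n hn A h1 h2 p _ y y' hy hy'
    exact eExp_mem hv hv0 (smallRule_all hv0 hv) hc (Nat.zero_le n) hn h1 h2 p y y' hy hy'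

end QS2
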