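import Pool.Agent.QS2.Defs

/-!
# QS2, measure: from a bound for `x' ∈ [10, 11]` to all `x'`

`DeltaR y x' v A rho` is a polynomial in `x'` of degree `≤ 2 (A + rho)` (over any field), and a
real polynomial of degree `≤ m` bounded by `B` on `[10, 11]` is at most
`B * (60 (1 + |x|)) ^ m` at `x`.
-/

set_option autoImplicit false

namespace QS2.M

open Finset Polynomial

/-- Lagrange interpolation at `0, …, m` -/
theorem eval_lagrange (f : ℝ[X]) (m : ℕ) (hf : f.natDegree ≤ m) (x : ℝ) :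
    f.eval x = ∑ i ∈ range (m + 1), f.eval (i : ℝ) *
      ∏ j ∈ (range (m + 1)).erase i, (((i : ℝ) - (j : ℝ))⁻¹ * (x - (j : ℝ))) := by
  have hinj : Set.InjOn (fun i : ℕ => (i : ℝ)) (range (m + 1) : Finset ℕ) := by
    intro a _ b _ hab
    have hab' : ((a : ℕ) : ℝ) = (b : ℝ) := hab
    exact Nat.cast_injective hab'
  have hdeg : f.degree < #(range (m + 1)) := by
    rw [card_range]
    refine lt_of_le_of_lt degree_le_natDegree ?_
    exact_mod_cast Nat.lt_succ_of_le hf
  have h1 := Lagrange.eq_interpolate hinj hdeg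
  conv_lhs => rw [h1]
  rw [Lagrange.interpolate_apply, eval_finsetSum]
  apply sum_congr rfl
  intro i _
  rw [eval_mul, eval_C, Lagrange.basis, eval_prod]
  congr 1
  apply prod_congr rfl
  intro j _
  rw [Lagrange.basisDivisor, eval_mul, eval_C, eval_sub, eval_X, eval_C]

theorem prod_erase_abs (m i : ℕ) (hi : i ≤ m) :
    ∏ j ∈ (range (m + 1)).erase i, |(i : ℝ) - (j : ℝ)| =
      (i.factorial : ℝ) * ((m - i).factorial : ℝ) := by
  have h1 : (range (m + 1)).erase i = range i ∪ Ico (i + 1) (m + 1) := by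
    ext j
    simp only [mem_erase, mem_range, mem_union, mem_Ico]
    omega
  have h2 : Disjoint (range i) (Ico (i + 1) (m + 1)) := by
    rw [Finset.disjoint_left]
    intro j hj hj'
    rw [mem_range] at hj
    rw [mem_Ico] at hj'
    omega
  rw [h1, prod_union h2]
  have h3 : ∏ j ∈ range i, |(i : ℝ) - (j : ℝ)| = (i.factorial : ℝ) := by
    rw [← prod_range_reflect, ← prod_range_add_one_eq_factorial, Nat.cast_prod]
    apply prod_congr rfl
    intro j hj
    rw [mem_range] at hj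
    have h5 : ((i : ℕ) : ℝ) = ((i - 1 - j : ℕ) : ℝ) + (j + 1 : ℕ) := by
      rw [← Nat.cast_add]
      congr 1
      omega
    rw [h5, add_sub_cancel_left]
    exact abs_of_nonneg (by positivity)
  have h6 : ∏ j ∈ Ico (i + 1) (m + 1), |(i : ℝ) - (j : ℝ)| = ((m - i).factorial : ℝ) := by
    rw [prod_Ico_eq_prod_range, show m + 1 - (i + 1) = m - i by omega,
      ← prod_range_add_one_eq_factorial, Nat.cast_prod]
    apply prod_congr rfl
    intro j _
    have h5 : (i : ℝ) - ((i + 1 + j : ℕ) : ℝ) = -((j + 1 : ℕ) : ℝ) := by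
      push_cast
      ring
    rw [h5, abs_neg]
    exact abs_of_nonneg (by positivity)
  rw [h3, h6]

theorem poly_bound_nat (f : ℝ[X]) (m : ℕ) (hf : f.natDegree ≤ m) (B : ℝ)
    (hB : ∀ i ≤ m, |f.eval (i : ℝ)| ≤ B) (x : ℝ) :
    |f.eval x| ≤ B * ((|x| + m) ^ m * 2 ^ m / (m.factorial : ℝ)) := by
  have hB0 : 0 ≤ B := (abs_nonneg _).trans (hB 0 (Nat.zero_le _))
  rw [eval_lagrange f m hf x]
  refine (abs_sum_le_sum_abs _ _).trans ?_
  have hterm : ∀ i ∈ range (m + 1), |f.eval (i : ℝ) *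
      ∏ j ∈ (range (m + 1)).erase i, (((i : ℝ) - (j : ℝ))⁻¹ * (x - (j : ℝ)))| ≤
      B * (|x| + m) ^ m * ((m.choose i : ℝ) / (m.factorial : ℝ)) := by
    intro i hi
    have him : i ≤ m := by
      rw [mem_range] at hi
      omega
    have hcard : #((range (m + 1)).erase i) = m := by
      rw [card_erase_of_mem hi, card_range]
      rfl
    rw [abs_mul, abs_prod, mul_assoc]
    refine mul_le_mul (hB i him) ?_ (prod_nonneg fun _ _ => abs_nonneg _) hB0
    have h1 : ∏ j ∈ (range (m + 1)).erase i, |((i : ℝ) - (j : ℝ))⁻¹ * (x - (j : ℝ))| =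
        (∏ j ∈ (range (m + 1)).erase i, |(i : ℝ) - (j : ℝ)|)⁻¹ *
          ∏ j ∈ (range (m + 1)).erase i, |x - (j : ℝ)| := by
      rw [← prod_inv_distrib, ← prod_mul_distrib]
      exact prod_congr rfl fun j _ => by rw [abs_mul, abs_inv]
    rw [h1, prod_erase_abs m i him]
    have h2 : ∏ j ∈ (range (m + 1)).erase i, |x - (j : ℝ)| ≤ (|x| + m) ^ m := by
      have h3 : ∏ j ∈ (range (m + 1)).erase i, |x - (j : ℝ)| ≤
          ∏ _j ∈ (range (m + 1)).erase i, (|x| + m) := by
        apply prod_le_prod (fun _ _ => abs_nonneg _)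
        intro j hj
        have hj' : j ≤ m := by
          have := mem_of_mem_erase hj
          rw [mem_range] at this
          omega
        have hj2 : (j : ℝ) ≤ m := by exact_mod_cast hj'
        calc |x - (j : ℝ)| ≤ |x| + |(j : ℝ)| := abs_sub _ _
          _ = |x| + j := by rw [abs_of_nonneg (by positivity : (0 : ℝ) ≤ (j : ℝ))]
          _ ≤ |x| + m := by linarith
      rwa [prod_const, hcard] at h3
    have hfac : ((m.choose i : ℕ) : ℝ) / (m.factorial : ℝ) =
        ((i.factorial : ℝ) * ((m - i).factorial : ℝ))⁻¹ := by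
      have h4 : ((m.factorial : ℕ) : ℝ) = ((m.choose i : ℕ) : ℝ) * (i.factorial : ℝ) *
          ((m - i).factorial : ℝ) := by
        rw [← Nat.choose_mul_factorial_mul_factorial him]
        push_cast
        ring
      have hc : ((m.choose i : ℕ) : ℝ) ≠ 0 := by
        exact_mod_cast (Nat.choose_pos him).ne'
      have hi0 : (i.factorial : ℝ) ≠ 0 := by positivity
      have hmi0 : ((m - i).factorial : ℝ) ≠ 0 := by positivity
      rw [h4]
      field_simp
    rw [hfac, mul_comm]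
    exact mul_le_mul_of_nonneg_right h2 (by positivity)
  refine (sum_le_sum hterm).trans ?_
  rw [← mul_sum, ← sum_div]
  have h5 : ∑ i ∈ range (m + 1), (m.choose i : ℝ) = 2 ^ m := by
    exact_mod_cast Nat.sum_range_choose m
  rw [h5]
  have : B * (|x| + m) ^ m * (2 ^ m / (m.factorial : ℝ)) =
      B * ((|x| + m) ^ m * 2 ^ m / (m.factorial : ℝ)) := by ring
  exact this.le

/-- a real polynomial bounded on `[10, 11]` -/
theorem poly_bound (f : ℝ[X]) (m : ℕ) (hf : f.natDegree ≤ m) (B : ℝ)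
    (hB : ∀ x ∈ Set.Icc (10 : ℝ) 11, |f.eval x| ≤ B) (x : ℝ) :
    |f.eval x| ≤ B * (60 * (1 + |x|)) ^ m := by
  have hB0 : 0 ≤ B := (abs_nonneg _).trans (hB 10 ⟨le_rfl, by norm_num⟩)
  rcases Nat.eq_zero_or_pos m with hm | hm
  · subst hm
    have h1 : f = C (f.coeff 0) := eq_C_of_natDegree_le_zero hf
    have h2 := hB 10 ⟨le_rfl, by norm_num⟩
    rw [h1, eval_C] at h2 ⊢
    simpa using h2
  have hm' : (0 : ℝ) < m := by exact_mod_cast hm
  set g : ℝ[X] := f.comp (C 10 + C ((m : ℝ)⁻¹) * X) with hg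
  have hgd : g.natDegree ≤ m := by
    rw [hg, natDegree_comp]
    have h3 : (C (10 : ℝ) + C ((m : ℝ)⁻¹) * X).natDegree ≤ 1 := by
      refine (natDegree_add_le _ _).trans ?_
      rw [natDegree_C]
      have h4 := natDegree_C_mul_le ((m : ℝ)⁻¹) (X : ℝ[X])
      rw [natDegree_X] at h4
      omega
    calc f.natDegree * _ ≤ m * 1 := Nat.mul_le_mul hf h3
      _ = m := mul_one m
  have hge : ∀ s : ℝ, g.eval s = f.eval (10 + (m : ℝ)⁻¹ * s) := by
    intro s
    rw [hg, eval_comp]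
    simp
  have hgB : ∀ i ≤ m, |g.eval (i : ℝ)| ≤ B := by
    intro i hi
    rw [hge]
    apply hB
    have hi' : (i : ℝ) ≤ m := by exact_mod_cast hi
    have h4 : (m : ℝ)⁻¹ * i ≤ 1 := by
      rw [inv_mul_le_iff₀ hm']
      linarith
    have h5 : 0 ≤ (m : ℝ)⁻¹ * i := by positivity
    exact ⟨by linarith, by linarith⟩
  have h6 := poly_bound_nat g m hgd B hgB (m * (x - 10))
  rw [hge] at h6
  have h7 : 10 + (m : ℝ)⁻¹ * (m * (x - 10)) = x := by
    field_simp
    ring
  rw [h7] at h6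
  refine h6.trans (mul_le_mul_of_nonneg_left ?_ hB0)
  have h8 : |(m : ℝ) * (x - 10)| + m ≤ m * (11 * (1 + |x|)) := by
    rw [abs_mul, abs_of_pos hm']
    have h9 : |x - 10| ≤ |x| + 10 := by
      calc |x - 10| ≤ |x| + |(10 : ℝ)| := abs_sub _ _
        _ = |x| + 10 := by norm_num
    have h10 : 0 ≤ |x| := abs_nonneg x
    nlinarith
  have h11 : (|(m : ℝ) * (x - 10)| + m) ^ m ≤ (m * (11 * (1 + |x|))) ^ m :=
    pow_le_pow_left₀ (by positivity) h8 m
  have h12 : (m : ℝ) ^ m / (m.factorial : ℝ) ≤ Real.exp m :=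
    Real.pow_div_factorial_le_exp (m : ℝ) hm'.le m
  have h13 : Real.exp m ≤ (30 / 11 : ℝ) ^ m := by
    have h14 : Real.exp (m : ℝ) = Real.exp 1 ^ m := by
      rw [← Real.exp_nat_mul, mul_one]
    rw [h14]
    apply pow_le_pow_left₀ (Real.exp_pos 1).le
    have := Real.exp_one_lt_d9
    linarith
  have hx0 : 0 ≤ 1 + |x| := by positivity
  calc (|(m : ℝ) * (x - 10)| + m) ^ m * 2 ^ m / (m.factorial : ℝ)
      ≤ (m * (11 * (1 + |x|))) ^ m * 2 ^ m / (m.factorial : ℝ) := by
        gcongr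
    _ = ((m : ℝ) ^ m / (m.factorial : ℝ)) * (22 * (1 + |x|)) ^ m := by
        have h15 : ((m : ℝ) * (11 * (1 + |x|))) ^ m * 2 ^ m = (m : ℝ) ^ m * (22 * (1 + |x|)) ^ m := by
          rw [mul_pow, mul_assoc, ← mul_pow]
          congr 2
          ring
        rw [h15]
        ring
    _ ≤ (30 / 11 : ℝ) ^ m * (22 * (1 + |x|)) ^ m := by
        apply mul_le_mul_of_nonneg_right (h12.trans h13)
        positivity
    _ = (60 * (1 + |x|)) ^ m := by
        rw [← mul_pow]
        congr 1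
        ring

/-- coefficient matrix of `x'` -/
noncomputable def mXr (R : Type*) [Field R] (A rho : ℕ) :
    Matrix (Nd A ⊕ Fin (2 * rho)) (Fin (A + rho) ⊕ Fin (A + rho)) R
  | Sum.inl (Sum.inr f), Sum.inl i =>
      (binP R i).eval ((nodeZ A (Sum.inr f) : ℤ) : R) * (aperyA (f + 2) : R)
  | Sum.inl (Sum.inr f), Sum.inr i =>
      (binP R i).eval ((nodeZ A (Sum.inr f) : ℤ) : R) * (aperyA (f + 1) : R)
  | _, _ => 0

theorem bigM_xr {R : Type*} [Field R] (x x' : R) (v : ℕ → R) (A rho : ℕ) :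
    bigM x x' v A rho = x' • mXr R A rho + bigM x 0 v A rho := by
  refine Matrix.ext fun a t => ?_
  rw [Matrix.add_apply, Matrix.smul_apply, smul_eq_mul]
  rcases a with (f | f) | d <;> rcases t with i | i <;>
    simp only [bigM, fullM, mXr, uval, uval1] <;> ring

theorem DeltaR_poly_r {R : Type*} [Field R] (x : R) (v : ℕ → R) (A rho : ℕ) :
    ∃ f : R[X], f.natDegree ≤ 2 * (A + rho) ∧ ∀ x' : R, f.eval x' = DeltaR x x' v A rho := by
  refine ⟨_, (Polynomial.natDegree_det_X_add_C_le ((mXr R A rho).submatrix (idx A rho) id)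
    ((bigM x 0 v A rho).submatrix (idx A rho) id)).trans (by simp; omega), ?_⟩
  intro x'
  rw [← coe_evalRingHom, RingHom.map_det, DeltaR, bigM_xr x x']
  congr 1
  refine Matrix.ext fun i j => ?_
  rw [RingHom.mapMatrix_apply, Matrix.map_apply, Matrix.add_apply, Matrix.smul_apply,
    Matrix.map_apply, Matrix.map_apply, smul_eq_mul,
    coe_evalRingHom, eval_add, eval_mul, eval_X, eval_C, eval_C, Matrix.submatrix_apply,
    Matrix.submatrix_apply, Matrix.submatrix_apply, Matrix.add_apply, Matrix.smul_apply,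
    smul_eq_mul]

/-- (U1): from `x' ∈ [10, 11]` to all real `x'` -/
theorem DeltaR_interp (y : ℝ) (v : ℕ → ℝ) (A rho : ℕ) (B : ℝ)
    (hB : ∀ x' ∈ Set.Icc (10 : ℝ) 11, |DeltaR y x' v A rho| ≤ B) (x' : ℝ) :
    |DeltaR y x' v A rho| ≤ B * (60 * (1 + |x'|)) ^ (2 * (A + rho)) := by
  obtain ⟨f, hf, he⟩ := DeltaR_poly_r y v A rho
  rw [← he x']
  exact poly_bound f _ hf B (fun x hx => by rw [he x]; exact hB x hx) x'

end QS2.M
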