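import Pool.Agent.QS2.ArchR

/-!
# QS2, measure: the archimedean bound for `y` near `zeta(3)`
-/

set_option autoImplicit false

namespace Pool.Agent.QS2

open Finset Filter Topology Polynomial
open _root_.QS2 (Nd nodeZ IsFormal)
open Pool.QS2E (Gk lamE nu pole_weight node_weight tail_sum)

section bound

variable {A N : ℕ}

/-- **The bound for the Hankel determinant**, with small point masses at the right nodes. -/
theorem lam_det_bound_gen {K0 : ℝ} (hK0 : 0 < K0)
    (hres : ∀ (M : ℕ) (p : Fin M × Fin 3), ‖rr M p‖ ≤ K0 * Real.exp (-7 * (((p.1 : ℕ) : ℝ) + 1)))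
    {C1 : ℝ} (hC1 : 0 < C1) (hA : 2 ≤ A) (g : Fin (2 * A) ≃ Nd A) (ρ : Nd A → ℂ) (v : ℕ → ℂ)
    (hv : IsFormal v) (hv0 : ‖v 0‖ ≤ 1)
    (hleft : ∀ i : Fin A, ∀ᶠ M in atTop,
      ‖ρ (Sum.inr i) - rM M (nd A (Sum.inr i))‖ ≤ C1 * Real.exp (-7 * (((i : ℕ) : ℝ) + 3)))
    (n e : ℕ) (z : Fin N → ℝ) (un : Fin N → ℕ)
    (hz : ∀ i, 1 ≤ un i ∧ |z i + un i| ≤ 1 / 4 ∧ 1 / 8 ≤ |z i + un i|)
    (hsep : ∀ i j, i ≠ j → 1 / 8 ≤ |z i - z j|)
    (hF : ∀ F : ℕ → ℝ, ∑ i, F (un i) = ∑ l ∈ Ioc 0 (7 * n + e), (nu n e l : ℝ) * F l)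
    (hfar : ∀ k, 2 * A < k → Gk A n e k ≤ lamE A n - k)
    (hr : ∀ᶠ M in atTop, ∀ i j : Fin N, ‖∑ l : Fin A, nodeMass g ρ M (Sum.inl l) *
        (phi (fun i => (z i : ℂ)) i * phi (fun i => (z i : ℂ)) j).eval (nd A (Sum.inl l))‖ ≤
        Real.exp (lamE A n)) :
    ‖(Matrix.of fun i j : Fin N =>
        Lam (fun s => nd A (g s)) (fun s => ρ (g s)) v ((i : ℕ) + (j : ℕ))).det‖ *
      VN (fun i => (z i : ℂ)) ^ 2 ≤
      (N.factorial : ℝ) * (7 * A + 1) ^ N *
        Real.exp (N * (lamE A n + Real.log (300 * Real.exp 2 * K0 + 64 * C1 + 1)) +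
          4 * ∑ k ∈ Ioc 0 (2 * A), max (Gk A n e k - lamE A n) 0) := by
  set c2 : ℝ := 300 * Real.exp 2 * K0 + 64 * C1 + 1 with hc2
  set c1 : ℝ := 100 * Real.exp 2 * K0 + 64 * C1 with hc1
  have hc1pos : 0 < c1 := by positivity
  have hc2pos : 0 < c2 := by positivity
  have hc12 : c1 ≤ c2 := by
    have : 0 ≤ Real.exp 2 * K0 := by positivity
    rw [hc1, hc2]; linarith
  set lam : ℝ := lamE A n + Real.log c2 with hlam
  have hzinj : Function.Injective (fun i => (z i : ℂ)) := by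
    intro i j h
    by_contra hne
    have h1 := hsep i j hne
    have h2 : z i = z j := by
      have : (z i : ℂ) = (z j : ℂ) := h
      exact_mod_cast this
    rw [h2, sub_self, abs_zero] at h1
    norm_num at h1
  set w : Pt A → ℝ := Sum.elim (fun q => c1 * Real.exp (Gk A n e ((q.1 : ℕ) + 1)))
    (fun i => c1 * Real.exp (Gk A n e ((i : ℕ) + 3))) with hw
  have hwpos : ∀ k, 0 < w k := by
    rintro (q | i) <;> simp only [hw, Sum.elim_inl, Sum.elim_inr] <;> positivity
  have hexp : Real.exp lam = c2 * Real.exp (lamE A n) := by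
    rw [hlam, Real.exp_add, Real.exp_log hc2pos, mul_comm]
  have hlim : ∀ m, Tendsto (fun M => ∑ k, amP g ρ M k * xiP M k ^ m + EP g ρ M (X ^ m)) atTop
      (𝓝 (Lam (fun s => nd A (g s)) (fun s => ρ (g s)) v m)) := by
    intro m
    refine (Lam_tendsto g ρ v hv hv0 m).congr' ?_
    filter_upwards [eventually_ge_atTop (2 * A)] with M hM
    exact (Lam_particles g (by omega) ρ M hM m).symm
  have hb : ∀ᶠ M in atTop, ∀ (k : Pt A) (i j : Fin N), ‖amP g ρ M k‖ *
      ‖(phi (fun i => (z i : ℂ)) i * phi (fun i => (z i : ℂ)) j).eval (xiP M k)‖ ≤ w k := by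
    have hl := eventually_all.mpr hleft
    filter_upwards [hl] with M hM
    rintro (q | l) i j
    · have h1 := pole_w g hK0 hres n e z un hz hF M q.1 q.2 i j
      simp only [amP, xiP, hw, Sum.elim_inl]
      refine h1.trans ?_
      refine mul_le_mul_of_nonneg_right ?_ (Real.exp_pos _).le
      rw [hc1]
      linarith
    · have h1 := node_w g hC1 ρ n e z un hz hF M l (hM l) i j
      simp only [amP, xiP, hw, Sum.elim_inr]
      refine h1.trans ?_
      refine mul_le_mul_of_nonneg_right ?_ (Real.exp_pos _).le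
      rw [hc1]
      have : 0 ≤ 100 * Real.exp 2 * K0 := by positivity
      linarith
  have hE : ∀ᶠ M in atTop, ∀ i j : Fin N,
      ‖EP g ρ M (phi (fun i => (z i : ℂ)) i * phi (fun i => (z i : ℂ)) j)‖ ≤ Real.exp lam := by
    filter_upwards [hr] with M hM i j
    rw [EP_apply]
    refine (norm_add_le _ _).trans ?_
    have h1 : ‖∑ k ∈ Ico (2 * A) M, ∑ jj : Fin 3, amN g M k jj *
        (phi (fun i => (z i : ℂ)) i * phi (fun i => (z i : ℂ)) j).eval (xiN M k jj)‖ ≤
        300 * Real.exp 2 * K0 * Real.exp (lamE A n) := by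
      refine (norm_sum_le _ _).trans ?_
      have h2 : ∀ k ∈ Ico (2 * A) M, ‖∑ jj : Fin 3, amN g M k jj *
          (phi (fun i => (z i : ℂ)) i * phi (fun i => (z i : ℂ)) j).eval (xiN M k jj)‖ ≤
          300 * Real.exp 2 * K0 * Real.exp (lamE A n) * Real.exp (-((k + 1 : ℕ) : ℝ)) := by
        intro k hk
        rw [mem_Ico] at hk
        refine (norm_sum_le _ _).trans ?_
        have h3 : ∀ jj ∈ (univ : Finset (Fin 3)), ‖amN g M k jj *
            (phi (fun i => (z i : ℂ)) i * phi (fun i => (z i : ℂ)) j).eval (xiN M k jj)‖ ≤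
            100 * Real.exp 2 * K0 * Real.exp (lamE A n - ((k + 1 : ℕ) : ℝ)) := by
          intro jj _
          rw [norm_mul]
          refine (pole_w g hK0 hres n e z un hz hF M k jj i j).trans ?_
          refine mul_le_mul_of_nonneg_left ?_ (by positivity)
          exact Real.exp_le_exp.mpr (hfar (k + 1) (by omega))
        refine (sum_le_sum h3).trans ?_
        rw [sum_const, card_univ, Fintype.card_fin, nsmul_eq_mul, sub_eq_add_neg, Real.exp_add]
        apply le_of_eq
        push_cast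
        ring
      refine (sum_le_sum h2).trans ?_
      rw [← mul_sum, sum_Ico_Ioc (fun k => Real.exp (-(k : ℝ)))]
      have h4 := tail_sum M (2 * A)
      have h5 : 0 ≤ 300 * Real.exp 2 * K0 * Real.exp (lamE A n) := by positivity
      calc _ ≤ 300 * Real.exp 2 * K0 * Real.exp (lamE A n) * 1 := mul_le_mul_of_nonneg_left h4 h5
        _ = _ := mul_one _
    have h2 := hM i j
    rw [hexp, hc2]
    have h6 : 0 ≤ 64 * C1 * Real.exp (lamE A n) := by positivity
    calc _ ≤ 300 * Real.exp 2 * K0 * Real.exp (lamE A n) + Real.exp (lamE A n) := add_le_add h1 h2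
      _ ≤ _ := by linarith
  have main := particles_bound' (fun i => (z i : ℂ)) hzinj _ (fun M => xiP M)
    (fun M => amP g ρ M) (fun M => EP g ρ M) hlim w hwpos lam hb hE
  refine main.trans ?_
  have hcard : ((Fintype.card (Pt A) : ℕ) : ℝ) + 1 = 7 * A + 1 := by
    rw [Fintype.card_sum, Fintype.card_prod, Fintype.card_fin, Fintype.card_fin, Fintype.card_fin]
    push_cast
    ring
  rw [hcard]
  refine mul_le_mul_of_nonneg_left ?_ (by positivity)
  rw [Real.exp_le_exp]
  have hpt : ∀ x : ℝ, max (Real.log (c1 * Real.exp x) - lam) 0 ≤ max (x - lamE A n) 0 := by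
    intro x
    refine max_le_max ?_ le_rfl
    rw [Real.log_mul hc1pos.ne' (Real.exp_pos _).ne', Real.log_exp, hlam]
    have := Real.log_le_log hc1pos hc12
    linarith
  have hsum : ∑ k : Pt A, max (Real.log (w k) - lam) 0 ≤
      4 * ∑ k ∈ Ioc 0 (2 * A), max (Gk A n e k - lamE A n) 0 := by
    rw [Fintype.sum_sum_type, Fintype.sum_prod_type]
    simp only [hw, Sum.elim_inl, Sum.elim_inr]
    have s1 : ∑ k : Fin (2 * A), ∑ _j : Fin 3,
        max (Real.log (c1 * Real.exp (Gk A n e ((k : ℕ) + 1))) - lam) 0 ≤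
        3 * ∑ k ∈ Ioc 0 (2 * A), max (Gk A n e k - lamE A n) 0 := by
      rw [← sum_fin_Ioc (fun k => max (Gk A n e k - lamE A n) 0) (2 * A), mul_sum]
      refine sum_le_sum (fun k _ => ?_)
      rw [sum_const, card_univ, Fintype.card_fin, nsmul_eq_mul]
      push_cast
      exact mul_le_mul_of_nonneg_left (hpt _) (by norm_num)
    have s2 : ∑ i : Fin A, max (Real.log (c1 * Real.exp (Gk A n e ((i : ℕ) + 3))) - lam) 0 ≤
        ∑ k ∈ Ioc 0 (2 * A), max (Gk A n e k - lamE A n) 0 := by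
      calc _ ≤ ∑ i : Fin A, max (Gk A n e ((i : ℕ) + 3) - lamE A n) 0 :=
            sum_le_sum (fun i _ => hpt _)
        _ = ∑ k ∈ Ioc 2 (A + 2), max (Gk A n e k - lamE A n) 0 :=
            sum_fin_Ioc2 (fun k => max (Gk A n e k - lamE A n) 0) A
        _ ≤ _ := by
            refine sum_le_sum_of_subset_of_nonneg ?_ (fun _ _ _ => le_max_right _ _)
            intro k hk
            rw [mem_Ioc] at hk ⊢
            omega
    linarith
  linarith

end bound

end Pool.Agent.QS2
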