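import Pool.Agent.QS2.B.ProdU

/-! # QS2, phase 2: product of the node values for `x'` in `[10, 11]` -/

set_option autoImplicit false

namespace QS2

open Finset

theorem prod_u10 : ∃ C : ℝ, 1 ≤ C ∧ ∀ x' : ℝ, 10 ≤ x' → x' ≤ 11 → ∀ A : ℕ,
    ∏ f, |uval zeta3 x' A f| ≤ C ^ A := by
  refine ⟨12 * 23, by norm_num, fun x' h1 h2 A => (prod_u_unif x' A).trans ?_⟩
  have h3 := zeta3_le_two
  have h6 : 0 ≤ zeta3 := by
    unfold zeta3
    exact tsum_nonneg (fun n => by positivity)
  have h8 : |x' - zeta3| ≤ 11 := by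
    rw [abs_le]
    constructor <;> linarith
  exact pow_le_pow_left₀ (by positivity) (by linarith) A

end QS2
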