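import Pool.Agent.QS2.Irr
import Pool.Agent.QS2.M.CrudeDiff

/-!
# A measure of irrationality of `ζ(3)` (Apéry), used for the rational case of the power measure
-/

set_option autoImplicit false

namespace QS2

open Finset Filter Topology Irr

namespace RatM

theorem exp_lt_31 : Real.exp (33 / 10) < 31 := by
  have h2 := Real.exp_one_lt_d9
  have h3 : Real.exp (33 / 10) = Real.exp 1 ^ 3 * Real.exp (3 / 10) := by
    rw [← Real.exp_nat_mul, ← Real.exp_add]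
    norm_num
  have h4 : Real.exp (3 / 10) ≤ 1.35 := by
    have h5 := Real.exp_bound' (x := 3 / 10) (by norm_num) (by norm_num) (n := 4) (by norm_num)
    refine h5.trans ?_
    norm_num [Finset.sum_range_succ, Nat.factorial]
  have h6 : Real.exp 1 ^ 3 < 2.7182818286 ^ 3 :=
    pow_lt_pow_left₀ h2 (Real.exp_pos 1).le (by norm_num)
  rw [h3]
  calc Real.exp 1 ^ 3 * Real.exp (3 / 10) ≤ 2.7182818286 ^ 3 * 1.35 :=
        mul_le_mul h6.le h4 (Real.exp_pos _).le (by positivity)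
    _ < 31 := by norm_num

/-- some `N ∈ {n, n + 1}` with `a_N p - b_N q ≠ 0` -/
theorem exists_ne (n : ℕ) (p : ℤ) {q : ℕ} (hq : 0 < q) :
    ∃ N, n ≤ N ∧ N ≤ n + 1 ∧ aperyA N * (p : ℚ) - aperyB N * (q : ℚ) ≠ 0 := by
  by_contra hc
  push Not at hc
  have h1 := hc n le_rfl (by omega)
  have h2 := hc (n + 1) (by omega) le_rfl
  have h3 := casoratian n
  have hq' : (q : ℚ) ≠ 0 := by exact_mod_cast hq.ne'
  have h4 : (aperyA n * aperyB (n + 1) - aperyA (n + 1) * aperyB n) * (q : ℚ) = 0 := by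
    linear_combination (-aperyA n) * h2 + aperyA (n + 1) * h1
  rw [h3] at h4
  have h5 : (6 : ℚ) / ((n : ℚ) + 1) ^ 3 ≠ 0 := by positivity
  exact (mul_ne_zero h5 hq') h4

/-- the integer argument -/
theorem one_le (N : ℕ) (p : ℤ) {q : ℕ}
    (h : aperyA N * (p : ℚ) - aperyB N * (q : ℚ) ≠ 0) :
    1 ≤ 2 * (Nat.lcmUpto N : ℝ) ^ 3 * |((aperyA N : ℚ) : ℝ) * p - ((aperyB N : ℚ) : ℝ) * q| := by
  obtain ⟨z, hz⟩ := int_b N
  have hl : (0 : ℚ) < Nat.lcmUpto N := by exact_mod_cast Nat.lcmUpto_pos N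
  have e1 : 2 * (Nat.lcmUpto N : ℚ) ^ 3 * (aperyA N * p - aperyB N * q) =
      ((2 * (Nat.lcmUpto N : ℤ) ^ 3 * (aperyN N : ℤ) * p - z * q : ℤ) : ℚ) := by
    push_cast
    rw [← hz, ← aperyA_eq_cast]
    ring
  have hne : (2 * (Nat.lcmUpto N : ℤ) ^ 3 * (aperyN N : ℤ) * p - z * q : ℤ) ≠ 0 := by
    intro h0
    rw [h0, Int.cast_zero] at e1
    rcases mul_eq_zero.1 e1 with h1 | h1
    · exact absurd h1 (by positivity)
    · exact h h1
  have h1 : (1 : ℤ) ≤ |2 * (Nat.lcmUpto N : ℤ) ^ 3 * (aperyN N : ℤ) * p - z * q| :=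
    Int.one_le_abs hne
  have e2 : 2 * (Nat.lcmUpto N : ℝ) ^ 3 *
      (((aperyA N : ℚ) : ℝ) * p - ((aperyB N : ℚ) : ℝ) * q) =
      ((2 * (Nat.lcmUpto N : ℤ) ^ 3 * (aperyN N : ℤ) * p - z * q : ℤ) : ℝ) := by
    exact_mod_cast congrArg (fun t : ℚ => (t : ℝ)) e1
  have hlr : (0 : ℝ) < Nat.lcmUpto N := by exact_mod_cast Nat.lcmUpto_pos N
  have e3 : 2 * (Nat.lcmUpto N : ℝ) ^ 3 *
      |((aperyA N : ℚ) : ℝ) * p - ((aperyB N : ℚ) : ℝ) * q| =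
      |((2 * (Nat.lcmUpto N : ℤ) ^ 3 * (aperyN N : ℤ) * p - z * q : ℤ) : ℝ)| := by
    rw [← e2, abs_mul, abs_of_pos (by positivity : (0 : ℝ) < 2 * (Nat.lcmUpto N : ℝ) ^ 3)]
  rw [e3]
  exact_mod_cast h1

end RatM

open RatM in
/-- **A measure of irrationality of `ζ(3)`** -/
theorem rat_measure : ∃ (k : ℕ) (c : ℝ), 0 < c ∧ ∀ (p : ℤ) (q : ℕ), 0 < q →
    c / (q : ℝ) ^ k ≤ |(q : ℝ) * zeta3 - p| := by
  obtain ⟨n0, hn0⟩ := eventually_atTop.1 lcm_le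
  -- `r = exp (33 / 10) / 31 < 1`
  set r : ℝ := Real.exp (33 / 10) / 31 with hr
  have hr0 : 0 < r := by positivity
  have hr1 : r < 1 := by
    rw [hr, div_lt_one (by norm_num)]
    exact exp_lt_31
  obtain ⟨T, hT⟩ : ∃ T : ℕ, r ^ T < 1 / 2 :=
    exists_pow_lt_of_lt_one (by norm_num) hr1
  have hl0 : 0 < lrem 0 := lrem_pos' 0
  obtain ⟨s, hs⟩ : ∃ s : ℕ, 4 * lrem 0 < 2 ^ s := pow_unbounded_of_one_lt _ (by norm_num)
  -- growth of `D_N^3 a_N`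
  set G : ℝ := Real.exp (33 / 10) * 128 with hG
  have hG1 : 1 ≤ G := by
    have : 1 ≤ Real.exp (33 / 10) := Real.one_le_exp (by norm_num)
    rw [hG]
    linarith
  obtain ⟨g, hg⟩ : ∃ g : ℕ, G ≤ 2 ^ g := by
    obtain ⟨g, hg⟩ := pow_unbounded_of_one_lt G (by norm_num : (1 : ℝ) < 2)
    exact ⟨g, hg.le⟩
  refine ⟨g * T, 1 / (4 * G ^ (n0 + T * (s + 1) + 1)), by positivity, fun p q hq => ?_⟩
  have hq1 : (1 : ℝ) ≤ q := by exact_mod_cast hq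
  -- `t` with `2 ^ (t - 1) ≤ q < 2 ^ t`
  obtain ⟨t, ht⟩ : ∃ t : ℕ, t = Nat.log 2 q + 1 := ⟨_, rfl⟩
  have ht1 : (q : ℝ) < 2 ^ t := by
    have := Nat.lt_pow_succ_log_self (b := 2) (by norm_num) q
    rw [ht]
    exact_mod_cast this
  have ht2 : (2 : ℝ) ^ (t - 1) ≤ q := by
    have := Nat.pow_log_le_self 2 hq.ne'
    rw [ht, Nat.add_sub_cancel]
    exact_mod_cast this
  set n : ℕ := n0 + T * (s + t) with hn
  obtain ⟨N, hN1, hN2, hN⟩ := exists_ne n p hq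
  have hone := one_le N p hN
  -- `2 D_N^3 l_N q ≤ 1 / 2`
  have hD := hn0 N (by omega)
  have hl := lrem_le N
  have hlpos := lrem_pos' N
  have hDpos : (0 : ℝ) < Nat.lcmUpto N := by exact_mod_cast Nat.lcmUpto_pos N
  have hrN : (Nat.lcmUpto N : ℝ) ^ 3 * lrem N ≤ lrem 0 * r ^ N := by
    calc (Nat.lcmUpto N : ℝ) ^ 3 * lrem N ≤ Real.exp (33 / 10 * N) * (lrem 0 * (1 / 31) ^ N) :=
          mul_le_mul hD hl hlpos.le (Real.exp_pos _).le
      _ = lrem 0 * r ^ N := by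
          have e1 : r ^ N = Real.exp (33 / 10 * N) * (1 / 31) ^ N := by
            rw [hr, div_eq_mul_one_div (Real.exp (33 / 10)), mul_pow, ← Real.exp_nat_mul,
              mul_comm (33 / 10 : ℝ) (N : ℝ)]
          rw [e1]
          ring
  have hrn : r ^ N ≤ (1 / 2) ^ (s + t) := by
    calc r ^ N ≤ r ^ (T * (s + t)) := pow_le_pow_of_le_one hr0.le hr1.le (by omega)
      _ = (r ^ T) ^ (s + t) := pow_mul _ _ _
      _ ≤ (1 / 2) ^ (s + t) := pow_le_pow_left₀ (by positivity) hT.le _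
  have hsmall : 2 * (Nat.lcmUpto N : ℝ) ^ 3 * ((q : ℝ) * lrem N) ≤ 1 / 2 := by
    have h1 : (Nat.lcmUpto N : ℝ) ^ 3 * lrem N ≤ lrem 0 * (1 / 2) ^ (s + t) :=
      hrN.trans (mul_le_mul_of_nonneg_left hrn hl0.le)
    have h2 : (q : ℝ) * (lrem 0 * (1 / 2) ^ (s + t)) ≤ 1 / 4 := by
      have h3 : (q : ℝ) * lrem 0 ≤ 2 ^ t * (2 ^ s / 4) :=
        mul_le_mul ht1.le (by linarith) hl0.le (by positivity)
      calc (q : ℝ) * (lrem 0 * (1 / 2) ^ (s + t)) = ((q : ℝ) * lrem 0) * (1 / 2) ^ (s + t) := by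
            ring
        _ ≤ (2 ^ t * (2 ^ s / 4)) * (1 / 2) ^ (s + t) :=
            mul_le_mul_of_nonneg_right h3 (by positivity)
        _ = 1 / 4 := by
            rw [one_div, inv_pow, pow_add]
            have h5 : (2 : ℝ) ^ t ≠ 0 := by positivity
            have h6 : (2 : ℝ) ^ s ≠ 0 := by positivity
            field_simp
    calc 2 * (Nat.lcmUpto N : ℝ) ^ 3 * ((q : ℝ) * lrem N)
        = 2 * ((q : ℝ) * ((Nat.lcmUpto N : ℝ) ^ 3 * lrem N)) := by ring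
      _ ≤ 2 * ((q : ℝ) * (lrem 0 * (1 / 2) ^ (s + t))) := by
          refine mul_le_mul_of_nonneg_left ?_ (by norm_num)
          exact mul_le_mul_of_nonneg_left h1 (by linarith)
      _ ≤ 1 / 2 := by linarith
  -- the identity
  have hid : ((aperyA N : ℚ) : ℝ) * p - ((aperyB N : ℚ) : ℝ) * q =
      (q : ℝ) * lrem N - ((aperyA N : ℚ) : ℝ) * ((q : ℝ) * zeta3 - p) := by
    unfold lrem
    ring
  have haN : (0 : ℝ) < ((aperyA N : ℚ) : ℝ) := by exact_mod_cast aperyA_pos N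
  have htri : |((aperyA N : ℚ) : ℝ) * p - ((aperyB N : ℚ) : ℝ) * q| ≤
      (q : ℝ) * lrem N + ((aperyA N : ℚ) : ℝ) * |(q : ℝ) * zeta3 - p| := by
    rw [hid]
    refine (abs_sub _ _).trans ?_
    rw [abs_mul ((aperyA N : ℚ) : ℝ), abs_of_pos haN, abs_of_nonneg (by positivity)]
  have hmain : 1 / 2 ≤ 2 * (Nat.lcmUpto N : ℝ) ^ 3 *
      (((aperyA N : ℚ) : ℝ) * |(q : ℝ) * zeta3 - p|) := by
    have h1 := mul_le_mul_of_nonneg_left htri (by positivity : 0 ≤ 2 * (Nat.lcmUpto N : ℝ) ^ 3)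
    rw [mul_add] at h1
    linarith
  -- growth
  have hA : ((aperyA N : ℚ) : ℝ) ≤ 128 ^ N := by
    have h1 := aperyA_le N
    have h2 : ((N : ℝ) + 1) ≤ 2 ^ N := by
      have : N + 1 ≤ 2 ^ N := Nat.lt_two_pow_self
      exact_mod_cast this
    calc ((aperyA N : ℚ) : ℝ) ≤ ((N : ℝ) + 1) * 64 ^ N := h1
      _ ≤ 2 ^ N * 64 ^ N := mul_le_mul_of_nonneg_right h2 (by positivity)
      _ = 128 ^ N := by rw [← mul_pow]; norm_num
  have hgrow : (Nat.lcmUpto N : ℝ) ^ 3 * ((aperyA N : ℚ) : ℝ) ≤ G ^ N := by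
    calc (Nat.lcmUpto N : ℝ) ^ 3 * ((aperyA N : ℚ) : ℝ)
        ≤ Real.exp (33 / 10 * N) * 128 ^ N := mul_le_mul hD hA haN.le (Real.exp_pos _).le
      _ = G ^ N := by
          rw [hG, mul_pow, ← Real.exp_nat_mul, mul_comm (33 / 10 : ℝ) (N : ℝ)]
  have hGN : G ^ N ≤ G ^ (n0 + T * (s + 1) + 1) * (q : ℝ) ^ (g * T) := by
    have h1 : N ≤ (n0 + T * (s + 1) + 1) + T * (t - 1) := by
      have : T * (s + t) = T * (s + 1) + T * (t - 1) := by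
        rw [← mul_add]
        congr 1
        omega
      omega
    calc G ^ N ≤ G ^ ((n0 + T * (s + 1) + 1) + T * (t - 1)) := pow_le_pow_right₀ hG1 h1
      _ = G ^ (n0 + T * (s + 1) + 1) * (G ^ T) ^ (t - 1) := by rw [pow_add, pow_mul]
      _ ≤ G ^ (n0 + T * (s + 1) + 1) * (((2 : ℝ) ^ g) ^ T) ^ (t - 1) := by gcongr
      _ = G ^ (n0 + T * (s + 1) + 1) * ((2 : ℝ) ^ (t - 1)) ^ (g * T) := by
          congr 1
          rw [← pow_mul, ← pow_mul, ← pow_mul]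
          congr 1
          ring
      _ ≤ G ^ (n0 + T * (s + 1) + 1) * (q : ℝ) ^ (g * T) := by gcongr
  have hX : 0 ≤ |(q : ℝ) * zeta3 - p| := abs_nonneg _
  have h5 : 1 / 4 ≤ G ^ (n0 + T * (s + 1) + 1) * (q : ℝ) ^ (g * T) *
      |(q : ℝ) * zeta3 - p| := by
    have h6 : (Nat.lcmUpto N : ℝ) ^ 3 * ((aperyA N : ℚ) : ℝ) * |(q : ℝ) * zeta3 - p| ≤
        G ^ (n0 + T * (s + 1) + 1) * (q : ℝ) ^ (g * T) * |(q : ℝ) * zeta3 - p| :=
      mul_le_mul_of_nonneg_right (hgrow.trans hGN) hX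
    have h7 : 2 * (Nat.lcmUpto N : ℝ) ^ 3 * (((aperyA N : ℚ) : ℝ) * |(q : ℝ) * zeta3 - p|) =
        2 * ((Nat.lcmUpto N : ℝ) ^ 3 * ((aperyA N : ℚ) : ℝ) * |(q : ℝ) * zeta3 - p|) := by ring
    rw [h7] at hmain
    linarith
  rw [div_div, div_le_iff₀ (by positivity)]
  have h8 : |(q : ℝ) * zeta3 - p| * (4 * G ^ (n0 + T * (s + 1) + 1) * (q : ℝ) ^ (g * T)) =
      4 * (G ^ (n0 + T * (s + 1) + 1) * (q : ℝ) ^ (g * T) * |(q : ℝ) * zeta3 - p|) := by ring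
  rw [h8]
  linarith

end QS2
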